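import Pool.Agent.Q234.PL.Rg

/-!
# The lower bound for a block of the ring
-/

set_option autoImplicit false

open scoped BigOperators Matrix
open Finset Pool.Agent.TH235.PP

namespace Pool.Agent.Q234.PL.Rw

open Pool.Agent.Q234.PL.Rg

section gen

variable {n : Type} [Fintype n] [DecidableEq n] {K : ℕ}

/-- anticommutator of a Majorana operator with a real combination of Majorana operators -/
theorem acomm_sum {ι κ : Type} [Fintype κ] [DecidableEq ι] (γ : ι → Matrix n n ℂ) (hγ : IsMaj γ)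
    (g : κ → ι) (f : κ → ℂ) (i : ι) :
    (∑ j, f j • γ (g j)) * γ i + γ i * (∑ j, f j • γ (g j)) =
      ∑ j, (if g j = i then (2 * f j) • (1 : Matrix n n ℂ) else 0) := by
  rw [Finset.sum_mul, Finset.mul_sum, ← Finset.sum_add_distrib]
  refine Finset.sum_congr rfl fun j _ => ?_
  by_cases h : g j = i
  · rw [if_pos h, h, smul_mul_assoc, mul_smul_comm, hγ.2.1 i, ← add_smul]
    congr 1
    ring
  · rw [if_neg h, smul_mul_assoc, mul_smul_comm, ← smul_add, hγ.2.2 _ _ h, neg_add_cancel,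
      smul_zero]

/-- the square of a real combination -/
theorem sq_sum (A : Fin K → Matrix n n ℂ) (hA : IsMaj A) (f : Fin K → ℝ) :
    (∑ j, (f j : ℂ) • A j) * (∑ j, (f j : ℂ) • A j) = ((f ⬝ᵥ f : ℝ) : ℂ) • (1 : Matrix n n ℂ) := by
  set S := ∑ j, (f j : ℂ) • A j with hS
  have h1 : ∀ i, S * A i + A i * S = ((2 * f i : ℝ) : ℂ) • (1 : Matrix n n ℂ) := by
    intro i
    have h := acomm_sum A hA id (fun j => (f j : ℂ)) i
    simp only [id] at h
    rw [hS, h, Finset.sum_ite_eq' Finset.univ i (fun j => (2 * (f j : ℂ)) • (1 : Matrix n n ℂ)),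
      if_pos (Finset.mem_univ _)]
    push_cast
    rfl
  have h2 : S * S + S * S = ((2 * (f ⬝ᵥ f) : ℝ) : ℂ) • (1 : Matrix n n ℂ) := by
    calc S * S + S * S = ∑ i, (f i : ℂ) • (S * A i + A i * S) := by
          simp only [smul_add]
          rw [Finset.sum_add_distrib]
          congr 1
          · nth_rw 2 [hS]
            rw [Finset.mul_sum]
            exact Finset.sum_congr rfl fun i _ => mul_smul_comm _ _ _
          · nth_rw 1 [hS]
            rw [Finset.sum_mul]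
            exact Finset.sum_congr rfl fun i _ => smul_mul_assoc _ _ _
      _ = ∑ i, ((2 * (f i * f i) : ℝ) : ℂ) • (1 : Matrix n n ℂ) := by
          refine Finset.sum_congr rfl fun i _ => ?_
          rw [h1 i, smul_smul]
          congr 1
          push_cast
          ring
      _ = ((2 * (f ⬝ᵥ f) : ℝ) : ℂ) • (1 : Matrix n n ℂ) := by
          rw [← Finset.sum_smul]
          congr 1
          unfold dotProduct
          rw [Finset.mul_sum]
          push_cast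
          rfl
  have h3 : (2 : ℂ) • (S * S) = (2 : ℂ) • (((f ⬝ᵥ f : ℝ) : ℂ) • (1 : Matrix n n ℂ)) := by
    rw [two_smul, h2, smul_smul]
    push_cast
    rfl
  exact smul_right_injective _ (two_ne_zero : (2 : ℂ) ≠ 0) h3

/-- a real combination is Hermitian -/
theorem herm_sum (A : Fin K → Matrix n n ℂ) (hA : IsMaj A) (f : Fin K → ℝ) :
    (∑ j, (f j : ℂ) • A j)ᴴ = ∑ j, (f j : ℂ) • A j := by
  rw [Matrix.conjTranspose_sum]
  refine Finset.sum_congr rfl fun j _ => ?_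
  rw [Matrix.conjTranspose_smul, (hA.1 j).eq]
  congr 1
  exact Complex.conj_ofReal _

theorem norm_sum (A : Fin K → Matrix n n ℂ) (hA : IsMaj A) (f : Fin K → ℝ) (φ : n → ℂ) :
    normSq ((∑ j, (f j : ℂ) • A j) *ᵥ φ) = (f ⬝ᵥ f) * normSq φ := by
  have e : (normSq ((∑ j, (f j : ℂ) • A j) *ᵥ φ) : ℂ) = ((f ⬝ᵥ f) * normSq φ : ℝ) := by
    rw [← ip_self, ip_mulVec, herm_sum A hA f, Matrix.mulVec_mulVec, sq_sum A hA f,
      Matrix.smul_mulVec, Matrix.one_mulVec, ip_smul_right, ip_self]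
    push_cast
    rfl
  exact_mod_cast e

theorem nr_norm_sum (A : Fin K → Matrix n n ℂ) (hA : IsMaj A) (f : Fin K → ℝ) (φ : n → ℂ) (b : ℝ)
    (hb : 0 ≤ b) (hf : f ⬝ᵥ f ≤ b ^ 2) : nr ((∑ j, (f j : ℂ) • A j) *ᵥ φ) ≤ b * nr φ := by
  have h1 : nr ((∑ j, (f j : ℂ) • A j) *ᵥ φ) ^ 2 ≤ (b * nr φ) ^ 2 := by
    rw [nr_sq, norm_sum A hA f φ, mul_pow, nr_sq]
    exact mul_le_mul_of_nonneg_right hf (normSq_nonneg φ)
  exact abs_le_of_sq_le_sq' h1 (mul_nonneg hb (nr_nonneg φ)) |>.2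

end gen

variable {N : ℕ}

theorem maj_A (hJ : JW) : IsMaj (Ao (N := N)) := by
  obtain ⟨⟨h1, h2, h3⟩, -⟩ := hJ N
  exact ⟨fun i => h1 (Sum.inl i), fun i => h2 (Sum.inl i),
    fun i j hij => h3 (Sum.inl i) (Sum.inl j) fun h => hij (Sum.inl.inj h)⟩

theorem maj_B (hJ : JW) : IsMaj (Bo (N := N)) := by
  obtain ⟨⟨h1, h2, h3⟩, -⟩ := hJ N
  exact ⟨fun i => h1 (Sum.inr i), fun i => h2 (Sum.inr i),
    fun i j hij => h3 (Sum.inr i) (Sum.inr j) fun h => hij (Sum.inr.inj h)⟩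

/-- anticommutator of `annih` with `A_i` -/
theorem annih_A (hJ : JW) (R : Matrix (Fin (N + 1)) (Fin (N + 1)) ℝ) (w : Fin (N + 1) → ℝ)
    (i : Fin (N + 1)) :
    annih R w * Ao i + Ao i * annih R w = (2 * (((R *ᵥ w) i : ℝ) : ℂ)) • (1 : Matrix (Cf N) (Cf N) ℂ) := by
  obtain ⟨hm, -⟩ := hJ N
  have h1 := acomm_sum (Sum.elim (Ao (N := N)) Bo) hm Sum.inl
    (fun j => (((R *ᵥ w) j : ℝ) : ℂ)) (Sum.inl i)
  have h2 := acomm_sum (Sum.elim (Ao (N := N)) Bo) hm Sum.inr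
    (fun j => (((Rᵀ *ᵥ w) j : ℝ) : ℂ)) (Sum.inl i)
  simp only [Sum.elim_inl, Sum.elim_inr, Sum.inl.injEq, reduceCtorEq, if_false,
    Finset.sum_const_zero] at h1 h2
  rw [Finset.sum_ite_eq' Finset.univ i, if_pos (Finset.mem_univ _)] at h1
  unfold annih
  rw [add_mul, mul_add, smul_mul_assoc, mul_smul_comm]
  calc _ = ((∑ j, (((R *ᵥ w) j : ℝ) : ℂ) • Ao j) * Ao i + Ao i * ∑ j, (((R *ᵥ w) j : ℝ) : ℂ) • Ao j) +
        Complex.I • ((∑ j, (((Rᵀ *ᵥ w) j : ℝ) : ℂ) • Bo j) * Ao i +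
          Ao i * ∑ j, (((Rᵀ *ᵥ w) j : ℝ) : ℂ) • Bo j) := by
        rw [smul_add]; abel
    _ = _ := by rw [h1, h2, smul_zero, add_zero]

/-- anticommutator of `annih` with `B_i` -/
theorem annih_B (hJ : JW) (R : Matrix (Fin (N + 1)) (Fin (N + 1)) ℝ) (w : Fin (N + 1) → ℝ)
    (i : Fin (N + 1)) :
    annih R w * Bo i + Bo i * annih R w =
      (Complex.I * (2 * (((Rᵀ *ᵥ w) i : ℝ) : ℂ))) • (1 : Matrix (Cf N) (Cf N) ℂ) := by
  obtain ⟨hm, -⟩ := hJ N
  have h1 := acomm_sum (Sum.elim (Ao (N := N)) Bo) hm Sum.inl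
    (fun j => (((R *ᵥ w) j : ℝ) : ℂ)) (Sum.inr i)
  have h2 := acomm_sum (Sum.elim (Ao (N := N)) Bo) hm Sum.inr
    (fun j => (((Rᵀ *ᵥ w) j : ℝ) : ℂ)) (Sum.inr i)
  simp only [Sum.elim_inl, Sum.elim_inr, Sum.inr.injEq, reduceCtorEq, if_false,
    Finset.sum_const_zero] at h1 h2
  rw [Finset.sum_ite_eq' Finset.univ i, if_pos (Finset.mem_univ _)] at h2
  unfold annih
  rw [add_mul, mul_add, smul_mul_assoc, mul_smul_comm]
  calc _ = ((∑ j, (((R *ᵥ w) j : ℝ) : ℂ) • Ao j) * Bo i + Bo i * ∑ j, (((R *ᵥ w) j : ℝ) : ℂ) • Ao j) +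
        Complex.I • ((∑ j, (((Rᵀ *ᵥ w) j : ℝ) : ℂ) • Bo j) * Bo i +
          Bo i * ∑ j, (((Rᵀ *ᵥ w) j : ℝ) : ℂ) • Bo j) := by
        rw [smul_add]; abel
    _ = _ := by rw [h1, h2, zero_add, smul_smul]

/-- the norm of `annih` -/
theorem annih_norm (hJ : JW) {lam : ℝ} (R : Matrix (Fin (N + 1)) (Fin (N + 1)) ℝ)
    (hR : RootOf N (-1) lam R) (w : Fin (N + 1) → ℝ) (κ : ℝ) (hκ : 0 ≤ κ) (hw : w ⬝ᵥ w ≤ κ ^ 2)
    (φ : Cf N → ℂ) : normSq (annih R w *ᵥ φ) ≤ (2 * (2 * κ)) ^ 2 * normSq φ := by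
  have e1 : (R *ᵥ w) ⬝ᵥ (R *ᵥ w) ≤ (2 * κ) ^ 2 := by
    refine (hR.upper w).trans ?_
    nlinarith
  have e2 : (Rᵀ *ᵥ w) ⬝ᵥ (Rᵀ *ᵥ w) = (R *ᵥ w) ⬝ᵥ (R *ᵥ w) := by
    rw [Matrix.dotProduct_mulVec, Matrix.vecMul_transpose, Matrix.mulVec_mulVec, hR.normal,
      ← Matrix.mulVec_mulVec, Matrix.mulVec_transpose, ← Matrix.dotProduct_mulVec]
  have e3 : (Rᵀ *ᵥ w) ⬝ᵥ (Rᵀ *ᵥ w) ≤ (2 * κ) ^ 2 := by rw [e2]; exact e1
  have h1 := nr_norm_sum Ao (maj_A (N := N) hJ) (R *ᵥ w) φ (2 * κ) (by positivity) e1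
  have h2 := nr_norm_sum Bo (maj_B (N := N) hJ) (Rᵀ *ᵥ w) φ (2 * κ) (by positivity) e3
  have h3 : nr (annih R w *ᵥ φ) ≤ 2 * (2 * κ) * nr φ := by
    unfold annih
    rw [Matrix.add_mulVec, Matrix.smul_mulVec]
    refine (nr_add _ _).trans ?_
    rw [nr_smul, Complex.norm_I, one_mul]
    linarith
  rw [← nr_sq, ← nr_sq, ← mul_pow]
  exact pow_le_pow_left₀ (nr_nonneg _) h3 2

/-- Row -/
theorem main (hJ : JW) (hS : Star) (hD : Dual) (hG : GNS) (hB : Block) : Row := by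
  intro N m lam R Ψ h0 h1 hm hmN hsmall hR hΨ hann
  set κ := kap m lam with hκ
  have hκ0 : 0 ≤ κ := by
    rw [hκ]
    unfold kap hh
    have : 0 < 1 - lam := by linarith
    positivity
  have hdual := hD (N + 1) m κ R hκ0 (hS N m lam R h0 h1 hm hmN hsmall hR)
  -- the sequence of the operators
  let γ : Fin (2 * m) → Matrix (Cf N) (Cf N) ℂ := fun k =>
    if (k : ℕ) % 2 = 0 then Ao ⟨(k : ℕ) / 2, by omega⟩ else Bo ⟨(k : ℕ) / 2, by omega⟩
  have hγ0 : ∀ k : Fin (2 * m), (k : ℕ) % 2 = 0 → γ k = Ao ⟨(k : ℕ) / 2, by omega⟩ := fun k hk => by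
    show (if (k : ℕ) % 2 = 0 then _ else _) = _
    rw [if_pos hk]
  have hγ1 : ∀ k : Fin (2 * m), ¬ (k : ℕ) % 2 = 0 → γ k = Bo ⟨(k : ℕ) / 2, by omega⟩ := fun k hk => by
    show (if (k : ℕ) % 2 = 0 then _ else _) = _
    rw [if_neg hk]
  let emb : Fin (2 * m) → Fin (N + 1) ⊕ Fin (N + 1) := fun k =>
    if (k : ℕ) % 2 = 0 then Sum.inl ⟨(k : ℕ) / 2, by omega⟩ else Sum.inr ⟨(k : ℕ) / 2, by omega⟩
  have hemb : ∀ k, γ k = Sum.elim Ao Bo (emb k) := by
    intro k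
    by_cases hk : (k : ℕ) % 2 = 0
    · rw [hγ0 k hk]
      show _ = Sum.elim Ao Bo (if (k : ℕ) % 2 = 0 then _ else _)
      rw [if_pos hk]; rfl
    · rw [hγ1 k hk]
      show _ = Sum.elim Ao Bo (if (k : ℕ) % 2 = 0 then _ else _)
      rw [if_neg hk]; rfl
  have hinj : Function.Injective emb := by
    intro k l hkl
    have e : (if (k : ℕ) % 2 = 0 then (Sum.inl ⟨(k : ℕ) / 2, by omega⟩ : Fin (N + 1) ⊕ Fin (N + 1))
        else Sum.inr ⟨(k : ℕ) / 2, by omega⟩) =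
        (if (l : ℕ) % 2 = 0 then Sum.inl ⟨(l : ℕ) / 2, by omega⟩ else Sum.inr ⟨(l : ℕ) / 2, by omega⟩) := hkl
    apply Fin.ext
    by_cases hk : (k : ℕ) % 2 = 0 <;> by_cases hl : (l : ℕ) % 2 = 0
    · rw [if_pos hk, if_pos hl] at e
      have := Fin.mk.inj (Sum.inl.inj e)
      omega
    · rw [if_pos hk, if_neg hl] at e
      exact absurd e (by simp)
    · rw [if_neg hk, if_pos hl] at e
      exact absurd e (by simp)
    · rw [if_neg hk, if_neg hl] at e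
      have := Fin.mk.inj (Sum.inr.inj e)
      omega
  obtain ⟨hmaj, -⟩ := hJ N
  have hγmaj : IsMaj γ := by
    refine ⟨fun k => ?_, fun k => ?_, fun k l hkl => ?_⟩
    · rw [hemb]; exact hmaj.1 _
    · rw [hemb]; exact hmaj.2.1 _
    · rw [hemb, hemb]; exact hmaj.2.2 _ _ fun h => hkl (hinj h)
  have hgns := hG (Cf N) (2 * m) γ Ψ (2 * κ) hγmaj hΨ (by positivity) (by
    intro k
    have hk2 : (k : ℕ) / 2 < N + 1 := by omega
    have hkm : (k : ℕ) / 2 < m := by omega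
    by_cases hk : (k : ℕ) % 2 = 0
    · obtain ⟨w, hw1, hw2⟩ := hdual (Pi.single ⟨(k : ℕ) / 2, hk2⟩ 1) 0 (by
        intro i hi
        refine ⟨?_, rfl⟩
        rw [Pi.single_apply, if_neg]
        intro h
        rw [h] at hi
        simp only at hi
        omega)
      have hw3 : w ⬝ᵥ w ≤ κ ^ 2 := by
        refine hw2.trans ?_
        simp
      refine ⟨annih R w, 1, hann w, norm_one, ?_, ?_, ?_⟩
      · intro j hj
        rw [eq_neg_iff_add_eq_zero]
        by_cases hjj : (j : ℕ) % 2 = 0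
        · rw [hγ0 j hjj, annih_A hJ]
          have := (hw1 ⟨(j : ℕ) / 2, by omega⟩ (by show (j : ℕ) / 2 < m; omega)).1
          rw [this, Pi.single_apply, if_neg]
          · simp
          · intro h
            have h2 := Fin.mk.inj h
            have h3 : (j : ℕ) < (k : ℕ) := hj
            omega
        · rw [hγ1 j hjj, annih_B hJ]
          have := (hw1 ⟨(j : ℕ) / 2, by omega⟩ (by show (j : ℕ) / 2 < m; omega)).2
          rw [this]
          simp
      · rw [hγ0 k hk, annih_A hJ]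
        have := (hw1 ⟨(k : ℕ) / 2, by omega⟩ (by show (k : ℕ) / 2 < m; omega)).1
        rw [this, Pi.single_eq_same]
        simp
      · intro φ
        exact annih_norm hJ R hR w κ hκ0 hw3 φ
    · obtain ⟨w, hw1, hw2⟩ := hdual 0 (Pi.single ⟨(k : ℕ) / 2, hk2⟩ 1) (by
        intro i hi
        refine ⟨rfl, ?_⟩
        rw [Pi.single_apply, if_neg]
        intro h
        rw [h] at hi
        simp only at hi
        omega)
      have hw3 : w ⬝ᵥ w ≤ κ ^ 2 := by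
        refine hw2.trans ?_
        simp
      refine ⟨annih R w, Complex.I, hann w, Complex.norm_I, ?_, ?_, ?_⟩
      · intro j hj
        rw [eq_neg_iff_add_eq_zero]
        by_cases hjj : (j : ℕ) % 2 = 0
        · rw [hγ0 j hjj, annih_A hJ]
          have := (hw1 ⟨(j : ℕ) / 2, by omega⟩ (by show (j : ℕ) / 2 < m; omega)).1
          rw [this]
          simp
        · rw [hγ1 j hjj, annih_B hJ]
          have := (hw1 ⟨(j : ℕ) / 2, by omega⟩ (by show (j : ℕ) / 2 < m; omega)).2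
          rw [this, Pi.single_apply, if_neg]
          · simp
          · intro h
            have h2 := Fin.mk.inj h
            have h3 : (j : ℕ) < (k : ℕ) := hj
            omega
      · rw [hγ1 k hk, annih_B hJ]
        have := (hw1 ⟨(k : ℕ) / 2, by omega⟩ (by show (k : ℕ) / 2 < m; omega)).2
        rw [this, Pi.single_eq_same]
        congr 1
        push_cast
        ring
      · intro φ
        exact annih_norm hJ R hR w κ hκ0 hw3 φ)
  have e : (1 + 2 * (2 * κ)) ^ (2 * (2 * m)) = (1 + 4 * κ) ^ (4 * m) := by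
    rw [show 2 * (2 * κ) = 4 * κ by ring, show 2 * (2 * m) = 4 * m by ring]
  rw [e] at hgns
  exact hB N m γ Ψ ((1 + 4 * κ) ^ (4 * m)) (by omega) (by
    intro j
    constructor
    · rw [hγ0 _ (by show (2 * (j : ℕ)) % 2 = 0; omega)]
      congr 1
      apply Fin.ext
      show (2 * (j : ℕ)) / 2 = j
      omega
    · rw [hγ1 _ (by show ¬ (2 * (j : ℕ) + 1) % 2 = 0; omega)]
      congr 1
      apply Fin.ext
      show (2 * (j : ℕ) + 1) / 2 = j
      omega) (by positivity) hgns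

end Pool.Agent.Q234.PL.Rw
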