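import Pool.Agent.Q234.PL.Fin

/-!
# The final theorems from the statements of the project
-/

set_option autoImplicit false

open scoped BigOperators Matrix
open Finset Pool.Agent.TH235.PP

namespace Pool.Agent.Q234.PL.FT

open Pool.Agent.Q234.PL.Rg Pool.Agent.Q234.PL.Fin'

/-- the lower bound for the distance on the torus -/
theorem torus_bound (hRow : Row) (hTB : TorusBlock) (hPK : PepsKernel) (hD : Dist) {lam : ℝ}
    (h0 : 0 < lam) (h1 : lam < 1) {N m C : ℕ} (hC : 2 ≤ C) (hm : 1 ≤ m) (hCm : C * m ≤ N + 1)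
    (hs : 6 * m * lam ^ (N + 1 - 2 * m) ≤ hh m lam * (1 - lam))
    (hb : 4 ^ m * (1 + 4 * kap m lam) ^ (4 * m) ≤ Real.exp (2 * C * m ^ 2))
    {R : Matrix (Fin (N + 1)) (Fin (N + 1)) ℝ} {Ψ : Cf N → ℂ} (hR : RootOf N (-1) lam R)
    (hΨ : normSq Ψ = 1) (ha : ∀ w, annih R w *ᵥ Ψ = 0) (D : ℕ)
    (φ : (Site (N + 1) → Fin 2) → ℂ) (hφ : IsPEPS D φ) (hDm : D ^ (4 * m) < 2 ^ (m * m)) :
    Real.exp (-(2 * C * (m : ℝ) ^ 3)) ≤ normSq (φ - rowProd Ψ) := by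
  have h2m : 2 * m ≤ N + 1 := (Nat.mul_le_mul_right m hC).trans hCm
  have hκ : 0 ≤ kap m lam := by
    unfold kap hh
    have : 0 < 1 - lam := by linarith
    positivity
  set G := (1 + 4 * kap m lam) ^ (4 * m) with hG
  have hG0 : 0 < G := by rw [hG]; positivity
  have hrow := hRow N m lam R Ψ h0 h1 hm h2m hs hR hΨ ha
  set g := (2 ^ m * G)⁻¹ with hg
  have hg0 : 0 < g := by rw [hg]; positivity
  have hblk := hTB N m Ψ g (by omega) hg0.le hΨ (by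
    intro v
    rw [hg, inv_mul_le_iff₀ (by positivity)]
    exact hrow v)
  obtain ⟨v, hv0, hv⟩ := hPK (N + 1) m D φ (by omega) hDm hφ
  have h3 := hD.2 (N + 1) m φ (rowProd Ψ) (g ^ m) v (by omega) hv0 hv (hblk v)
  have h4 : (4 ^ m * G) ^ m = 2 ^ (m * m) * (2 ^ m * G) ^ m := by
    rw [mul_pow, mul_pow, show (4 : ℝ) = 2 * 2 by norm_num, mul_pow, mul_pow, ← pow_mul]
    ring
  have h5 : (4 ^ m * G) ^ m ≤ Real.exp (2 * C * (m : ℝ) ^ 3) := by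
    calc (4 ^ m * G) ^ m ≤ Real.exp (2 * C * m ^ 2) ^ m := pow_le_pow_left₀ (by positivity) hb m
      _ = Real.exp (2 * C * (m : ℝ) ^ 3) := by
        rw [← Real.exp_nat_mul]
        congr 1
        ring
  have h6 : 1 ≤ (4 ^ m * G) ^ m * normSq (φ - rowProd Ψ) := by
    rw [h4]
    have h7 : g ^ m * (2 ^ m * G) ^ m = 1 := by
      rw [← mul_pow, hg, inv_mul_cancel₀ (by positivity), one_pow]
    calc (1 : ℝ) = g ^ m * (2 ^ m * G) ^ m := h7.symm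
      _ ≤ (2 ^ (m * m) * normSq (φ - rowProd Ψ)) * (2 ^ m * G) ^ m :=
        mul_le_mul_of_nonneg_right h3 (by positivity)
      _ = _ := by ring
  have h8 : 1 ≤ Real.exp (2 * C * (m : ℝ) ^ 3) * normSq (φ - rowProd Ψ) :=
    h6.trans (mul_le_mul_of_nonneg_right h5 (normSq_nonneg _))
  rw [Real.exp_neg, inv_le_iff_one_le_mul₀ (Real.exp_pos _)]
  linarith [mul_comm (normSq (φ - rowProd Ψ)) (Real.exp (2 * C * (m : ℝ) ^ 3))]

/-- the lower bound for the distance on the ring -/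
theorem ring_bound (hRow : Row) (hMK : MpsKernel) (hD : Dist) {lam : ℝ}
    (h0 : 0 < lam) (h1 : lam < 1) {N m C : ℕ} (hC : 2 ≤ C) (hm : 1 ≤ m) (hCm : C * m ≤ N + 1)
    (hs : 6 * m * lam ^ (N + 1 - 2 * m) ≤ hh m lam * (1 - lam))
    (hb : 4 ^ m * (1 + 4 * kap m lam) ^ (4 * m) ≤ Real.exp (2 * C * m ^ 2))
    {R : Matrix (Fin (N + 1)) (Fin (N + 1)) ℝ} {Ψ : Cf N → ℂ} (hR : RootOf N (-1) lam R)
    (hΨ : normSq Ψ = 1) (ha : ∀ w, annih R w *ᵥ Ψ = 0) (D : ℕ)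
    (φ : Cf N → ℂ) (hφ : IsMPS D φ) (hDm : D ^ 2 < 2 ^ m) :
    Real.exp (-(2 * C * (m : ℝ) ^ 2)) ≤ normSq (φ - Ψ) := by
  have h2m : 2 * m ≤ N + 1 := (Nat.mul_le_mul_right m hC).trans hCm
  have hκ : 0 ≤ kap m lam := by
    unfold kap hh
    have : 0 < 1 - lam := by linarith
    positivity
  set G := (1 + 4 * kap m lam) ^ (4 * m) with hG
  have hG0 : 0 < G := by rw [hG]; positivity
  have hrow := hRow N m lam R Ψ h0 h1 hm h2m hs hR hΨ ha
  set g := (2 ^ m * G)⁻¹ with hg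
  have hg0 : 0 < g := by rw [hg]; positivity
  obtain ⟨v, hv0, hv⟩ := hMK N m D φ hm (by omega) hDm hφ
  have h3 := hD.1 N m φ Ψ g v (by omega) hv0 hv (by
    rw [hg, inv_mul_le_iff₀ (by positivity)]
    exact hrow v)
  have h4 : 4 ^ m * G = 2 ^ m * (2 ^ m * G) := by
    rw [show (4 : ℝ) = 2 * 2 by norm_num, mul_pow]
    ring
  have h6 : 1 ≤ (4 ^ m * G) * normSq (φ - Ψ) := by
    rw [h4]
    have h7 : g * (2 ^ m * G) = 1 := by
      rw [hg, inv_mul_cancel₀ (by positivity)]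
    calc (1 : ℝ) = g * (2 ^ m * G) := h7.symm
      _ ≤ (2 ^ m * normSq (φ - Ψ)) * (2 ^ m * G) :=
        mul_le_mul_of_nonneg_right h3 (by positivity)
      _ = _ := by ring
  have h8 : 1 ≤ Real.exp (2 * C * (m : ℝ) ^ 2) * normSq (φ - Ψ) :=
    h6.trans (mul_le_mul_of_nonneg_right hb (normSq_nonneg _))
  rw [Real.exp_neg, inv_le_iff_one_le_mul₀ (Real.exp_pos _)]
  linarith [mul_comm (normSq (φ - Ψ)) (Real.exp (2 * C * (m : ℝ) ^ 2))]

/-- from the distance to a contradiction -/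
theorem contra {x T b : ℝ} (hT : 0 < T) (hx : 0 ≤ x) (h1 : Real.sqrt x ≤ Real.exp (-T))
    (h2 : Real.exp (-b) ≤ x) (h3 : b ≤ T) : False := by
  have h4 : x ≤ Real.exp (-T) ^ 2 := by
    calc x = Real.sqrt x ^ 2 := (Real.sq_sqrt hx).symm
      _ ≤ Real.exp (-T) ^ 2 := pow_le_pow_left₀ (Real.sqrt_nonneg _) h1 2
  rw [← Real.exp_nat_mul] at h4
  have h5 := Real.exp_le_exp.1 (h2.trans h4)
  push_cast at h5
  linarith

theorem pow_cases {D m : ℕ} (hm : 1 ≤ m) (h : ¬ D ^ (4 * m) < 2 ^ (m * m)) : 2 ^ m ≤ D ^ 4 := by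
  push Not at h
  rw [pow_mul, pow_mul] at h
  exact le_of_pow_le_pow_left₀ (by omega) (by positivity) h

/-- FinalTorus -/
theorem torus (hRing : Ring) (hRow : Row) (hTB : TorusBlock) (hTH : TorusHam) (hPK : PepsKernel)
    (hD : Dist) (hNum : Num) : FinalTorus := by
  intro lam h0 h1
  obtain ⟨C, hC, hC2⟩ := hNum lam h0 h1
  have hex : ∀ N : ℕ, ∃ Ψ : Cf N → ℂ, 1 ≤ N → ∃ R E, RootOf N (-1) lam R ∧
      IsGround (ringH lam N) E (2 * (1 - lam)) Ψ ∧ ∀ w, annih R w *ᵥ Ψ = 0 := by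
    intro N
    by_cases hN : 1 ≤ N
    · obtain ⟨R, E, Ψ, h⟩ := hRing N lam hN h0.le h1
      exact ⟨Ψ, fun _ => ⟨R, E, h⟩⟩
    · exact ⟨fun _ => 0, fun h => absurd h hN⟩
  choose ψ hψ using hex
  let Ψ : ∀ L : ℕ, (Site L → Fin 2) → ℂ := fun L =>
    match L with
    | 0 => fun _ => 0
    | N + 1 => rowProd (ψ N)
  refine ⟨Ψ, ?_, ?_⟩
  · intro L _ hL
    obtain ⟨N, rfl⟩ : ∃ N, L = N + 1 := ⟨L - 1, by omega⟩
    obtain ⟨R, E, hR, hg, ha⟩ := hψ N (by omega)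
    obtain ⟨h2, h3⟩ := hTH N lam E (2 * (1 - lam)) (ψ N) (by omega) (by linarith) hg
    refine ⟨h3, ?_⟩
    convert h2
  · obtain ⟨a, ha0, ha⟩ := numer 3 C (by norm_num) hC
    have hC0 : (0 : ℝ) < C := by
      have : 0 < C := by omega
      exact_mod_cast this
    refine ⟨a, 2 * C, ha0, by positivity, ?_⟩
    intro L _ hL T hT1 hT2 D φ hφ hdist
    obtain ⟨m, hm1, hm2, hm3, hm4⟩ := ha L T hT1 hT2
    by_cases hDm : D ^ (4 * m) < 2 ^ (m * m)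
    · exfalso
      obtain ⟨N, rfl⟩ : ∃ N, L = N + 1 := ⟨L - 1, by omega⟩
      obtain ⟨R, E, hR, hg, han⟩ := hψ N (by omega)
      have hφ' : IsPEPS D φ := by convert hφ
      have h5 := torus_bound hRow hTB hPK hD h0 h1 hC hm1 hm2 ((hC2 m hm1).1 N hm2) (hC2 m hm1).2
        hR hg.1 han D φ hφ' hDm
      have hT0 : 0 < T := by linarith
      exact contra hT0 (normSq_nonneg _) hdist h5 hm3
    · have h6 := hm4 D (pow_cases hm1 hDm)
      have e : ((1 : ℝ) / ((3 : ℕ) : ℝ)) = 1 / 3 := by norm_num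
      rw [e] at h6
      exact h6

/-- FinalRing -/
theorem ring (hRing : Ring) (hRow : Row) (hMK : MpsKernel) (hD : Dist) (hNum : Num)
    (hH : ∀ (lam : ℝ) (N : ℕ), (ringH lam N).IsHermitian) : FinalRing := by
  intro lam h0 h1
  obtain ⟨C, hC, hC2⟩ := hNum lam h0 h1
  have hex : ∀ N : ℕ, ∃ Ψ : Cf N → ℂ, 1 ≤ N → ∃ R E, RootOf N (-1) lam R ∧
      IsGround (ringH lam N) E (2 * (1 - lam)) Ψ ∧ ∀ w, annih R w *ᵥ Ψ = 0 := by
    intro N
    by_cases hN : 1 ≤ N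
    · obtain ⟨R, E, Ψ, h⟩ := hRing N lam hN h0.le h1
      exact ⟨Ψ, fun _ => ⟨R, E, h⟩⟩
    · exact ⟨fun _ => 0, fun h => absurd h hN⟩
  choose ψ hψ using hex
  refine ⟨ψ, ?_, ?_⟩
  · intro N hN
    obtain ⟨R, E, hR, hg, ha⟩ := hψ N hN
    exact ⟨hg.1, gapped_of_ground _ (hH lam N) E _ (by linarith) _ hg⟩
  · obtain ⟨a, ha0, ha⟩ := numer 2 C (by norm_num) hC
    have hC0 : (0 : ℝ) < C := by
      have : 0 < C := by omega
      exact_mod_cast this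
    refine ⟨a, 2 * C, ha0, by positivity, ?_⟩
    intro N hN T hT1 hT2 D φ hφ hdist
    obtain ⟨m, hm1, hm2, hm3, hm4⟩ := ha (N + 1) T hT1 (by push_cast; exact hT2)
    by_cases hDm : D ^ 2 < 2 ^ m
    · exfalso
      obtain ⟨R, E, hR, hg, han⟩ := hψ N hN
      have h5 := ring_bound hRow hMK hD h0 h1 hC hm1 hm2 ((hC2 m hm1).1 N hm2) (hC2 m hm1).2
        hR hg.1 han D φ hφ hDm
      have hT0 : 0 < T := by linarith
      exact contra hT0 (normSq_nonneg _) hdist h5 hm3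
    · push Not at hDm
      have h7 : 1 ≤ D ^ 2 := (Nat.one_le_two_pow).trans hDm
      have h6 := hm4 D (hDm.trans (by
        calc D ^ 2 = D ^ 2 * 1 := (mul_one _).symm
          _ ≤ D ^ 2 * D ^ 2 := Nat.mul_le_mul_left _ h7
          _ = D ^ 4 := by ring))
      have e : ((1 : ℝ) / ((2 : ℕ) : ℝ)) = 1 / 2 := by norm_num
      rw [e] at h6
      exact h6

end Pool.Agent.Q234.PL.FT
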