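import Pool.Agent.Q234.PL.Stm

/-!
# The ground state of the ring
-/

set_option autoImplicit false

open scoped BigOperators Matrix
open Finset Pool.Agent.TH235.PP

namespace Pool.Agent.Q234.PL.Rg

section gen

variable {n : Type} [Fintype n]

theorem ip_add_right (x y z : n → ℂ) : ip x (y + z) = ip x y + ip x z := by
  unfold ip
  rw [← Finset.sum_add_distrib]
  exact Finset.sum_congr rfl fun s _ => by simp only [Pi.add_apply]; ring

theorem ip_add_left (x y z : n → ℂ) : ip (x + y) z = ip x z + ip y z := by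
  unfold ip
  rw [← Finset.sum_add_distrib]
  exact Finset.sum_congr rfl fun s _ => by simp only [Pi.add_apply, map_add]; ring

theorem ip_smul_right (x y : n → ℂ) (c : ℂ) : ip x (c • y) = c * ip x y := by
  unfold ip
  rw [Finset.mul_sum]
  exact Finset.sum_congr rfl fun s _ => by simp only [Pi.smul_apply, smul_eq_mul]; ring

theorem ip_smul_left (x y : n → ℂ) (c : ℂ) : ip (c • x) y = (starRingEnd ℂ) c * ip x y := by
  unfold ip
  rw [Finset.mul_sum]
  exact Finset.sum_congr rfl fun s _ => by simp only [Pi.smul_apply, smul_eq_mul, map_mul]; ring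

theorem ip_self (x : n → ℂ) : ip x x = (normSq x : ℂ) := by
  unfold ip normSq
  push_cast
  exact Finset.sum_congr rfl fun s _ => by rw [← Complex.normSq_eq_conj_mul_self, Complex.normSq_eq_norm_sq]; push_cast; rfl

theorem ip_conj (x y : n → ℂ) : (starRingEnd ℂ) (ip x y) = ip y x := by
  unfold ip
  rw [map_sum]
  exact Finset.sum_congr rfl fun s _ => by rw [map_mul, Complex.conj_conj]; ring

theorem ip_mulVec (A : Matrix n n ℂ) (x y : n → ℂ) : ip (A *ᵥ x) y = ip x (Aᴴ *ᵥ y) := by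
  unfold ip Matrix.mulVec dotProduct
  simp only [map_sum, map_mul, Finset.sum_mul, Finset.mul_sum, Matrix.conjTranspose_apply]
  rw [Finset.sum_comm]
  refine Finset.sum_congr rfl fun s _ => Finset.sum_congr rfl fun t _ => ?_
  simp only [RCLike.star_def]
  ring

theorem normSq_nonneg (x : n → ℂ) : 0 ≤ normSq x := by
  unfold normSq
  exact Finset.sum_nonneg fun s _ => by positivity

theorem normSq_add_of_ip (x y : n → ℂ) (h : ip x y = 0) : normSq (x + y) = normSq x + normSq y := by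
  have h2 : ip y x = 0 := by rw [← ip_conj, h, map_zero]
  have e : (normSq (x + y) : ℂ) = (normSq x : ℂ) + (normSq y : ℂ) := by
    rw [← ip_self, ip_add_left, ip_add_right, ip_add_right, h, h2, ip_self, ip_self]
    ring
  exact_mod_cast e

end gen

variable {N : ℕ}

/-- the parity commutes with the quadratic forms -/
theorem po_qf (hJ : JW) (M : Matrix (Fin (N + 1)) (Fin (N + 1)) ℝ) : Po * qf M = qf M * Po := by
  obtain ⟨-, -, -, hA, hB⟩ := hJ N
  unfold qf qfo
  rw [Finset.mul_sum, Finset.sum_mul]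
  refine Finset.sum_congr rfl fun j _ => ?_
  rw [Finset.mul_sum, Finset.sum_mul]
  refine Finset.sum_congr rfl fun l _ => ?_
  rw [mul_smul_comm, smul_mul_assoc]
  congr 1
  rw [← mul_assoc, hA j, neg_mul, mul_assoc, hB l, mul_neg, neg_neg, mul_assoc]

/-- Ring -/
theorem main (hJ : JW) (hI : RingId) (hE : ExVac) (hP : Parity) (hC : Compare) : Ring := by
  intro N lam hN h0 h1
  obtain ⟨R, E, Ψ, hR, hg, ha⟩ := hE N (-1) lam (Or.inr rfl) h0 h1
  obtain ⟨R', E', Ψ', hR', hg', -⟩ := hE N 1 lam (Or.inl rfl) h0 h1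
  have p1 : Po *ᵥ Ψ = Ψ := hP N (-1) lam E Ψ (Or.inr rfl) h0 h1 hg
  have p2 : Po *ᵥ Ψ' = Ψ' := hP N 1 lam E' Ψ' (Or.inl rfl) h0 h1 hg'
  have hEE : E ≤ E' := hC N lam E' E Ψ' Ψ hN h0 h1 hg' p2 hg
  obtain ⟨-, hPh, hPP, -, -⟩ := hJ N
  set q1 := qf (1 - lam • shiftM N (-1)) with hq1
  set q2 := qf (1 - lam • shiftM N 1) with hq2
  have c1 : Po * q1 = q1 * Po := po_qf hJ _
  have c2 : Po * q2 = q2 * Po := po_qf hJ _
  have hH : ringH lam N = (1 / 2 : ℂ) • (q1 * (1 + Po)) + (1 / 2 : ℂ) • (q2 * (1 - Po)) := hI N lam hN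
  have hsplit : ∀ φ : Cf N → ℂ, ringH lam N *ᵥ φ =
      q1 *ᵥ ((1 / 2 : ℂ) • (φ + Po *ᵥ φ)) + q2 *ᵥ ((1 / 2 : ℂ) • (φ - Po *ᵥ φ)) := by
    intro φ
    rw [hH, Matrix.add_mulVec, Matrix.smul_mulVec, Matrix.smul_mulVec, ← Matrix.mulVec_mulVec,
      ← Matrix.mulVec_mulVec, Matrix.add_mulVec, Matrix.sub_mulVec, Matrix.one_mulVec,
      Matrix.mulVec_smul, Matrix.mulVec_smul]
  have hPv : ∀ φ : Cf N → ℂ, Po *ᵥ (Po *ᵥ φ) = φ := by
    intro φ
    rw [Matrix.mulVec_mulVec, hPP, Matrix.one_mulVec]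
  have hPip : ∀ x y : Cf N → ℂ, ip (Po *ᵥ x) y = ip x (Po *ᵥ y) := by
    intro x y
    rw [ip_mulVec, hPh.eq]
  refine ⟨R, E, Ψ, hR, ⟨hg.1, ?_, ?_⟩, ha⟩
  · rw [hsplit, p1, sub_self, smul_zero, Matrix.mulVec_zero, add_zero]
    have : (1 / 2 : ℂ) • (Ψ + Ψ) = Ψ := by
      rw [← two_smul ℂ Ψ, smul_smul]
      norm_num
    rw [this]
    exact hg.2.1
  · intro φ
    set u := (1 / 2 : ℂ) • (φ + Po *ᵥ φ) with hu
    set w := (1 / 2 : ℂ) • (φ - Po *ᵥ φ) with hw
    have hPu : Po *ᵥ u = u := by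
      rw [hu, Matrix.mulVec_smul, Matrix.mulVec_add, hPv, add_comm]
    have hPw : Po *ᵥ w = -w := by
      rw [hw, Matrix.mulVec_smul, Matrix.mulVec_sub, hPv, ← smul_neg, neg_sub]
    have huw : u + w = φ := by
      rw [hu, hw, ← smul_add]
      have : φ + Po *ᵥ φ + (φ - Po *ᵥ φ) = (2 : ℂ) • φ := by
        rw [two_smul]; abel
      rw [this, smul_smul]
      norm_num
    -- even and odd vectors are orthogonal
    have horth : ∀ x y : Cf N → ℂ, Po *ᵥ x = x → Po *ᵥ y = -y → ip x y = 0 := by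
      intro x y hx hy
      have e1 : ip x y = -ip x y := by
        calc ip x y = ip (Po *ᵥ x) y := by rw [hx]
          _ = ip x (Po *ᵥ y) := hPip _ _
          _ = -ip x y := by
            rw [hy, show -y = (-1 : ℂ) • y by simp, ip_smul_right]; ring
      have e2 : (2 : ℂ) * ip x y = 0 := by linear_combination e1
      exact (mul_eq_zero.1 e2).resolve_left two_ne_zero
    have hq1u : Po *ᵥ (q1 *ᵥ u) = q1 *ᵥ u := by
      rw [Matrix.mulVec_mulVec, c1, ← Matrix.mulVec_mulVec, hPu]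
    have hq2w : Po *ᵥ (q2 *ᵥ w) = -(q2 *ᵥ w) := by
      rw [Matrix.mulVec_mulVec, c2, ← Matrix.mulVec_mulVec, hPw, Matrix.mulVec_neg]
    have hnorm : normSq φ = normSq u + normSq w := by
      rw [← huw]
      exact normSq_add_of_ip _ _ (horth u w hPu hPw)
    have hwu : ∀ x y : Cf N → ℂ, Po *ᵥ x = -x → Po *ᵥ y = y → ip x y = 0 := by
      intro x y hx hy
      rw [← ip_conj, horth y x hy hx, map_zero]
    have hquad : ip φ (ringH lam N *ᵥ φ) = ip u (q1 *ᵥ u) + ip w (q2 *ᵥ w) := by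
      rw [hsplit φ, ← hu, ← hw, ip_add_right]
      have e1 : ip φ (q1 *ᵥ u) = ip u (q1 *ᵥ u) := by
        calc ip φ (q1 *ᵥ u) = ip (u + w) (q1 *ᵥ u) := by rw [huw]
          _ = ip u (q1 *ᵥ u) := by rw [ip_add_left, hwu w _ hPw hq1u, add_zero]
      have e2 : ip φ (q2 *ᵥ w) = ip w (q2 *ᵥ w) := by
        calc ip φ (q2 *ᵥ w) = ip (u + w) (q2 *ᵥ w) := by rw [huw]
          _ = ip w (q2 *ᵥ w) := by rw [ip_add_left, horth u _ hPu hq2w, zero_add]
      rw [e1, e2]
    have hΨφ : ip Ψ φ = ip Ψ u := by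
      rw [← huw, ip_add_right, horth Ψ w p1 hPw, add_zero]
    have i1 := hg.2.2 u
    have i2 := hg'.2.2 w
    have hΨ'w : ip Ψ' w = 0 := horth Ψ' w p2 hPw
    rw [hΨ'w, norm_zero] at i2
    rw [hquad, Complex.add_re, hnorm, hΨφ]
    have h3 : E * normSq w ≤ E' * normSq w := mul_le_mul_of_nonneg_right hEE (normSq_nonneg w)
    have h4 := normSq_nonneg w
    nlinarith only [i1, i2, h3]

end Pool.Agent.Q234.PL.Rg
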