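import Pool.Agent.Q234.PL.ExV
import Pool.Agent.Q234.PL.Rg
import Pool.Agent.Q234.PL.Rw
import Pool.Agent.Q234.PL.FT
import Pool.Agent.Q68.PL.JW
import Pool.Agent.Q68.PL.RI
import Pool.Agent.Q68.PL.CO
import Pool.Agent.Q298.PL.VA
import Pool.Agent.Q298.PL.RO
import Pool.Agent.Q298.PL.PA
import Pool.Agent.Q208.PL.Al
import Pool.Agent.Q208.PL.Du
import Pool.Agent.Q299.PL.HA
import Pool.Agent.Q299.PL.GN
import Pool.Agent.Q299.PL.BL
import Pool.Agent.Q63.PL.ST
import Pool.Agent.Q257.PL.MK
import Pool.Agent.Q224.PL.DI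
import Pool.Agent.Q224.PL.NU

/-!
# The ring: everything unconditional
-/

set_option autoImplicit false

open scoped BigOperators Matrix
open Finset Pool.Agent.TH235.PP

namespace Pool.Agent.Q234.PL.All

theorem exVac : ExVac :=
  Pool.Agent.Q234.PL.ExV.main Pool.Agent.Q68.PL.JWjob.main Pool.Agent.Q298.PL.VA.main
    (Pool.Agent.Q298.PL.RO.main Pool.Agent.Q208.PL.Al.main)

theorem ringStm : Ring :=
  Pool.Agent.Q234.PL.Rg.main Pool.Agent.Q68.PL.JWjob.main
    (Pool.Agent.Q68.PL.RIjob.main Pool.Agent.Q68.PL.JWjob.main) exVac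
    (Pool.Agent.Q298.PL.PA.main Pool.Agent.Q68.PL.JWjob.main exVac)
    (Pool.Agent.Q68.PL.COjob.main Pool.Agent.Q68.PL.JWjob.main
      (Pool.Agent.Q68.PL.RIjob.main Pool.Agent.Q68.PL.JWjob.main))

theorem rowStm : Row :=
  Pool.Agent.Q234.PL.Rw.main Pool.Agent.Q68.PL.JWjob.main
    (Pool.Agent.Q63.PL.ST.main Pool.Agent.Q299.PL.HA.main Pool.Agent.Q208.PL.Al.main)
    Pool.Agent.Q208.PL.Du.main Pool.Agent.Q299.PL.GN.main Pool.Agent.Q299.PL.BL.main

theorem zo_herm {N : ℕ} (j : Fin (N + 1)) : (Zo j : Matrix (Cf N) (Cf N) ℂ).IsHermitian := by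
  unfold Zo
  rw [Matrix.IsHermitian, Matrix.diagonal_conjTranspose]
  congr 1
  funext s
  simp only [Pi.star_apply]
  unfold sgn
  split_ifs <;> simp

theorem flip_flip' {ι : Type} [DecidableEq ι] (j : ι) (s : ι → Fin 2) : flip j (flip j s) = s := by
  funext i
  unfold flip
  by_cases h : i = j
  · subst h
    simp only [Function.update_self]
    have : ∀ a : Fin 2, a + 1 + 1 = a := by decide
    exact this _
  · simp [Function.update_of_ne h]

theorem flip_comm {ι : Type} [DecidableEq ι] (i j : ι) (s : ι → Fin 2) :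
    flip i (flip j s) = flip j (flip i s) := by
  by_cases h : i = j
  · subst h; rfl
  · funext k
    unfold flip
    by_cases h1 : k = i
    · subst h1
      simp [Function.update_self, Function.update_of_ne h]
    · by_cases h2 : k = j
      · subst h2
        simp [Function.update_self, Function.update_of_ne h1]
      · simp [Function.update_of_ne h1, Function.update_of_ne h2]

theorem xo_herm {N : ℕ} (j : Fin (N + 1)) : (Xo j : Matrix (Cf N) (Cf N) ℂ).IsHermitian := by
  ext s t
  rw [Matrix.conjTranspose_apply]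
  unfold Xo
  by_cases h : t = flip j s
  · rw [if_pos h, if_pos (by rw [h, flip_flip']), star_one]
  · rw [if_neg h, if_neg (fun h' => h (by rw [h', flip_flip'])), star_zero]

theorem xo_comm {N : ℕ} (i j : Fin (N + 1)) : (Xo i * Xo j : Matrix (Cf N) (Cf N) ℂ) = Xo j * Xo i := by
  ext s t
  rw [Matrix.mul_apply, Matrix.mul_apply]
  unfold Xo
  simp only [ite_mul, one_mul, zero_mul, Finset.sum_ite_eq', Finset.mem_univ, if_true]
  rw [flip_comm]

theorem ringH_herm (lam : ℝ) (N : ℕ) : (ringH lam N).IsHermitian := by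
  unfold ringH
  rw [Matrix.IsHermitian, Matrix.conjTranspose_sum]
  refine Finset.sum_congr rfl fun x _ => ?_
  rw [Matrix.conjTranspose_sub, Matrix.conjTranspose_neg, Matrix.conjTranspose_smul,
    Matrix.conjTranspose_mul, (zo_herm x).eq, (xo_herm x).eq, (xo_herm (x + 1)).eq, xo_comm]
  congr 2
  simp

theorem finalRing : FinalRing :=
  Pool.Agent.Q234.PL.FT.ring ringStm rowStm Pool.Agent.Q257.PL.MK.main Pool.Agent.Q224.PL.DI.main
    Pool.Agent.Q224.PL.NU.main ringH_herm

end Pool.Agent.Q234.PL.All
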