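import Pool.Agent.Q234.PL.Fin

/-!
# The torus with one site
-/

set_option autoImplicit false

open scoped BigOperators Matrix
open Finset Pool.Agent.TH235.PP

namespace Pool.Agent.Q234.PL.L1

open Pool.Agent.Q234.PL.Rg Pool.Agent.Q234.PL.Fin'

instance : Subsingleton (Site 1) := by
  unfold Site
  infer_instance

theorem ham_one (lam : ℝ) :
    ham (ising lam) 1 = Matrix.diagonal fun s => -(sgn (s ((0, 0) : Site 1))) := by
  classical
  ext s t
  unfold ham
  rw [Matrix.sum_apply]
  have h0 : ∀ u : Site 1, u = (0, 0) := fun u => Subsingleton.elim _ _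
  rw [Finset.sum_eq_single ((0, 0) : Site 1) (fun u _ hu => absurd (h0 u) hu)
    (fun hu => absurd (mem_univ _) hu)]
  unfold term
  rw [if_pos (fun v hv => absurd (Subsingleton.elim _ _) (hv (0, 0)))]
  have h1 : ∀ x : Fin 2 × Fin 2, sh ((0, 0) : Site 1) x = (0, 0) := fun x => h0 _
  unfold ising
  simp only [h1]
  have h2 : ¬ (t (0, 0) = s (0, 0) + 1 ∧ t (0, 0) = s (0, 0) + 1 ∧ t (0, 0) = s (0, 0) ∧
      t (0, 0) = s (0, 0)) := by
    rintro ⟨h, -, h', -⟩
    rw [h'] at h
    revert h
    generalize s (0, 0) = a
    revert a
    decide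
  rw [if_neg h2, sub_zero]
  by_cases hst : s = t
  · subst hst
    rw [if_pos rfl, Matrix.diagonal_apply_eq]
  · rw [Matrix.diagonal_apply_ne _ hst, if_neg]
    intro h3
    apply hst
    funext v
    rw [h0 v]
    exact congrFun h3 (0, 0)

theorem sgn_cases (a : Fin 2) : a = 0 ∨ (a = 1 ∧ sgn a = -1) := by
  have : ∀ a : Fin 2, a = 0 ∨ a = 1 := by decide
  rcases this a with h | h
  · exact Or.inl h
  · right
    refine ⟨h, ?_⟩
    unfold sgn
    rw [h]
    simp

/-- the ground state of the torus with one site -/
noncomputable def del : (Site 1 → Fin 2) → ℂ := fun s => if s (0, 0) = 0 then 1 else 0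

theorem card_del : normSq del = 1 := by
  classical
  unfold normSq
  rw [Finset.sum_eq_single (fun _ => 0 : Site 1 → Fin 2)]
  · simp [del]
  · intro s _ hs
    have : s (0, 0) ≠ 0 := by
      intro h
      apply hs
      funext v
      rw [Subsingleton.elim v (0, 0)]
      exact h
    simp [del, this]
  · intro h
    exact absurd (mem_univ _) h

theorem one (lam : ℝ) (h0 : 0 < lam) (h1 : lam < 1) :
    normSq del = 1 ∧ IsGappedGround (ham (ising lam) 1) (2 * (1 - lam)) del := by
  classical
  refine ⟨card_del, -1, ?_, ?_, ?_⟩
  · rw [ham_one]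
    funext s
    rw [Matrix.mulVec_diagonal]
    simp only [Pi.smul_apply, smul_eq_mul]
    rcases sgn_cases (s (0, 0)) with h | ⟨h, h'⟩
    · unfold sgn
      rw [if_pos h]
      push_cast
      ring
    · have : del s = 0 := by
        unfold del
        rw [if_neg]
        rw [h]
        decide
      rw [this]
      ring
  · intro φ hφ
    refine ⟨φ (fun _ => 0), ?_⟩
    funext s
    rw [ham_one] at hφ
    have h2 := congrFun hφ s
    rw [Matrix.mulVec_diagonal] at h2
    simp only [Pi.smul_apply, smul_eq_mul] at h2 ⊢
    rcases sgn_cases (s (0, 0)) with h | ⟨h, h'⟩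
    · have hs : s = fun _ => 0 := by
        funext v
        rw [Subsingleton.elim v (0, 0)]
        exact h
      unfold del
      rw [if_pos h, mul_one, hs]
    · rw [h'] at h2
      push_cast at h2
      have h3 : φ s = 0 := by
        have h4 : (2 : ℂ) * φ s = 0 := by linear_combination h2
        rcases mul_eq_zero.1 h4 with h5 | h5
        · norm_num at h5
        · exact h5
      have : del s = 0 := by
        unfold del
        rw [if_neg]
        rw [h]
        decide
      rw [h3, this, mul_zero]
  · intro E' φ hφ0 hφ
    by_cases hE : E' = -1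
    · exact Or.inl hE
    · right
      obtain ⟨s, hs⟩ : ∃ s, φ s ≠ 0 := by
        by_contra hall
        push Not at hall
        exact hφ0 (funext hall)
      rw [ham_one] at hφ
      have h2 := congrFun hφ s
      rw [Matrix.mulVec_diagonal] at h2
      simp only [Pi.smul_apply, smul_eq_mul] at h2
      have h3 := mul_right_cancel₀ hs h2
      rcases sgn_cases (s (0, 0)) with h | ⟨h, h'⟩
      · exfalso
        apply hE
        unfold sgn at h3
        rw [if_pos h] at h3
        have : ((-1 : ℝ) : ℂ) = (E' : ℂ) := by
          rw [← h3]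
          push_cast
          ring
        exact_mod_cast this.symm
      · rw [h'] at h3
        have h4 : (E' : ℂ) = ((1 : ℝ) : ℂ) := by
          rw [← h3]
          push_cast
          ring
        have h5 : E' = 1 := by exact_mod_cast h4
        rw [h5]
        linarith

end Pool.Agent.Q234.PL.L1
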