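import Pool.Agent.Q234.PL.FO

/-!
# The local theorem from the statements
-/

set_option autoImplicit false

open scoped BigOperators Matrix
open Finset Pool.Agent.TH235.PP

namespace Pool.Agent.Q234.PL.FL

open Pool.Agent.Q234.PL.Rg

/-- translation invariant PEPS of the other library are PEPS -/
theorem isPEPS_of {D L : ℕ} [NeZero L] (A : Pool.Agent.H4R2.Tensor 2 D) :
    IsPEPS D (Pool.Agent.H4R2.contract A L) := by
  refine ⟨fun _ i l r d u => A i l r u d, ?_⟩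
  rfl

/-- the local theorem -/
theorem main (hRing : Ring) (hRow : Row) (hTO : TorusOverlap) (hTH : TorusHam)
    (hTB : TorusBlock) (hPK : PepsKernel) (hPA : PepsKernelAt) (hD : Dist) (hNum : Num)
    (hLB : LocalBound) (hHE : HamEq) (lam : ℝ) (h0 : 0 < lam) (h1 : lam < 1) :
    ∃ Ψ : ∀ L : ℕ, (Site L → Fin 2) → ℂ,
    (∀ (L : ℕ) [NeZero L], 2 ≤ L → normSq (Ψ L) = 1 ∧
      IsGappedGround (Pool.Agent.H4R2.ham pair (isingPair lam) L) (2 * (1 - lam)) (Ψ L)) ∧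
    ∀ δ : ℝ, 0 < δ → ∃ a : ℝ, 0 < a ∧ ∃ n₀ : ℕ, ∀ n : ℕ, n₀ ≤ n →
      ∀ (L : ℕ) [NeZero L], n < L → ∀ (D : ℕ) (φ : (Site L → Fin 2) → ℂ), IsPEPS D φ → φ ≠ 0 →
        (D : ℝ) < Real.exp (a * Real.log n ^ (1 / 3 : ℝ)) →
        2 * (1 - Real.exp (-(n : ℝ) ^ (1 - δ))) ≤ Pool.Agent.H4R2.traceNorm
          (Pool.Agent.H4R2.redState (box n) (Ψ L) - Pool.Agent.H4R2.redState (box n) φ) := by
  obtain ⟨Ψ, hg, -, -, hloc⟩ := Pool.Agent.Q234.PL.FO.overlap hRing hRow hTO hTH hTB hPK hPA hD hNum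
    lam h0 h1
  refine ⟨Ψ, ?_, ?_⟩
  · intro L _ hL
    obtain ⟨h2, h3⟩ := hg L hL
    rw [hHE L lam hL]
    exact ⟨h2, h3⟩
  · intro δ hδ
    obtain ⟨a, ha0, n₀, hn₀, ha⟩ := hloc δ hδ
    refine ⟨a, ha0, n₀, fun n hn L _ hnL D φ hφ hφ0 hDD => ?_⟩
    obtain ⟨m, G, hmn, hGn, hmL, hm3, hm4⟩ := ha n hn L hnL
    have hDm := hm3 D hDD
    have hker : ∀ b : Fin G, ∃ v : (Fin m × Fin m → Fin 2) → ℂ, v ≠ 0 ∧
        ∀ t, ∑ p, v p * φ (tpasteAt (b * m) p t) = 0 := by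
      intro b
      refine hPA L m D (b * m) φ hmL ?_ hDm hφ
      have h6 : ((b : ℕ) + 1) * m ≤ G * m := Nat.mul_le_mul_right m b.2
      rw [add_mul, one_mul] at h6
      omega
    choose v hv0 hv using hker
    have h5 := hLB L n m G (Ψ L) φ (Real.exp (-(2 * (n : ℝ) ^ (1 - δ)))) v hnL.le hmn hGn
      (Real.exp_pos _).le (hg L (by omega)).1 hφ0 hv (fun θ hθ => hm4 θ v hv0 hθ)
    refine le_trans ?_ h5
    have h6 : Real.exp (-(2 * (n : ℝ) ^ (1 - δ))) ≤ Real.exp (-(n : ℝ) ^ (1 - δ)) := by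
      apply Real.exp_le_exp.2
      have : 0 ≤ (n : ℝ) ^ (1 - δ) := by positivity
      linarith
    linarith

end Pool.Agent.Q234.PL.FL
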