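import Pool.Agent.Q234.PL.FO
import Pool.Agent.Q234.PL.L1

/-!
# The final theorems, in the form of the hand-ins
-/

set_option autoImplicit false

open scoped BigOperators Matrix
open Finset Pool.Agent.TH235.PP

namespace Pool.Agent.Q234.PL.FU

open Pool.Agent.Q234.PL.Rg Pool.Agent.Q234.PL.Fin' Pool.Agent.Q234.PL.FT Pool.Agent.Q234.PL.FO

/-- what is known about the ground states `Ψ L` -/
def Core (lam : ℝ) (C : ℕ) (Ψ : ∀ L : ℕ, (Site L → Fin 2) → ℂ) : Prop :=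
  (∀ (L : ℕ) [NeZero L], normSq (Ψ L) = 1 ∧
    IsGappedGround (ham (ising lam) L) (2 * (1 - lam)) (Ψ L)) ∧
  ∀ (L : ℕ) [NeZero L] (m G : ℕ), 1 ≤ m → C * m ≤ L → G * m ≤ L →
    ∀ (θ : (Site L → Fin 2) → ℂ) (v : Fin G → (Fin m × Fin m → Fin 2) → ℂ), (∀ b, v b ≠ 0) →
      (∀ (b : Fin G) (t : Site L → Fin 2), ∑ p, v b p * θ (tpasteAt (b * m) p t) = 0) →
      ‖ip θ (Ψ L)‖ ^ 2 ≤ Real.exp (-(Real.exp (-(2 * C * (m : ℝ) ^ 3)) * G)) * normSq θ

theorem core (hRing : Ring) (hRow : Row) (hTO : TorusOverlap) (hTH : TorusHam) (hNum : Num)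
    (lam : ℝ) (h0 : 0 < lam) (h1 : lam < 1) :
    ∃ (C : ℕ) (Ψ : ∀ L : ℕ, (Site L → Fin 2) → ℂ), 2 ≤ C ∧ Core lam C Ψ := by
  obtain ⟨C, hC, hC2⟩ := hNum lam h0 h1
  have hex : ∀ N : ℕ, ∃ Ψ : Cf N → ℂ, 1 ≤ N → ∃ R E, RootOf N (-1) lam R ∧
      IsGround (ringH lam N) E (2 * (1 - lam)) Ψ ∧ ∀ w, annih R w *ᵥ Ψ = 0 := by
    intro N
    by_cases hN : 1 ≤ N
    · obtain ⟨R, E, Ψ, h⟩ := hRing N lam hN h0.le h1
      exact ⟨Ψ, fun _ => ⟨R, E, h⟩⟩
    · exact ⟨fun _ => 0, fun h => absurd h hN⟩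
  choose ψ hψ using hex
  let Ψ : ∀ L : ℕ, (Site L → Fin 2) → ℂ := fun L =>
    match L with
    | 0 => fun _ => 0
    | 1 => L1.del
    | N + 2 => rowProd (ψ (N + 1))
  refine ⟨C, Ψ, hC, ?_, ?_⟩
  · intro L _
    rcases Nat.lt_or_ge L 2 with hL | hL
    · have hL1 : L = 1 := by
        have := NeZero.ne L
        omega
      subst hL1
      obtain ⟨h2, h3⟩ := L1.one lam h0 h1
      refine ⟨h2, ?_⟩
      convert h3
    · obtain ⟨N, rfl⟩ : ∃ N, L = N + 2 := ⟨L - 2, by omega⟩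
      obtain ⟨R, E, hR, hg, ha⟩ := hψ (N + 1) (by omega)
      obtain ⟨h2, h3⟩ := hTH (N + 1) lam E (2 * (1 - lam)) (ψ (N + 1)) (by omega) (by linarith) hg
      refine ⟨h3, ?_⟩
      convert h2
  · intro L _ m G hm hCm hGm θ v hv hθ
    have hL2 : 2 ≤ L := by
      have : 2 * 1 ≤ C * m := Nat.mul_le_mul hC hm
      omega
    obtain ⟨N, rfl⟩ : ∃ N, L = N + 2 := ⟨L - 2, by omega⟩
    obtain ⟨R, E, hR, hg, han⟩ := hψ (N + 1) (by omega)
    exact overlap_le hRow hTO h0 h1 hC hm hCm hGm ((hC2 m hm).1 (N + 1) hCm) (hC2 m hm).2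
      hR hg.1 han θ v hv hθ

/-- kernel vectors for all the blocks -/
theorem kernels (hPA : PepsKernelAt) {L m G D : ℕ} [NeZero L] (hm : m < L) (hGm : G * m ≤ L)
    (hDm : D ^ (4 * m) < 2 ^ (m * m)) (φ : (Site L → Fin 2) → ℂ) (hφ : IsPEPS D φ) :
    ∃ v : Fin G → (Fin m × Fin m → Fin 2) → ℂ, (∀ b, v b ≠ 0) ∧
      ∀ (b : Fin G) (t : Site L → Fin 2), ∑ p, v b p * φ (tpasteAt (b * m) p t) = 0 := by
  have hker : ∀ b : Fin G, ∃ v : (Fin m × Fin m → Fin 2) → ℂ, v ≠ 0 ∧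
      ∀ t, ∑ p, v p * φ (tpasteAt (b * m) p t) = 0 := by
    intro b
    refine hPA L m D (b * m) φ hm ?_ hDm hφ
    have h6 : ((b : ℕ) + 1) * m ≤ G * m := Nat.mul_le_mul_right m b.2
    rw [add_mul, one_mul] at h6
    omega
  choose v hv0 hv using hker
  exact ⟨v, hv0, hv⟩

/-- overlaps -/
theorem overlap {lam : ℝ} {C : ℕ} {Ψ : ∀ L : ℕ, (Site L → Fin 2) → ℂ} (hC : 2 ≤ C)
    (hK : Core lam C Ψ) (hPA : PepsKernelAt) (δ : ℝ) (hδ : 0 < δ) :
    ∃ a : ℝ, 0 < a ∧ ∃ L₀ : ℕ, ∀ (L : ℕ) [NeZero L], L₀ ≤ L →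
      ∀ (D : ℕ) (φ : (Site L → Fin 2) → ℂ), IsPEPS D φ →
        (D : ℝ) < Real.exp (a * Real.log L ^ (1 / 3 : ℝ)) →
        ‖ip φ (Ψ L)‖ ≤ Real.exp (-(L : ℝ) ^ (1 - δ)) * Real.sqrt (normSq φ) := by
  obtain ⟨a, ha0, n₀, hn₀, ha⟩ := Nu2.numer C hC δ hδ
  refine ⟨a, ha0, n₀, fun L _ hL D φ hφ hD' => ?_⟩
  obtain ⟨m, hm1, hm2, hm3, hm4⟩ := ha L hL
  have h2m : 2 * m ≤ L := (Nat.mul_le_mul_right m hC).trans hm2
  have hG : L / m * m ≤ L := Nat.div_mul_le_self L m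
  obtain ⟨v, hv0, hv⟩ := kernels hPA (by omega) hG (hm3 D hD') φ hφ
  have h7 := hK.2 L m (L / m) hm1 hm2 hG φ v hv0 hv
  have h8 : ‖ip φ (Ψ L)‖ ^ 2 ≤ (Real.exp (-(L : ℝ) ^ (1 - δ)) * Real.sqrt (normSq φ)) ^ 2 := by
    rw [mul_pow, Real.sq_sqrt (normSq_nonneg _), ← Real.exp_nat_mul]
    refine h7.trans (mul_le_mul_of_nonneg_right (Real.exp_le_exp.2 ?_) (normSq_nonneg _))
    push_cast
    linarith
  exact (abs_le_of_sq_le_sq' h8 (by positivity)).2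

theorem re_ip_le {S : Type*} [Fintype S] (φ Ψ : S → ℂ) :
    normSq (φ - Ψ) = normSq φ + normSq Ψ - 2 * (ip φ Ψ).re := by
  unfold normSq ip
  rw [Complex.re_sum, Finset.mul_sum, ← Finset.sum_add_distrib, ← Finset.sum_sub_distrib]
  refine Finset.sum_congr rfl fun s _ => ?_
  rw [Pi.sub_apply, ← Complex.normSq_eq_norm_sq, ← Complex.normSq_eq_norm_sq,
    ← Complex.normSq_eq_norm_sq, Complex.normSq_sub]
  have : (φ s * (starRingEnd ℂ) (Ψ s)).re = ((starRingEnd ℂ) (φ s) * Ψ s).re := by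
    simp [Complex.mul_re]
  rw [this]

/-- the distance from the overlap -/
theorem dist_of_overlap {S : Type*} [Fintype S] (φ Ψ : S → ℂ) (η : ℝ) (hη0 : 0 ≤ η) (hη1 : η ≤ 1)
    (hΨ : normSq Ψ = 1) (h : ‖ip φ Ψ‖ ^ 2 ≤ Real.exp (-η) * normSq φ) :
    η / 2 ≤ normSq (φ - Ψ) := by
  have h1 : Real.exp (-η) ≤ 1 - η / 2 := by
    have h2 := Real.add_one_le_exp η
    rw [Real.exp_neg, inv_le_comm₀ (Real.exp_pos _) (by linarith)]
    refine le_trans ?_ h2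
    rw [inv_le_iff_one_le_mul₀ (by linarith)]
    nlinarith
  have h3 : (ip φ Ψ).re ^ 2 ≤ (1 - η / 2) * normSq φ := by
    have h4 : (ip φ Ψ).re ^ 2 ≤ ‖ip φ Ψ‖ ^ 2 := by
      have := Complex.abs_re_le_norm (ip φ Ψ)
      exact sq_le_sq' (by linarith [neg_abs_le (ip φ Ψ).re]) ((le_abs_self _).trans this)
    refine h4.trans (h.trans (mul_le_mul_of_nonneg_right h1 ?_))
    exact Finset.sum_nonneg fun _ _ => by positivity
  rw [re_ip_le, hΨ]
  have hφ : 0 ≤ normSq φ := Finset.sum_nonneg fun _ _ => by positivity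
  -- `2 r ≤ r² / (1 - η/2) + (1 - η/2) ≤ normSq φ + 1 - η/2`
  have h5 : 0 < 1 - η / 2 := by linarith
  set r := (ip φ Ψ).re with hr
  have h6 : 2 * r * (1 - η / 2) ≤ r ^ 2 + (1 - η / 2) ^ 2 := by nlinarith [sq_nonneg (r - (1 - η / 2))]
  have h7 : 2 * r * (1 - η / 2) ≤ (normSq φ + (1 - η / 2)) * (1 - η / 2) := by nlinarith
  have h8 : 2 * r ≤ normSq φ + (1 - η / 2) := le_of_mul_le_mul_right h7 h5
  linarith

/-- numerics of the combination of the two regimes -/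
theorem combine {a₀ a₁ x T K : ℝ} (ha₀ : 0 < a₀) (ha₁ : 0 < a₁) (hx : 0 ≤ x) (hT : 0 ≤ T)
    (h : (x ≤ T ∧ a₀ * (T / 2) ^ (1 / 3 : ℝ) ≤ K) ∨ (T ≤ x ∧ a₁ * x ^ (1 / 3 : ℝ) ≤ K)) :
    min (a₀ / 4) (a₁ / 4) * (x + T) ^ (1 / 3 : ℝ) ≤ K := by
  rcases h with ⟨h1, h2⟩ | ⟨h1, h2⟩
  · refine le_trans ?_ h2
    have h3 : (x + T) ^ (1 / 3 : ℝ) ≤ 4 * (T / 2) ^ (1 / 3 : ℝ) := by
      have e : (4 : ℝ) = 64 ^ (1 / 3 : ℝ) := by
        rw [show (64 : ℝ) = 4 ^ (3 : ℝ) by norm_num, ← Real.rpow_mul (by norm_num)]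
        norm_num
      rw [e, ← Real.mul_rpow (by norm_num) (by positivity)]
      exact Real.rpow_le_rpow (by positivity) (by linarith) (by norm_num)
    calc min (a₀ / 4) (a₁ / 4) * (x + T) ^ (1 / 3 : ℝ)
        ≤ a₀ / 4 * (x + T) ^ (1 / 3 : ℝ) :=
          mul_le_mul_of_nonneg_right (min_le_left _ _) (by positivity)
      _ ≤ a₀ / 4 * (4 * (T / 2) ^ (1 / 3 : ℝ)) := mul_le_mul_of_nonneg_left h3 (by positivity)
      _ = a₀ * (T / 2) ^ (1 / 3 : ℝ) := by ring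
  · refine le_trans ?_ h2
    have h3 : (x + T) ^ (1 / 3 : ℝ) ≤ 4 * x ^ (1 / 3 : ℝ) := by
      have e : (4 : ℝ) = 64 ^ (1 / 3 : ℝ) := by
        rw [show (64 : ℝ) = 4 ^ (3 : ℝ) by norm_num, ← Real.rpow_mul (by norm_num)]
        norm_num
      rw [e, ← Real.mul_rpow (by norm_num) (by positivity)]
      exact Real.rpow_le_rpow (by positivity) (by linarith) (by norm_num)
    calc min (a₀ / 4) (a₁ / 4) * (x + T) ^ (1 / 3 : ℝ)
        ≤ a₁ / 4 * (x + T) ^ (1 / 3 : ℝ) :=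
          mul_le_mul_of_nonneg_right (min_le_right _ _) (by positivity)
      _ ≤ a₁ / 4 * (4 * x ^ (1 / 3 : ℝ)) := mul_le_mul_of_nonneg_left h3 (by positivity)
      _ = a₁ * x ^ (1 / 3 : ℝ) := by ring

theorem log_ev (K : ℝ) : ∃ n₀ : ℕ, ∀ n : ℕ, n₀ ≤ n → K ≤ Real.log n := by
  have := (Real.tendsto_log_atTop.comp tendsto_natCast_atTop_atTop).eventually
    (Filter.eventually_ge_atTop K)
  exact Filter.eventually_atTop.1 this

/-- bond dimension and accuracy -/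
theorem precise {lam : ℝ} {C : ℕ} {Ψ : ∀ L : ℕ, (Site L → Fin 2) → ℂ} (hC : 2 ≤ C)
    (hK : Core lam C Ψ) (hPA : PepsKernelAt) :
    ∃ a : ℝ, 0 < a ∧ ∃ L₀ : ℕ, ∀ (L : ℕ) [NeZero L], L₀ ≤ L →
      ∀ ε : ℝ, Real.exp (-(a * (L : ℝ) ^ 3)) ≤ ε → ε ≤ 1 / 2 →
      ∀ (D : ℕ) (φ : (Site L → Fin 2) → ℂ), IsPEPS D φ → Real.sqrt (normSq (φ - Ψ L)) ≤ ε →
        Real.exp (a * Real.log (L / ε) ^ (1 / 3 : ℝ)) ≤ D := by
  obtain ⟨a₁, ha₁, L₁, hL₁⟩ := overlap hC hK hPA (1 / 2) (by norm_num)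
  obtain ⟨a₀, ha₀, hnum⟩ := Fin'.numer 3 C (by norm_num) hC
  obtain ⟨L₂, hL₂⟩ := log_ev (4 * C)
  have hC0 : (2 : ℝ) ≤ C := by exact_mod_cast hC
  set a := min (a₀ / 4) (a₁ / 4) with ha
  have ha0 : 0 < a := lt_min (by positivity) (by positivity)
  refine ⟨a, ha0, max (max L₁ L₂) 1, fun L _ hL ε hε1 hε2 D φ hφ hdist => ?_⟩
  have hL1 : L₁ ≤ L := (le_max_left _ _).trans ((le_max_left _ _).trans hL)
  have hL2 : L₂ ≤ L := (le_max_right _ _).trans ((le_max_left _ _).trans hL)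
  have hLpos : 1 ≤ L := (le_max_right _ _).trans hL
  have hLr : (0 : ℝ) < L := by exact_mod_cast hLpos
  have hε0 : 0 < ε := (Real.exp_pos _).trans_le hε1
  have hlogL := hL₂ L hL2
  set T := -Real.log ε with hT
  have hεT : ε = Real.exp (-T) := by rw [hT, neg_neg, Real.exp_log hε0]
  have hT0 : 0 < T := by
    rw [hT, neg_pos]
    exact Real.log_neg hε0 (by linarith)
  have hTL : T ≤ a * (L : ℝ) ^ 3 := by
    rw [hεT, Real.exp_le_exp] at hε1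
    linarith
  have hlog : Real.log (L / ε) = Real.log L + T := by
    rw [Real.log_div hLr.ne' hε0.ne', hT]
    ring
  have hnn := normSq_nonneg (φ - Ψ L)
  have hD : normSq (φ - Ψ L) ≤ Real.exp (-T) ^ 2 := by
    rw [← hεT]
    calc normSq (φ - Ψ L) = Real.sqrt (normSq (φ - Ψ L)) ^ 2 := (Real.sq_sqrt hnn).symm
      _ ≤ ε ^ 2 := pow_le_pow_left₀ (Real.sqrt_nonneg _) hdist 2
  by_cases hD0 : D = 0
  · -- the zero vector
    exfalso
    obtain ⟨A, hA⟩ := hφ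
    have hz : φ = 0 := by
      rw [hA]
      subst hD0
      funext s
      unfold contract
      have : IsEmpty (Site L → Fin 0) := by
        refine ⟨fun f => Fin.elim0 (f (0, 0))⟩
      simp
    have h1 := (hK.1 L).1
    rw [hz, zero_sub] at hD
    have h2 : normSq (-Ψ L) = normSq (Ψ L) := by
      unfold normSq
      simp
    rw [h2, h1, ← hεT] at hD
    nlinarith
  have hDpos : (0 : ℝ) < D := by exact_mod_cast Nat.pos_of_ne_zero hD0
  rw [← Real.le_log_iff_exp_le hDpos, hlog]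
  refine combine ha₀ ha₁ (by linarith) hT0.le ?_
  rcases le_total (Real.log L) T with hc | hc
  · refine Or.inl ⟨hc, ?_⟩
    obtain ⟨m, hm1, hm2, hm3, hm4⟩ := hnum L (T / 2) (by linarith) (by
      have : a ≤ a₀ := (min_le_left _ _).trans (by linarith)
      have h2 : a * (L : ℝ) ^ 3 ≤ a₀ * (L : ℝ) ^ 3 := mul_le_mul_of_nonneg_right this (by positivity)
      linarith)
    by_cases hDm : D ^ (4 * m) < 2 ^ (m * m)
    · exfalso
      have h2m : 2 * m ≤ L := (Nat.mul_le_mul_right m hC).trans hm2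
      obtain ⟨v, hv0, hv⟩ := kernels hPA (G := 1) (by omega) (by omega) hDm φ hφ
      have h7 := hK.2 L m 1 hm1 hm2 (by omega) φ v hv0 hv
      rw [Nat.cast_one, mul_one] at h7
      have h8 := dist_of_overlap φ (Ψ L) _ (Real.exp_pos _).le
        (Real.exp_le_one_iff.2 (neg_nonpos.2 (by positivity))) (hK.1 L).1 h7
      have h9 : Real.exp (-(T / 2)) ≤ Real.exp (-(2 * C * (m : ℝ) ^ 3)) :=
        Real.exp_le_exp.2 (by linarith)
      have h10 : Real.exp (-(T / 2)) ≤ 2 * Real.exp (-T) ^ 2 := by linarith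
      have h11 : 2 * Real.exp (-T) ^ 2 = Real.exp (Real.log 2 - 2 * T) := by
        rw [sub_eq_add_neg, Real.exp_add, Real.exp_log (by norm_num), ← Real.exp_nat_mul]
        congr 2
        push_cast
        ring
      rw [h11, Real.exp_le_exp] at h10
      have h12 : Real.log 2 < 1 := by linarith [Real.log_two_lt_d9]
      linarith
    · have h6 := hm4 D (pow_cases hm1 hDm)
      have e : ((1 : ℝ) / ((3 : ℕ) : ℝ)) = 1 / 3 := by norm_num
      rw [e, ← Real.le_log_iff_exp_le hDpos] at h6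
      exact h6
  · refine Or.inr ⟨hc, ?_⟩
    by_contra hcon
    push Not at hcon
    have h5 : (D : ℝ) < Real.exp (a₁ * Real.log L ^ (1 / 3 : ℝ)) :=
      (Real.log_lt_iff_lt_exp hDpos).1 hcon
    have h6 := hL₁ L hL1 D φ hφ h5
    have h7 : ‖ip φ (Ψ L)‖ ^ 2 ≤ Real.exp (-1) * normSq φ := by
      calc ‖ip φ (Ψ L)‖ ^ 2 ≤ (Real.exp (-(L : ℝ) ^ (1 - 1 / 2 : ℝ)) * Real.sqrt (normSq φ)) ^ 2 :=
            pow_le_pow_left₀ (norm_nonneg _) h6 2
        _ = Real.exp (-(L : ℝ) ^ (1 - 1 / 2 : ℝ)) ^ 2 * normSq φ := by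
            rw [mul_pow, Real.sq_sqrt (normSq_nonneg _)]
        _ ≤ Real.exp (-1) * normSq φ := by
            refine mul_le_mul_of_nonneg_right ?_ (normSq_nonneg _)
            rw [← Real.exp_nat_mul, Real.exp_le_exp]
            have h8 : (1 : ℝ) ≤ (L : ℝ) ^ (1 - 1 / 2 : ℝ) :=
              Real.one_le_rpow (by exact_mod_cast hLpos) (by norm_num)
            push_cast
            linarith
    have h8 := dist_of_overlap φ (Ψ L) 1 (by norm_num) le_rfl (hK.1 L).1 h7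
    rw [← hεT] at hD
    nlinarith

/-- the elementary bound used for one block -/
theorem exp_half {η : ℝ} (hη0 : 0 ≤ η) (hη1 : η ≤ 1) : Real.exp (-η) ≤ 1 - η / 2 := by
  have h2 := Real.add_one_le_exp η
  rw [Real.exp_neg, inv_le_comm₀ (Real.exp_pos _) (by linarith)]
  refine le_trans ?_ h2
  rw [inv_le_iff_one_le_mul₀ (by linarith)]
  nlinarith

/-- the reduced states are almost orthogonal -/
theorem localStrong {lam : ℝ} {C : ℕ} {Ψ : ∀ L : ℕ, (Site L → Fin 2) → ℂ} (hC : 2 ≤ C)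
    (hK : Core lam C Ψ) (hPA : PepsKernelAt) (hLB : LocalBound) (δ : ℝ) (hδ : 0 < δ) :
    ∃ a : ℝ, 0 < a ∧ ∃ n₀ : ℕ, ∀ n : ℕ, n₀ ≤ n →
      ∀ (L : ℕ) [NeZero L], n ≤ L → ∀ (D : ℕ) (φ : (Site L → Fin 2) → ℂ), IsPEPS D φ → φ ≠ 0 →
        (D : ℝ) < Real.exp (a * Real.log n ^ (1 / 3 : ℝ)) →
        2 * (1 - Real.exp (-(n : ℝ) ^ (1 - δ))) ≤ Pool.Agent.H4R2.traceNorm
          (Pool.Agent.H4R2.redState (box n) (Ψ L) - Pool.Agent.H4R2.redState (box n) φ) := by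
  obtain ⟨a, ha0, n₀, hn₀, ha⟩ := Nu2.numer C hC δ hδ
  refine ⟨a, ha0, n₀, fun n hn L _ hnL D φ hφ hφ0 hD' => ?_⟩
  obtain ⟨m, hm1, hm2, hm3, hm4⟩ := ha n hn
  have h2m : 2 * m ≤ n := (Nat.mul_le_mul_right m hC).trans hm2
  have hG : n / m * m ≤ n := Nat.div_mul_le_self n m
  obtain ⟨v, hv0, hv⟩ := kernels hPA (by omega) (hG.trans hnL) (hm3 D hD') φ hφ
  have h5 := hLB L n m (n / m) (Ψ L) φ (Real.exp (-(2 * (n : ℝ) ^ (1 - δ)))) v hnL (by omega) hG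
    (Real.exp_pos _).le (hK.1 L).1 hφ0 hv (fun θ hθ => by
      refine (hK.2 L m (n / m) hm1 (hm2.trans hnL) (hG.trans hnL) θ v hv0 hθ).trans ?_
      refine mul_le_mul_of_nonneg_right (Real.exp_le_exp.2 ?_) (normSq_nonneg _)
      linarith)
  refine le_trans ?_ h5
  have h6 : Real.exp (-(2 * (n : ℝ) ^ (1 - δ))) ≤ Real.exp (-(n : ℝ) ^ (1 - δ)) := by
    apply Real.exp_le_exp.2
    have : 0 ≤ (n : ℝ) ^ (1 - δ) := by positivity
    linarith
  linarith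

/-- bond dimension and local accuracy -/
theorem localPrecise {lam : ℝ} {C : ℕ} {Ψ : ∀ L : ℕ, (Site L → Fin 2) → ℂ} (hC : 2 ≤ C)
    (hK : Core lam C Ψ) (hPA : PepsKernelAt) (hLB : LocalBound) :
    ∃ a : ℝ, 0 < a ∧ ∃ n₀ : ℕ, ∀ n : ℕ, n₀ ≤ n →
      ∀ (L : ℕ) [NeZero L], n ≤ L → ∀ ε : ℝ, Real.exp (-(a * (n : ℝ) ^ 3)) ≤ ε → ε ≤ 1 →
      ∀ (D : ℕ) (φ : (Site L → Fin 2) → ℂ), IsPEPS D φ → φ ≠ 0 →
        Pool.Agent.H4R2.traceNorm
          (Pool.Agent.H4R2.redState (box n) (Ψ L) - Pool.Agent.H4R2.redState (box n) φ) ≤ ε →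
        Real.exp (a * Real.log (n / ε) ^ (1 / 3 : ℝ)) ≤ D := by
  obtain ⟨a₁, ha₁, n₁, hn₁⟩ := localStrong hC hK hPA hLB (1 / 2) (by norm_num)
  obtain ⟨a₀, ha₀, hnum⟩ := Fin'.numer 3 C (by norm_num) hC
  obtain ⟨n₂, hn₂⟩ := log_ev (4 * C)
  have hC0 : (2 : ℝ) ≤ C := by exact_mod_cast hC
  set a := min (a₀ / 4) (a₁ / 4) with ha
  have ha0 : 0 < a := lt_min (by positivity) (by positivity)
  refine ⟨a, ha0, max (max n₁ n₂) 1, fun n hn L _ hnL ε hε1 hε2 D φ hφ hφ0 hdist => ?_⟩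
  have hn1 : n₁ ≤ n := (le_max_left _ _).trans ((le_max_left _ _).trans hn)
  have hn2 : n₂ ≤ n := (le_max_right _ _).trans ((le_max_left _ _).trans hn)
  have hnpos : 1 ≤ n := (le_max_right _ _).trans hn
  have hnr : (0 : ℝ) < n := by exact_mod_cast hnpos
  have hε0 : 0 < ε := (Real.exp_pos _).trans_le hε1
  have hlogn := hn₂ n hn2
  set T := -Real.log ε with hT
  have hεT : ε = Real.exp (-T) := by rw [hT, neg_neg, Real.exp_log hε0]
  have hT0 : 0 ≤ T := by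
    rw [hT, neg_nonneg]
    exact Real.log_nonpos hε0.le hε2
  have hTn : T ≤ a * (n : ℝ) ^ 3 := by
    rw [hεT, Real.exp_le_exp] at hε1
    linarith
  have hlog : Real.log (n / ε) = Real.log n + T := by
    rw [Real.log_div hnr.ne' hε0.ne', hT]
    ring
  by_cases hD0 : D = 0
  · -- the zero vector
    exfalso
    obtain ⟨A, hA⟩ := hφ
    apply hφ0
    rw [hA]
    subst hD0
    funext s
    unfold contract
    have : IsEmpty (Site L → Fin 0) := by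
      refine ⟨fun f => Fin.elim0 (f (0, 0))⟩
    simp
  have hDpos : (0 : ℝ) < D := by exact_mod_cast Nat.pos_of_ne_zero hD0
  rw [← Real.le_log_iff_exp_le hDpos, hlog]
  refine combine ha₀ ha₁ (by linarith) hT0 ?_
  rcases le_total (Real.log n) T with hc | hc
  · refine Or.inl ⟨hc, ?_⟩
    obtain ⟨m, hm1, hm2, hm3, hm4⟩ := hnum n (T / 2) (by linarith) (by
      have : a ≤ a₀ := (min_le_left _ _).trans (by linarith)
      have h2 : a * (n : ℝ) ^ 3 ≤ a₀ * (n : ℝ) ^ 3 := mul_le_mul_of_nonneg_right this (by positivity)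
      linarith)
    by_cases hDm : D ^ (4 * m) < 2 ^ (m * m)
    · exfalso
      have h2m : 2 * m ≤ n := (Nat.mul_le_mul_right m hC).trans hm2
      obtain ⟨v, hv0, hv⟩ := kernels hPA (G := 1) (by omega) (by omega) hDm φ hφ
      have hη1 : Real.exp (-(2 * C * (m : ℝ) ^ 3)) ≤ 1 :=
        Real.exp_le_one_iff.2 (neg_nonpos.2 (by positivity))
      have h5 := hLB L n m 1 (Ψ L) φ (1 - Real.exp (-(2 * C * (m : ℝ) ^ 3)) / 2) v hnL (by omega)
        (by omega) (by linarith) (hK.1 L).1 hφ0 hv (fun θ hθ => by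
          refine (hK.2 L m 1 hm1 (hm2.trans hnL) (by omega) θ v hv0 hθ).trans ?_
          refine mul_le_mul_of_nonneg_right ?_ (normSq_nonneg _)
          rw [Nat.cast_one, mul_one]
          exact exp_half (Real.exp_pos _).le hη1)
      have h6 : Real.exp (-(2 * C * (m : ℝ) ^ 3)) ≤ Real.exp (-T) := by
        rw [← hεT]
        linarith
      rw [Real.exp_le_exp] at h6
      linarith
    · have h6 := hm4 D (pow_cases hm1 hDm)
      have e : ((1 : ℝ) / ((3 : ℕ) : ℝ)) = 1 / 3 := by norm_num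
      rw [e, ← Real.le_log_iff_exp_le hDpos] at h6
      exact h6
  · refine Or.inr ⟨hc, ?_⟩
    by_contra hcon
    push Not at hcon
    have h5 : (D : ℝ) < Real.exp (a₁ * Real.log n ^ (1 / 3 : ℝ)) :=
      (Real.log_lt_iff_lt_exp hDpos).1 hcon
    have h6 := hn₁ n hn1 L hnL D φ hφ hφ0 h5
    have h8 : (1 : ℝ) ≤ (n : ℝ) ^ (1 - 1 / 2 : ℝ) :=
      Real.one_le_rpow (by exact_mod_cast hnpos) (by norm_num)
    have h9 : Real.exp (-(n : ℝ) ^ (1 - 1 / 2 : ℝ)) ≤ Real.exp (-1) :=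
      Real.exp_le_exp.2 (by linarith)
    have h10 : Real.exp (-1) < 1 / 2 := by
      have := Real.exp_neg_one_lt_d9
      linarith
    linarith

end Pool.Agent.Q234.PL.FU
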