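import Pool.Agent.Q234.PL.AllA
import Pool.Agent.Q234.PL.FU
import Pool.Agent.Q68.PL.PG
import Pool.Agent.Q68.PL.TH
import Pool.Agent.Q177.PL.OV
import Pool.Agent.Q182.PL.PK
import Pool.Agent.Q241.PL.PKA
import Pool.Agent.Q241.PL.TD
import Pool.Agent.Q257.PL.TB
import Pool.Agent.Q298.PL.TOV
import Pool.Agent.Q298.PL.LB
import Pool.Agent.Q298.PL.HE

/-!
# The torus: everything unconditional
-/

set_option autoImplicit false

open scoped BigOperators Matrix
open Finset Pool.Agent.TH235.PP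

namespace Pool.Agent.Q234.PL.All

theorem pepsKernelAt : PepsKernelAt :=
  Pool.Agent.Q241.PL.PKA.main Pool.Agent.Q182.PL.main

theorem torusOverlap : TorusOverlap :=
  Pool.Agent.Q298.PL.TOV.main Pool.Agent.Q177.PL.OV.main Pool.Agent.Q257.PL.TB.main

theorem torusHam : TorusHam :=
  Pool.Agent.Q68.PL.THjob.main Pool.Agent.Q68.PL.JWjob.main Pool.Agent.Q68.PL.PGjob.main

theorem localBound : LocalBound :=
  Pool.Agent.Q298.PL.LB.main Pool.Agent.Q241.PL.TD.main

theorem hamEq : HamEq := Pool.Agent.Q298.PL.HE.main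

theorem core (lam : ℝ) (h0 : 0 < lam) (h1 : lam < 1) :
    ∃ (C : ℕ) (Ψ : ∀ L : ℕ, (Site L → Fin 2) → ℂ), 2 ≤ C ∧ FU.Core lam C Ψ :=
  FU.core ringStm rowStm torusOverlap torusHam Pool.Agent.Q224.PL.NU.main lam h0 h1

theorem flip_add_one (a : Fin 2) : a + 1 + 1 = a := by
  revert a; decide

theorem ising_herm (lam : ℝ) : (ising lam).IsHermitian := by
  ext p q
  rw [Matrix.conjTranspose_apply]
  unfold ising
  rw [star_sub]
  congr 1
  · by_cases h : p = q
    · subst h
      rw [if_pos rfl]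
      unfold sgn
      split_ifs <;> simp
    · rw [if_neg h, if_neg (fun h' => h h'.symm), star_zero]
  · by_cases h : q (0, 0) = p (0, 0) + 1 ∧ q (1, 0) = p (1, 0) + 1 ∧ q (0, 1) = p (0, 1) ∧
        q (1, 1) = p (1, 1)
    · rw [if_pos h, if_pos (by
        obtain ⟨h1, h2, h3, h4⟩ := h
        refine ⟨by rw [h1, flip_add_one], by rw [h2, flip_add_one], h3.symm, h4.symm⟩)]
      simp
    · rw [if_neg h, if_neg (fun h' => h (by
        obtain ⟨h1, h2, h3, h4⟩ := h'
        refine ⟨by rw [h1, flip_add_one], by rw [h2, flip_add_one], h3.symm, h4.symm⟩)), star_zero]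

end Pool.Agent.Q234.PL.All
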