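import Pool.Agent.TH235.PP.Spec

/-!
# Definitions of project PL (lower bounds for bond dimensions)

The ring of `N + 1` spins, the operators `Z_j`, `X_j`, the parity `P`, the Majorana operators
`A_j`, `B_j` of the Jordan-Wigner transformation, the ring Hamiltonian
`H = - ∑ Z_x - λ ∑ X_x X_(x+1)` and the quadratic forms `i ∑ M_jl A_j B_l`.
-/

set_option autoImplicit false

open scoped BigOperators Matrix
open Finset Pool.Agent.TH235.PP

namespace Pool.Agent.Q234.PL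

/-- configurations of the ring with the sites `0, ..., N` -/
abbrev Cf (N : ℕ) : Type := Fin (N + 1) → Fin 2

/-- `+1` on `0`, `-1` on `1` -/
def sgn (a : Fin 2) : ℂ := if a = 0 then 1 else -1

/-- flip the spin at `j` -/
def flip {ι : Type} [DecidableEq ι] (j : ι) (s : ι → Fin 2) : ι → Fin 2 :=
  Function.update s j (s j + 1)

/-- the operator `Z_j` -/
def Zo {N : ℕ} (j : Fin (N + 1)) : Matrix (Cf N) (Cf N) ℂ := Matrix.diagonal fun s => sgn (s j)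

/-- the operator `X_j`, that is `(X_j ψ) s = ψ (flip j s)` -/
def Xo {N : ℕ} (j : Fin (N + 1)) : Matrix (Cf N) (Cf N) ℂ := fun s t => if t = flip j s then 1 else 0

/-- the parity `∏ Z_j` -/
def Po {N : ℕ} : Matrix (Cf N) (Cf N) ℂ := Matrix.diagonal fun s => ∏ j, sgn (s j)

/-- the Majorana operator `A_j = (∏_{i<j} Z_i) X_j` -/
def Ao {N : ℕ} (j : Fin (N + 1)) : Matrix (Cf N) (Cf N) ℂ :=
  Matrix.diagonal (fun s => ∏ i ∈ univ.filter (· < j), sgn (s i)) * Xo j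

/-- the Majorana operator `B_j = i A_j Z_j` -/
def Bo {N : ℕ} (j : Fin (N + 1)) : Matrix (Cf N) (Cf N) ℂ := Complex.I • (Ao j * Zo j)

/-- the Hamiltonian of the ring -/
noncomputable def ringH (lam : ℝ) (N : ℕ) : Matrix (Cf N) (Cf N) ℂ :=
  ∑ x : Fin (N + 1), (-(Zo x) - (lam : ℂ) • (Xo x * Xo (x + 1)))

/-- Majorana operators: Hermitian, of square one, anticommuting -/
def IsMaj {n ι : Type} [Fintype n] [DecidableEq n] (γ : ι → Matrix n n ℂ) : Prop :=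
  (∀ i, (γ i).IsHermitian) ∧ (∀ i, γ i * γ i = 1) ∧ ∀ i j, i ≠ j → γ i * γ j = -(γ j * γ i)

/-- the quadratic form `i ∑ M_jl A_j B_l` -/
noncomputable def qfo {n : Type} [Fintype n] {K : ℕ} (A B : Fin K → Matrix n n ℂ)
    (M : Matrix (Fin K) (Fin K) ℝ) : Matrix n n ℂ :=
  ∑ j, ∑ l, (Complex.I * (M j l : ℂ)) • (A j * B l)

/-- the quadratic form in the Majorana operators of the ring -/
noncomputable def qf {N : ℕ} (M : Matrix (Fin (N + 1)) (Fin (N + 1)) ℝ) : Matrix (Cf N) (Cf N) ℂ :=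
  qfo Ao Bo M

/-- the shift `e_j ↦ e_(j+1)` of the ring, with the factor `ε` for `e_N ↦ ε e_0` -/
def shiftM (N : ℕ) (ε : ℝ) : Matrix (Fin (N + 1)) (Fin (N + 1)) ℝ :=
  fun i j => if i = j + 1 then (if i = 0 then ε else 1) else 0

/-- the coefficients of `(1 - x)^(1/2) = 1 - ∑_{n ≥ 1} al n x^n`:
`al (n + 1) = (2n choose n) / (4^n (2 n + 2))` -/
noncomputable def al (n : ℕ) : ℝ := (Nat.centralBinom (n - 1) : ℝ) / (4 ^ (n - 1) * (2 * n))

/-- the coefficients of `(1 - x)^(1/2)` -/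
noncomputable def ac (n : ℕ) : ℝ := if n = 0 then 1 else -al n

/-- `R` is the square root `(1 - λ S)^(1/2)` of `1 - λ S`, `S = shiftM N ε` -/
structure RootOf (N : ℕ) (ε lam : ℝ) (R : Matrix (Fin (N + 1)) (Fin (N + 1)) ℝ) : Prop where
  sq : R * R = 1 - lam • shiftM N ε
  normal : R * Rᵀ = Rᵀ * R
  upper : ∀ v, (R *ᵥ v) ⬝ᵥ (R *ᵥ v) ≤ 4 * (v ⬝ᵥ v)
  lower : ∀ v, (1 - lam) * (v ⬝ᵥ v) ≤ (R *ᵥ v) ⬝ᵥ (R *ᵥ v)
  entry : ∀ i j : Fin (N + 1), |R i j - (if (j : ℕ) ≤ i then ac (i - j) * lam ^ ((i : ℕ) - j) else 0)| ≤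
    lam ^ (N + 1 - ((j : ℕ) - i))

/-- the operator `∑ (R w)_j A_j + i ∑ (Rᵀ w)_j B_j` -/
noncomputable def annih {N : ℕ} (R : Matrix (Fin (N + 1)) (Fin (N + 1)) ℝ) (w : Fin (N + 1) → ℝ) :
    Matrix (Cf N) (Cf N) ℂ :=
  ∑ j, (((R *ᵥ w) j : ℝ) : ℂ) • Ao j + Complex.I • ∑ j, (((Rᵀ *ᵥ w) j : ℝ) : ℂ) • Bo j

/-- `Ψ` is the ground state of the Hermitian matrix `H`, with the energy `E` and the gap `Δ` -/
def IsGround {n : Type} [Fintype n] (H : Matrix n n ℂ) (E Δ : ℝ) (Ψ : n → ℂ) : Prop :=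
  normSq Ψ = 1 ∧ H *ᵥ Ψ = (E : ℂ) • Ψ ∧
    ∀ φ : n → ℂ, E * normSq φ + Δ * (normSq φ - ‖ip Ψ φ‖ ^ 2) ≤ (ip φ (H *ᵥ φ)).re

/-- the block configuration `p` on the sites `0, ..., m-1`, `t` elsewhere -/
def paste {N m : ℕ} (p : Fin m → Fin 2) (t : Cf N) : Cf N := fun i =>
  if h : (i : ℕ) < m then p ⟨i, h⟩ else t i

/-- the block configuration `p` on the block `[0, m)²` of the torus, `t` elsewhere -/
def tpaste {L m : ℕ} (p : Fin m × Fin m → Fin 2) (t : Site L → Fin 2) : Site L → Fin 2 := fun x =>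
  if h : x.1.val < m ∧ x.2.val < m then p (⟨x.1.val, h.1⟩, ⟨x.2.val, h.2⟩) else t x

/-- the product over the rows -/
def rowProd {N : ℕ} (Ψ : Cf N → ℂ) : (Site (N + 1) → Fin 2) → ℂ := fun s =>
  ∏ y : ZMod (N + 1), Ψ fun x => s ((x : ZMod (N + 1)), y)

/-- the interaction `- Z_(0,0) - λ X_(0,0) X_(1,0)` on the `2 × 2` box -/
noncomputable def ising (lam : ℝ) : BoxOp 2 2 := fun p q =>
  (if p = q then -(sgn (p (0, 0))) else 0) -
    if q (0, 0) = p (0, 0) + 1 ∧ q (1, 0) = p (1, 0) + 1 ∧ q (0, 1) = p (0, 1) ∧ q (1, 1) = p (1, 1)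
      then (lam : ℂ) else 0

/-- the ordered product of the `γ k` with `s k = true` -/
def word {n : Type} [Fintype n] [DecidableEq n] {K : ℕ} (γ : Fin K → Matrix n n ℂ)
    (s : Fin K → Bool) : Matrix n n ℂ :=
  (List.ofFn fun k => if s k then γ k else 1).prod

/-- the Hankel constant -/
noncomputable def hh (m : ℕ) (lam : ℝ) : ℝ := lam ^ (2 * m - 1) / (2 * 49 ^ m)

/-- the bound of the one-particle problem -/
noncomputable def kap (m : ℕ) (lam : ℝ) : ℝ := 10 / (hh m lam * (1 - lam))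

/-- `φ` is a matrix product vector of bond dimension `D` on the ring -/
def IsMPS {N : ℕ} (D : ℕ) (φ : Cf N → ℂ) : Prop :=
  ∃ A : Fin (N + 1) → Fin 2 → Fin D → Fin D → ℂ, φ = fun s =>
    ∑ h : Fin (N + 1) → Fin D, ∏ x : Fin (N + 1), A x (s x) (h (x - 1)) (h x)

end Pool.Agent.Q234.PL
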