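import Pool.Agent.Q234.PL.Stm

/-!
# ExVac from Vacuum and Root
-/

set_option autoImplicit false

open scoped BigOperators Matrix
open Finset Pool.Agent.TH235.PP

namespace Pool.Agent.Q234.PL.ExV

variable {K : ℕ}

/-- a matrix which is bounded below is invertible -/
theorem inv_of_lower (R : Matrix (Fin K) (Fin K) ℝ) (c : ℝ) (hc : 0 < c)
    (h : ∀ v, c * (v ⬝ᵥ v) ≤ (R *ᵥ v) ⬝ᵥ (R *ᵥ v)) : IsUnit R.det := by
  rw [← Matrix.isUnit_iff_isUnit_det, ← Matrix.mulVec_injective_iff_isUnit]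
  intro v w hvw
  have h0 : R *ᵥ (v - w) = 0 := by
    rw [Matrix.mulVec_sub]
    exact sub_eq_zero.2 hvw
  have h1 := h (v - w)
  rw [h0, dotProduct_zero] at h1
  have h2 : (v - w) ⬝ᵥ (v - w) ≤ 0 := by
    by_contra h3
    push Not at h3
    have := mul_pos hc h3
    linarith
  have h3 : (v - w) ⬝ᵥ (v - w) = 0 :=
    le_antisymm h2 (by
      unfold dotProduct
      exact Finset.sum_nonneg fun i _ => mul_self_nonneg _)
  have h4 : v - w = 0 := by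
    exact dotProduct_self_eq_zero.1 h3
  exact sub_eq_zero.1 h4

/-- ExVac -/
theorem main (hJ : JW) (hV : Vacuum) (hR : Root) : ExVac := by
  intro N ε lam hε h0 h1
  obtain ⟨R, hRo⟩ := hR N ε lam hε h0 h1
  have hdet : IsUnit R.det := inv_of_lower R (1 - lam) (by linarith) hRo.lower
  have hdetT : IsUnit (Rᵀ).det := by rw [Matrix.det_transpose]; exact hdet
  have hcomm := hRo.normal
  set Ti := (Rᵀ)⁻¹ with hTi
  have hT1 : Rᵀ * Ti = 1 := Matrix.mul_nonsing_inv _ hdetT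
  have hT2 : Ti * Rᵀ = 1 := Matrix.nonsing_inv_mul _ hdetT
  set Ri := R⁻¹ with hRi
  have hR1 : R * Ri = 1 := Matrix.mul_nonsing_inv _ hdet
  have hR2 : Ri * R = 1 := Matrix.nonsing_inv_mul _ hdet
  have hTiT : Tiᵀ = Ri := by
    rw [hTi, hRi, Matrix.transpose_nonsing_inv, Matrix.transpose_transpose]
  -- commutation of R with Ti
  have hRT : R * Ti = Ti * R := by
    calc R * Ti = (Ti * Rᵀ) * (R * Ti) := by rw [hT2, one_mul]
      _ = Ti * (Rᵀ * R) * Ti := by simp only [mul_assoc]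
      _ = Ti * (R * Rᵀ) * Ti := by rw [hcomm]
      _ = Ti * R * (Rᵀ * Ti) := by simp only [mul_assoc]
      _ = Ti * R := by rw [hT1, mul_one]
  have hU : (R * Ti)ᵀ * (R * Ti) = 1 := by
    rw [Matrix.transpose_mul, hTiT]
    calc Ri * Rᵀ * (R * Ti) = Ri * (Rᵀ * R) * Ti := by simp only [mul_assoc]
      _ = Ri * (R * Rᵀ) * Ti := by rw [hcomm]
      _ = (Ri * R) * (Rᵀ * Ti) := by simp only [mul_assoc]
      _ = 1 := by rw [hR2, hT1, one_mul]
  have hQ : (R * Rᵀ)ᵀ = R * Rᵀ := by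
    rw [Matrix.transpose_mul, Matrix.transpose_transpose]
  have hUQ : (R * Ti) * (R * Rᵀ) = 1 - lam • shiftM N ε := by
    rw [← hRo.sq]
    calc (R * Ti) * (R * Rᵀ) = R * (Ti * (R * Rᵀ)) := by simp only [mul_assoc]
      _ = R * (Ti * (Rᵀ * R)) := by rw [hcomm]
      _ = R * ((Ti * Rᵀ) * R) := by simp only [mul_assoc]
      _ = R * R := by rw [hT2, one_mul]
  have hlow : ∀ v, (1 - lam) * (v ⬝ᵥ v) ≤ v ⬝ᵥ ((R * Rᵀ) *ᵥ v) := by
    intro v
    have e1 : v ⬝ᵥ ((R * Rᵀ) *ᵥ v) = (R *ᵥ v) ⬝ᵥ (R *ᵥ v) := by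
      rw [hcomm, ← Matrix.mulVec_mulVec, Matrix.dotProduct_mulVec, Matrix.vecMul_transpose]
    rw [e1]
    exact hRo.lower v
  obtain ⟨Ψ, hg, ha⟩ := hV (Cf N) (N + 1) Ao Bo (by simp [Cf]) (hJ N).1 (R * Ti) (R * Rᵀ) (1 - lam)
    hU hQ (by linarith) hlow
  refine ⟨R, -(R * Rᵀ).trace, Ψ, hRo, ?_, ?_⟩
  · unfold qf
    rw [← hUQ]
    exact hg
  · intro w
    have h2 := ha (Rᵀ *ᵥ w)
    have e : (R * Ti) *ᵥ (Rᵀ *ᵥ w) = R *ᵥ w := by
      rw [Matrix.mulVec_mulVec, mul_assoc, hT2, mul_one]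
    rw [e] at h2
    exact h2

end Pool.Agent.Q234.PL.ExV
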