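import Mathlib

/-!
# Numerics for the overlap bound
-/

set_option autoImplicit false

open Filter

namespace Pool.Agent.Q234.PL.Nu2

/-- `(κ log n)^(1/3) ≤ c n^s` for large `n` -/
theorem cube_small (κ c s : ℝ) (hκ : 0 < κ) (hc : 0 < c) (hs : 0 < s) :
    ∀ᶠ n : ℕ in atTop, (κ * Real.log n) ^ (1 / 3 : ℝ) ≤ c * (n : ℝ) ^ s := by
  have h1 := (isLittleO_log_rpow_atTop (by positivity : 0 < 3 * s)).def
    (by positivity : 0 < c ^ 3 / κ)
  have h2 := tendsto_natCast_atTop_atTop.eventually h1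
  filter_upwards [h2, eventually_ge_atTop 2] with n hn hn2
  have hn0 : (0 : ℝ) < n := by positivity
  have hlog : 0 ≤ Real.log n := Real.log_nonneg (by
    have : (2 : ℝ) ≤ n := by exact_mod_cast hn2
    linarith)
  rw [Real.norm_eq_abs, Real.norm_eq_abs, abs_of_nonneg hlog, abs_of_pos (by positivity)] at hn
  have h3 : κ * Real.log n ≤ (c * (n : ℝ) ^ s) ^ (3 : ℝ) := by
    rw [Real.mul_rpow hc.le (by positivity), ← Real.rpow_mul hn0.le, mul_comm s 3]
    have h4 : c ^ (3 : ℝ) = c ^ 3 := by norm_cast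
    rw [h4]
    calc κ * Real.log n ≤ κ * (c ^ 3 / κ * (n : ℝ) ^ (3 * s)) := by gcongr
      _ = c ^ 3 * (n : ℝ) ^ (3 * s) := by field_simp
  calc (κ * Real.log n) ^ (1 / 3 : ℝ) ≤ ((c * (n : ℝ) ^ s) ^ (3 : ℝ)) ^ (1 / 3 : ℝ) := by
        apply Real.rpow_le_rpow (by positivity) h3 (by norm_num)
    _ = c * (n : ℝ) ^ s := by
        rw [← Real.rpow_mul (by positivity)]
        norm_num

/-- the choice of the block size -/
theorem numer (C : ℕ) (hC : 2 ≤ C) (δ : ℝ) (hδ : 0 < δ) : ∃ a : ℝ, 0 < a ∧ ∃ n₀ : ℕ, 2 ≤ n₀ ∧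
    ∀ n : ℕ, n₀ ≤ n → ∃ m : ℕ, 1 ≤ m ∧ C * m ≤ n ∧
      (∀ D : ℕ, (D : ℝ) < Real.exp (a * Real.log n ^ (1 / 3 : ℝ)) → D ^ (4 * m) < 2 ^ (m * m)) ∧
      2 * (n : ℝ) ^ (1 - δ) ≤ Real.exp (-(2 * C * (m : ℝ) ^ 3)) * ((n / m : ℕ) : ℝ) := by
  have hC0 : (0 : ℝ) < C := by
    have : 0 < C := by omega
    exact_mod_cast this
  set κ := δ / (4 * C) with hκ
  have hκ0 : 0 < κ := by rw [hκ]; positivity
  have hl2 : 0 < Real.log 2 := Real.log_pos one_lt_two
  set a := Real.log 2 / 8 * κ ^ (1 / 3 : ℝ) with ha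
  have ha0 : 0 < a := by rw [ha]; positivity
  have e1 := cube_small κ (1 / C) 1 hκ0 (by positivity) one_pos
  have e2 := cube_small κ (1 / 4) (δ / 2) hκ0 (by norm_num) (by positivity)
  have e3 : ∀ᶠ n : ℕ in atTop, 1 / κ ≤ Real.log n :=
    (Real.tendsto_log_atTop.comp tendsto_natCast_atTop_atTop).eventually (eventually_ge_atTop _)
  obtain ⟨n₁, hn₁⟩ := eventually_atTop.1 ((e1.and e2).and e3)
  refine ⟨a, ha0, max n₁ 2, le_max_right _ _, fun n hn => ?_⟩
  obtain ⟨⟨h1, h2⟩, h3⟩ := hn₁ n ((le_max_left _ _).trans hn)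
  have hn2 : 2 ≤ n := (le_max_right _ _).trans hn
  have hn0 : (0 : ℝ) < n := by positivity
  have hlog : 0 < Real.log n := lt_of_lt_of_le (by positivity) h3
  set x := (κ * Real.log n) ^ (1 / 3 : ℝ) with hx
  have hx3 : x ^ 3 = κ * Real.log n := by
    rw [hx, ← Real.rpow_natCast, ← Real.rpow_mul (by positivity)]
    norm_num
  have hx0 : 0 ≤ x := by rw [hx]; positivity
  have hx1 : 1 ≤ x := by
    rw [hx]
    apply Real.one_le_rpow _ (by norm_num)
    rw [div_le_iff₀ hκ0] at h3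
    linarith
  set m := ⌊x⌋₊ with hm
  have hmx : (m : ℝ) ≤ x := Nat.floor_le hx0
  have hm1 : 1 ≤ m := Nat.le_floor (by exact_mod_cast hx1)
  have hm1r : (1 : ℝ) ≤ m := by exact_mod_cast hm1
  have hm2 : x < m + 1 := Nat.lt_floor_add_one x
  have hm3 : x / 2 ≤ m := by linarith
  have hCm : C * m ≤ n := by
    have h4 : (C : ℝ) * m ≤ n := by
      rw [Real.rpow_one, one_div, ← div_eq_inv_mul, le_div_iff₀ hC0] at h1
      nlinarith
    exact_mod_cast h4
  refine ⟨m, hm1, hCm, ?_, ?_⟩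
  · intro D hD
    have key : D ^ 4 < 2 ^ m := by
      rcases Nat.eq_zero_or_pos D with h | h
      · rw [h]
        positivity
      · have hDr : (0 : ℝ) < D := by exact_mod_cast h
        have h5 : Real.log D < a * Real.log n ^ (1 / 3 : ℝ) := by
          rwa [Real.log_lt_iff_lt_exp hDr]
        have h6 : a * Real.log n ^ (1 / 3 : ℝ) = Real.log 2 / 8 * x := by
          rw [ha, hx, Real.mul_rpow hκ0.le hlog.le]
          ring
        have h7 : 4 * Real.log D < m * Real.log 2 := by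
          rw [h6] at h5
          nlinarith
        have h8 : (D : ℝ) ^ 4 < (2 : ℝ) ^ m := by
          rw [← Real.log_lt_log_iff (by positivity) (by positivity), Real.log_pow, Real.log_pow]
          push_cast
          exact h7
        exact_mod_cast h8
    rw [pow_mul, pow_mul]
    exact Nat.pow_lt_pow_left key (by omega)
  · have h4 : (m : ℝ) ^ 3 ≤ κ * Real.log n := by
      rw [← hx3]
      exact pow_le_pow_left₀ (by positivity) hmx 3
    have h5 : (n : ℝ) ^ (-(δ / 2)) ≤ Real.exp (-(2 * C * (m : ℝ) ^ 3)) := by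
      rw [Real.rpow_def_of_pos hn0]
      apply Real.exp_le_exp.2
      have h6 : 2 * C * (m : ℝ) ^ 3 ≤ 2 * C * (κ * Real.log n) :=
        mul_le_mul_of_nonneg_left h4 (by positivity)
      have h7 : 2 * C * (κ * Real.log n) = Real.log n * (δ / 2) := by
        rw [hκ]
        field_simp
        ring
      linarith
    have h6 : (n : ℝ) / (2 * m) ≤ ((n / m : ℕ) : ℝ) := by
      have h7 : n < m * (n / m + 1) := Nat.lt_mul_div_succ n (by omega)
      have h8 : (n : ℝ) < m * (((n / m : ℕ) : ℝ) + 1) := by exact_mod_cast h7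
      have h9 : 2 * m ≤ n := (Nat.mul_le_mul_right m hC).trans hCm
      have h10 : 1 ≤ n / m := (Nat.one_le_div_iff (by omega)).2 (by omega)
      have h11 : (1 : ℝ) ≤ ((n / m : ℕ) : ℝ) := by exact_mod_cast h10
      rw [div_le_iff₀ (by positivity)]
      nlinarith
    have h7 : 4 * (m : ℝ) ≤ (n : ℝ) ^ (δ / 2) := by
      have := hmx.trans h2
      linarith
    calc 2 * (n : ℝ) ^ (1 - δ) = 2 * ((n : ℝ) * (n : ℝ) ^ (-(δ / 2)) * (n : ℝ) ^ (-(δ / 2))) := by
          congr 1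
          nth_rw 2 [← Real.rpow_one (n : ℝ)]
          rw [← Real.rpow_add hn0, ← Real.rpow_add hn0]
          congr 1
          ring
      _ ≤ (n : ℝ) ^ (-(δ / 2)) * ((n : ℝ) / (2 * m)) := by
          have h8 : (n : ℝ) ^ (-(δ / 2)) * (n : ℝ) ^ (δ / 2) = 1 := by
            rw [← Real.rpow_add hn0]
            simp
          have h9 : 0 < (n : ℝ) ^ (-(δ / 2)) := by positivity
          rw [mul_div_assoc', le_div_iff₀ (by positivity)]
          have h10 : (n : ℝ) ^ (-(δ / 2)) * (4 * m) ≤ 1 := by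
            rw [← h8]
            exact mul_le_mul_of_nonneg_left h7 h9.le
          calc 2 * ((n : ℝ) * (n : ℝ) ^ (-(δ / 2)) * (n : ℝ) ^ (-(δ / 2))) * (2 * m)
              = (n : ℝ) ^ (-(δ / 2)) * n * ((n : ℝ) ^ (-(δ / 2)) * (4 * m)) := by ring
            _ ≤ (n : ℝ) ^ (-(δ / 2)) * n * 1 := mul_le_mul_of_nonneg_left h10 (by positivity)
            _ = (n : ℝ) ^ (-(δ / 2)) * n := mul_one _
      _ ≤ Real.exp (-(2 * C * (m : ℝ) ^ 3)) * ((n / m : ℕ) : ℝ) :=
          mul_le_mul h5 h6 (by positivity) (Real.exp_pos _).le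

end Pool.Agent.Q234.PL.Nu2
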