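import Pool.Agent.Q234.PL.Stm
import Pool.Agent.H4R2.Defs

/-!
# Project PL, part two: overlaps and local reduced states

Statements with complete proofs in the docstrings.
-/

set_option autoImplicit false

open scoped BigOperators Matrix
open Finset Pool.Agent.TH235.PP

namespace Pool.Agent.Q234.PL

/-- `pa p t` replaces the block part of `t` by `p`, `re t` is the block part of `t` -/
structure IsPaste {P α : Type} (pa : P → α → α) (re : α → P) : Prop where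
  pp : ∀ p q t, pa p (pa q t) = pa p t
  re_pa : ∀ p t, re (pa p t) = p
  pa_re : ∀ t, pa (re t) t = t

/-- the block configuration `p` on the block `[0, m) × [y, y + m)` of the torus, `t` elsewhere -/
def tpasteAt {L m : ℕ} (y : ℕ) (p : Fin m × Fin m → Fin 2) (t : Site L → Fin 2) : Site L → Fin 2 :=
  fun x => if h : x.1.val < m ∧ y ≤ x.2.val ∧ x.2.val < y + m then
    p (⟨x.1.val, h.1⟩, ⟨x.2.val - y, by omega⟩) else t x

/-- Overlap. PROOF. (0) Averaging: for `F : α → ℂ` (or real), `∑_t ∑_p F (pa p t) = |P| ∑_t F t`, because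
each `s` is `pa p t` for exactly `|P|` pairs, namely `p = re s` and `t = pa q s`, `q ∈ P` (if `pa p t = s`
then `p = re s` and `t = pa (re t) t = pa (re t) (pa p t) = pa (re t) s`).
(1) One block: let `φ : α → ℂ` with `∑_p v p φ (pa p t) = 0` for all `t`, `v ≠ 0`, `‖v‖² = ∑ ‖v p‖²`. Put
`w t = ∑_p v p ψ (pa p t)` (so `w (pa q t) = w t`) and `ξ t = conj (v (re t)) w t / ‖v‖²`. By (0)
`|P| ip φ ξ = ∑_t w t / ‖v‖² * ∑_p conj (φ (pa p t)) conj (v p) = 0`, and in the same way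
`|P| ip ξ ψ = ∑_t conj (w t) / ‖v‖² * ∑_p v p ψ (pa p t) = ∑_t |w t|² / ‖v‖²`,
`|P| normSq ξ = ∑_t |w t|² / ‖v‖²`. So `normSq (ψ - ξ) = normSq ψ - ∑ |w t|² / (|P| ‖v‖²) ≤ 1 - η` and
`|ip φ ψ|² = |ip φ (ψ - ξ)|² ≤ (1 - η) normSq φ`.
(2) Induction on `G`; `G = 0` is Cauchy-Schwarz. Step: write `x = (x₀, x')` (`Fin.cons`). Let
`Φ' (x', c) = ∑_{x₀} conj (ψ x₀) φ (x₀, x', c)`. By (1) for fixed `(x', c)` (and the conjugate):
`|Φ' (x', c)|² ≤ (1 - η) ∑_{x₀} |φ (x₀, x', c)|²`, so `normSq Φ' ≤ (1 - η) normSq φ`. `Φ'` has the kernel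
property for the blocks `1, ..., G - 1` (the sum over `p` commutes with the one over `x₀`), and
`ip φ (⊗ ψ ⊗ χ) = ip Φ' (⊗' ψ ⊗ χ)`. (`1 - η ≥ 0` if there is a block: apply the hypothesis and
Cauchy-Schwarz to `v b ≠ 0`; or because `normSq (ψ - ξ) ≥ 0`.) -/
def Overlap : Prop := ∀ (G : ℕ) (P α β : Type) [Fintype P] [Fintype α] [Fintype β]
  (pa : P → α → α) (re : α → P), IsPaste pa re → ∀ (ψ : α → ℂ) (χ : β → ℂ) (η : ℝ),
  normSq ψ = 1 → 0 ≤ η →
  (∀ v : P → ℂ, η * Fintype.card P * ∑ p, ‖v p‖ ^ 2 ≤ ∑ t, ‖∑ p, v p * ψ (pa p t)‖ ^ 2) →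
  ∀ (φ : (Fin G → α) × β → ℂ) (v : Fin G → P → ℂ), (∀ b, v b ≠ 0) →
  (∀ b t c, ∑ p, v b p * φ (Function.update t b (pa p (t b)), c) = 0) →
  ‖ip φ (fun x => (∏ b, ψ (x.1 b)) * χ x.2)‖ ^ 2 ≤ (1 - η) ^ G * normSq φ * normSq χ

/-- TorusOverlap. PROOF from Overlap, TensorBound. Rows: `t_y = fun x => t (x, y)`. The rows
`b m + j`, `j < m`, form the group `b < G` (`G m ≤ N + 1`; `Fin (N+1) ≃ (Fin G × Fin m) ⊕ Fin (N+1-Gm)` by
`finProdFinEquiv`, `finSumFinEquiv`). Apply Overlap to `P = Fin m × Fin m → Fin 2`, `α = Fin m → Cf N`,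
`β = Fin (N+1-G m) → Cf N`, `pa p t = fun j => paste (fun i => p (i, j)) (t j)`,
`re t = fun (i, j) => t j i` (`m ≤ N + 1`), `ψ t = ∏_j Ψ (t j)`, `χ = ∏ Ψ`, `η = g^m / 2^(m²)`; the bound for
`ψ` is TensorBound for `K j b a = Ψ (paste a b)` as in TorusBlock; `|P| = 2^(m²)`,
`normSq ψ = 1 = normSq χ`. `tpasteAt (b m) p t` changes the rows of the group `b` only, in the way of
`pa`. `‖ip φ (rowProd Ψ)‖` is the same number along the equivalence. -/
def TorusOverlap : Prop := ∀ (N m G : ℕ) (Ψ : Cf N → ℂ) (g : ℝ), G * m ≤ N + 1 → m ≤ N + 1 → 0 ≤ g →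
  normSq Ψ = 1 →
  (∀ v : (Fin m → Fin 2) → ℂ, g * ∑ p, ‖v p‖ ^ 2 ≤ ∑ t : Cf N, ‖∑ p, v p * Ψ (paste p t)‖ ^ 2) →
  ∀ (φ : (Site (N + 1) → Fin 2) → ℂ) (v : Fin G → (Fin m × Fin m → Fin 2) → ℂ), (∀ b, v b ≠ 0) →
  (∀ (b : Fin G) (t : Site (N + 1) → Fin 2), ∑ p, v b p * φ (tpasteAt (b * m) p t) = 0) →
  ‖ip φ (rowProd Ψ)‖ ^ 2 ≤ (1 - g ^ m / 2 ^ (m * m)) ^ G * normSq φ

/-- PepsKernelAt. PROOF from PepsKernel by a translation: if `φ = contract A` then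
`φ' s = φ (fun x => s (x.1, x.2 - y))` is the contraction of `A' x = A (x.1, x.2 + y)` (reindex the sums
over `h, v` and the product), and `tpasteAt y p t` is the translate of `tpaste p` of the translate of
`t` (`y + m ≤ L`: no wrap, `(x.2 - y).val = x.2.val - y` if `y ≤ x.2.val`; the values of `t` on the block
do not matter). -/
def PepsKernelAt : Prop := ∀ (L m D y : ℕ) [NeZero L] (φ : (Site L → Fin 2) → ℂ), m < L → y + m ≤ L →
  D ^ (4 * m) < 2 ^ (m * m) → IsPEPS D φ →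
  ∃ v : (Fin m × Fin m → Fin 2) → ℂ, v ≠ 0 ∧ ∀ t, ∑ p, v p * φ (tpasteAt y p t) = 0

/-- TraceDual. PROOF. Let `e_i` be the orthonormal eigenbasis of `Xᴴ X` used in `traceNorm`, with the
eigenvalues `μ_i`; `‖X e_i‖² = ⟨e_i, Xᴴ X e_i⟩ = μ_i`. `tr (B X) = ∑_i ⟨e_i, B X e_i⟩` and
`|⟨e_i, B X e_i⟩| ≤ ‖X e_i‖ = sqrt μ_i` for a contraction `B` (Cauchy-Schwarz). -/
def TraceDual : Prop := ∀ (n : Type) [Fintype n] [DecidableEq n] (B X : Matrix n n ℂ),
  (∀ φ, normSq (B *ᵥ φ) ≤ normSq φ) → ‖(B * X).trace‖ ≤ Pool.Agent.H4R2.traceNorm X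

/-- the box `[0, n)²` -/
noncomputable def box (n : ℕ) : Finset (ℤ × ℤ) := (Finset.Ico (0 : ℤ) n) ×ˢ (Finset.Ico (0 : ℤ) n)

/-- LocalBound. PROOF from TraceDual. Let `a` denote configurations of the box `[0, n)²` and `o`
configurations of its complement in the torus (`n ≤ L`, `toTorus` is injective on the box). For a vector
`θ` on the torus, `rdm(θ) a a' = ∑_o θ(a, o) conj θ(a', o)`. The blocks `[0, m) × [b m, b m + m)`, `b < G`, are
inside the box (`G m ≤ n`, `m ≤ n`). Let `V` be the space of all `u : (box configurations) → ℂ` with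
`∑_p v b p u (p pasted into a on the block b) = 0` for all `b < G` and all `a`, and `B` the orthogonal
projection onto `V` (a Hermitian idempotent matrix; a contraction). `Φ (·, o) ∈ V` for every `o`, so
`tr (B rdm Φ) = ∑_o ⟨Φ(·,o), B Φ(·,o)⟩ = normSq Φ` and `tr (B redState Φ) = 1`. Let `θ = (B ⊗ 1) Ψ`, i.e.
`θ (·, o) = B Ψ(·, o)`; `θ` has the kernel property on the torus, and
`normSq θ = ∑_o ⟨Ψ(·,o), B Ψ(·,o)⟩ = ip θ Ψ = tr (B redState Ψ)` (`normSq Ψ = 1`). By hypothesis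
`(normSq θ)² = ‖ip θ Ψ‖² ≤ q normSq θ`, so `normSq θ ≤ q` (`q ≥ 0`). The matrix `1 - 2 B` is unitary (a
contraction), and both reduced states have trace one. Hence
`2 (1 - q) ≤ 2 tr (B (redState Φ - redState Ψ)) = tr ((1 - 2 B) (redState Ψ - redState Φ)) ≤
traceNorm (redState Ψ - redState Φ)`. -/
def LocalBound : Prop := ∀ (L n m G : ℕ) [NeZero L] (Ψ Φ : (Site L → Fin 2) → ℂ) (q : ℝ)
  (v : Fin G → (Fin m × Fin m → Fin 2) → ℂ), n ≤ L → m ≤ n → G * m ≤ n → 0 ≤ q →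
  normSq Ψ = 1 → Φ ≠ 0 →
  (∀ (b : Fin G) (t : Site L → Fin 2), ∑ p, v b p * Φ (tpasteAt (b * m) p t) = 0) →
  (∀ θ : (Site L → Fin 2) → ℂ,
    (∀ (b : Fin G) (t : Site L → Fin 2), ∑ p, v b p * θ (tpasteAt (b * m) p t) = 0) →
    ‖ip θ Ψ‖ ^ 2 ≤ q * normSq θ) →
  2 * (1 - q) ≤ Pool.Agent.H4R2.traceNorm
    (Pool.Agent.H4R2.redState (box n) Ψ - Pool.Agent.H4R2.redState (box n) Φ)

/-- the two sites `(0, 0)` and `(1, 0)` -/
def pair : Finset (ℤ × ℤ) := {(0, 0), (1, 0)}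

/-- the interaction `- Z_(0,0) - λ X_(0,0) X_(1,0)` on the two sites `(0, 0)` and `(1, 0)` -/
noncomputable def isingPair (lam : ℝ) : Matrix (pair → Fin 2) (pair → Fin 2) ℂ := fun p q =>
  (if p = q then -(sgn (p ⟨(0, 0), by simp [pair]⟩)) else 0) -
    if q = (fun x => p x + 1) then (lam : ℂ) else 0

/-- HamEq. The Hamiltonian of the other library (interactions on finite subsets of `ℤ²`) is the same
matrix. PROOF: compare the terms at `u`; for `L ≥ 2` both are `- Z_u - lam X_u X_(u + (1,0))`: if `s = t` off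
the (2×2 box / pair) at `u`, ... ; both vanish unless `s = t` off `{u, u + (1, 0)}` and then either `s = t`
or `s` and `t` differ at both sites. -/
def HamEq : Prop := ∀ (L : ℕ) [NeZero L] (lam : ℝ), 2 ≤ L →
  Pool.Agent.H4R2.ham pair (isingPair lam) L = ham (ising lam) L

end Pool.Agent.Q234.PL
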