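import Pool.Agent.Q234.PL.FT
import Pool.Agent.Q234.PL.Nu2
import Pool.Agent.Q234.PL.Stm2

/-!
# Overlaps and local reduced states: the final theorems from the statements
-/

set_option autoImplicit false

open scoped BigOperators Matrix
open Finset Pool.Agent.TH235.PP

namespace Pool.Agent.Q234.PL.FO

open Pool.Agent.Q234.PL.Rg Pool.Agent.Q234.PL.Fin' Pool.Agent.Q234.PL.FT

/-- the constants of a block -/
theorem consts {lam : ℝ} (h0 : 0 < lam) (h1 : lam < 1) {m C : ℕ}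
    (hb : 4 ^ m * (1 + 4 * kap m lam) ^ (4 * m) ≤ Real.exp (2 * C * m ^ 2)) :
    let g := (2 ^ m * (1 + 4 * kap m lam) ^ (4 * m))⁻¹
    0 < g ∧ 0 ≤ 1 - g ^ m / 2 ^ (m * m) ∧
      1 - g ^ m / 2 ^ (m * m) ≤ 1 - Real.exp (-(2 * C * (m : ℝ) ^ 3)) := by
  intro g
  have hκ : 0 ≤ kap m lam := by
    unfold kap hh
    have : 0 < 1 - lam := by linarith
    positivity
  have hg : g = (2 ^ m * (1 + 4 * kap m lam) ^ (4 * m))⁻¹ := rfl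
  set G := (1 + 4 * kap m lam) ^ (4 * m) with hG
  have hG1 : 1 ≤ G := by rw [hG]; exact one_le_pow₀ (by linarith)
  have hG0 : 0 < G := by linarith
  have e : g ^ m / 2 ^ (m * m) = ((4 ^ m * G) ^ m)⁻¹ := by
    have h4 : (4 ^ m * G) ^ m = 2 ^ (m * m) * (2 ^ m * G) ^ m := by
      rw [mul_pow, mul_pow, show (4 : ℝ) = 2 * 2 by norm_num, mul_pow, mul_pow, ← pow_mul]
      ring
    rw [h4, hg, inv_pow, mul_inv, div_eq_mul_inv, mul_comm]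
  have h5 : (4 ^ m * G) ^ m ≤ Real.exp (2 * C * (m : ℝ) ^ 3) := by
    calc (4 ^ m * G) ^ m ≤ Real.exp (2 * C * m ^ 2) ^ m := pow_le_pow_left₀ (by positivity) hb m
      _ = Real.exp (2 * C * (m : ℝ) ^ 3) := by
        rw [← Real.exp_nat_mul]
        congr 1
        ring
  have h6 : 1 ≤ (4 ^ m * G) ^ m := by
    apply one_le_pow₀
    have h7 : (1 : ℝ) ≤ 4 ^ m := one_le_pow₀ (by norm_num)
    nlinarith
  refine ⟨by rw [hg]; positivity, ?_, ?_⟩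
  · rw [e, sub_nonneg]
    exact inv_le_one_of_one_le₀ h6
  · rw [e, Real.exp_neg]
    have := inv_anti₀ (by positivity) h5
    linarith

/-- the block property of the row states -/
theorem row_block (hRow : Row) {lam : ℝ} (h0 : 0 < lam) (h1 : lam < 1) {N m : ℕ} (hm : 1 ≤ m)
    (h2m : 2 * m ≤ N + 1) (hs : 6 * m * lam ^ (N + 1 - 2 * m) ≤ hh m lam * (1 - lam))
    {R : Matrix (Fin (N + 1)) (Fin (N + 1)) ℝ} {Ψ : Cf N → ℂ} (hR : RootOf N (-1) lam R)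
    (hΨ : normSq Ψ = 1) (ha : ∀ w, annih R w *ᵥ Ψ = 0) (v : (Fin m → Fin 2) → ℂ) :
    (2 ^ m * (1 + 4 * kap m lam) ^ (4 * m))⁻¹ * ∑ p, ‖v p‖ ^ 2 ≤
      ∑ t : Cf N, ‖∑ p, v p * Ψ (paste p t)‖ ^ 2 := by
  have hκ : 0 ≤ kap m lam := by
    unfold kap hh
    have : 0 < 1 - lam := by linarith
    positivity
  rw [inv_mul_le_iff₀ (by positivity)]
  exact hRow N m lam R Ψ h0 h1 hm h2m hs hR hΨ ha v

theorem pow_le_exp {η : ℝ} (h : 0 ≤ 1 - η) (G : ℕ) : (1 - η) ^ G ≤ Real.exp (-(η * G)) := by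
  have h1 : 1 - η ≤ Real.exp (-η) := by
    have := Real.add_one_le_exp (-η)
    linarith
  calc (1 - η) ^ G ≤ Real.exp (-η) ^ G := pow_le_pow_left₀ h h1 G
    _ = Real.exp (-(η * G)) := by
      rw [← Real.exp_nat_mul]
      congr 1
      ring

/-- the squared overlap of a vector with kernel vectors with the ground state -/
theorem overlap_le (hRow : Row) (hTO : TorusOverlap) {lam : ℝ}
    (h0 : 0 < lam) (h1 : lam < 1) {N m C G : ℕ} (hC : 2 ≤ C) (hm : 1 ≤ m) (hCm : C * m ≤ N + 1)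
    (hGm : G * m ≤ N + 1)
    (hs : 6 * m * lam ^ (N + 1 - 2 * m) ≤ hh m lam * (1 - lam))
    (hb : 4 ^ m * (1 + 4 * kap m lam) ^ (4 * m) ≤ Real.exp (2 * C * m ^ 2))
    {R : Matrix (Fin (N + 1)) (Fin (N + 1)) ℝ} {Ψ : Cf N → ℂ} (hR : RootOf N (-1) lam R)
    (hΨ : normSq Ψ = 1) (ha : ∀ w, annih R w *ᵥ Ψ = 0)
    (φ : (Site (N + 1) → Fin 2) → ℂ) (v : Fin G → (Fin m × Fin m → Fin 2) → ℂ) (hv : ∀ b, v b ≠ 0)
    (hφ : ∀ (b : Fin G) (t : Site (N + 1) → Fin 2), ∑ p, v b p * φ (tpasteAt (b * m) p t) = 0) :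
    ‖ip φ (rowProd Ψ)‖ ^ 2 ≤ Real.exp (-(Real.exp (-(2 * C * (m : ℝ) ^ 3)) * G)) * normSq φ := by
  have h2m : 2 * m ≤ N + 1 := (Nat.mul_le_mul_right m hC).trans hCm
  obtain ⟨hg0, hη0, hη1⟩ := consts h0 h1 hb
  have h3 := hTO N m G Ψ _ hGm (by omega) hg0.le hΨ (row_block hRow h0 h1 hm h2m hs hR hΨ ha) φ v hv hφ
  refine h3.trans (mul_le_mul_of_nonneg_right ?_ (normSq_nonneg _))
  refine (pow_le_pow_left₀ hη0 hη1 G).trans (pow_le_exp ?_ G)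
  linarith

/-- the theorem on overlaps -/
theorem overlap (hRing : Ring) (hRow : Row) (hTO : TorusOverlap) (hTH : TorusHam)
    (hTB : TorusBlock) (hPK : PepsKernel) (hPA : PepsKernelAt) (hD : Dist) (hNum : Num) (lam : ℝ)
    (h0 : 0 < lam) (h1 : lam < 1) :
    ∃ Ψ : ∀ L : ℕ, (Site L → Fin 2) → ℂ,
    (∀ (L : ℕ) [NeZero L], 2 ≤ L → normSq (Ψ L) = 1 ∧
      IsGappedGround (ham (ising lam) L) (2 * (1 - lam)) (Ψ L)) ∧
    (∀ δ : ℝ, 0 < δ → ∃ a : ℝ, 0 < a ∧ ∃ L₀ : ℕ, ∀ (L : ℕ) [NeZero L], L₀ ≤ L →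
      ∀ (D : ℕ) (φ : (Site L → Fin 2) → ℂ), IsPEPS D φ →
        (D : ℝ) < Real.exp (a * Real.log L ^ (1 / 3 : ℝ)) →
        ‖ip φ (Ψ L)‖ ≤ Real.exp (-(L : ℝ) ^ (1 - δ)) * Real.sqrt (normSq φ)) ∧
    (∃ a T₀ : ℝ, 0 < a ∧ 0 < T₀ ∧ ∀ (L : ℕ) [NeZero L], 2 ≤ L → ∀ T : ℝ, T₀ ≤ T → T ≤ a * L ^ 3 →
      ∀ (D : ℕ) (φ : (Site L → Fin 2) → ℂ), IsPEPS D φ → Real.sqrt (normSq (φ - Ψ L)) ≤ Real.exp (-T) →
        Real.exp (a * T ^ (1 / 3 : ℝ)) ≤ D) ∧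
    ∀ δ : ℝ, 0 < δ → ∃ a : ℝ, 0 < a ∧ ∃ n₀ : ℕ, 2 ≤ n₀ ∧ ∀ n : ℕ, n₀ ≤ n →
      ∀ (L : ℕ) [NeZero L], n < L → ∃ m G : ℕ, m ≤ n ∧ G * m ≤ n ∧ m < L ∧
        (∀ D : ℕ, (D : ℝ) < Real.exp (a * Real.log n ^ (1 / 3 : ℝ)) → D ^ (4 * m) < 2 ^ (m * m)) ∧
        ∀ (θ : (Site L → Fin 2) → ℂ) (v : Fin G → (Fin m × Fin m → Fin 2) → ℂ), (∀ b, v b ≠ 0) →
          (∀ (b : Fin G) (t : Site L → Fin 2), ∑ p, v b p * θ (tpasteAt (b * m) p t) = 0) →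
          ‖ip θ (Ψ L)‖ ^ 2 ≤ Real.exp (-(2 * (n : ℝ) ^ (1 - δ))) * normSq θ := by
  obtain ⟨C, hC, hC2⟩ := hNum lam h0 h1
  have hex : ∀ N : ℕ, ∃ Ψ : Cf N → ℂ, 1 ≤ N → ∃ R E, RootOf N (-1) lam R ∧
      IsGround (ringH lam N) E (2 * (1 - lam)) Ψ ∧ ∀ w, annih R w *ᵥ Ψ = 0 := by
    intro N
    by_cases hN : 1 ≤ N
    · obtain ⟨R, E, Ψ, h⟩ := hRing N lam hN h0.le h1
      exact ⟨Ψ, fun _ => ⟨R, E, h⟩⟩
    · exact ⟨fun _ => 0, fun h => absurd h hN⟩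
  choose ψ hψ using hex
  let Ψ : ∀ L : ℕ, (Site L → Fin 2) → ℂ := fun L =>
    match L with
    | 0 => fun _ => 0
    | N + 1 => rowProd (ψ N)
  have hblock : ∀ δ : ℝ, 0 < δ → ∃ a : ℝ, 0 < a ∧ ∃ n₀ : ℕ, 2 ≤ n₀ ∧ ∀ n : ℕ, n₀ ≤ n →
      ∀ (L : ℕ) [NeZero L], n ≤ L → ∃ m G : ℕ, 1 ≤ m ∧ 2 * m ≤ n ∧ G * m ≤ n ∧
        (∀ D : ℕ, (D : ℝ) < Real.exp (a * Real.log n ^ (1 / 3 : ℝ)) → D ^ (4 * m) < 2 ^ (m * m)) ∧
        ∀ (θ : (Site L → Fin 2) → ℂ) (v : Fin G → (Fin m × Fin m → Fin 2) → ℂ), (∀ b, v b ≠ 0) →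
          (∀ (b : Fin G) (t : Site L → Fin 2), ∑ p, v b p * θ (tpasteAt (b * m) p t) = 0) →
          ‖ip θ (Ψ L)‖ ^ 2 ≤ Real.exp (-(2 * (n : ℝ) ^ (1 - δ))) * normSq θ := by
    intro δ hδ
    obtain ⟨a, ha0, n₀, hn₀, ha⟩ := Nu2.numer C hC δ hδ
    refine ⟨a, ha0, n₀, hn₀, fun n hn L _ hnL => ?_⟩
    obtain ⟨m, hm1, hm2, hm3, hm4⟩ := ha n hn
    have h2m : 2 * m ≤ n := (Nat.mul_le_mul_right m hC).trans hm2
    refine ⟨m, n / m, hm1, h2m, Nat.div_mul_le_self n m, hm3, ?_⟩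
    intro θ v hv hθ
    obtain ⟨N, rfl⟩ : ∃ N, L = N + 1 := ⟨L - 1, by omega⟩
    obtain ⟨R, E, hR, hg, han⟩ := hψ N (by omega)
    have h5 := overlap_le hRow hTO h0 h1 hC hm1 (hm2.trans hnL)
      ((Nat.div_mul_le_self n m).trans hnL) ((hC2 m hm1).1 N (hm2.trans hnL)) (hC2 m hm1).2
      hR hg.1 han θ v hv hθ
    refine h5.trans (mul_le_mul_of_nonneg_right (Real.exp_le_exp.2 ?_) (normSq_nonneg _))
    linarith
  refine ⟨Ψ, ?_, ?_, ?_, ?_⟩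
  · intro L _ hL
    obtain ⟨N, rfl⟩ : ∃ N, L = N + 1 := ⟨L - 1, by omega⟩
    obtain ⟨R, E, hR, hg, ha⟩ := hψ N (by omega)
    obtain ⟨h2, h3⟩ := hTH N lam E (2 * (1 - lam)) (ψ N) (by omega) (by linarith) hg
    refine ⟨h3, ?_⟩
    convert h2
  · intro δ hδ
    obtain ⟨a, ha0, n₀, hn₀, ha⟩ := hblock δ hδ
    refine ⟨a, ha0, n₀, fun L _ hL D φ hφ hD' => ?_⟩
    obtain ⟨m, G, hm1, h2m, hGm, hm3, hm4⟩ := ha L hL L le_rfl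
    have hDm := hm3 D hD'
    have hker : ∀ b : Fin G, ∃ v : (Fin m × Fin m → Fin 2) → ℂ, v ≠ 0 ∧
        ∀ t, ∑ p, v p * φ (tpasteAt (b * m) p t) = 0 := by
      intro b
      refine hPA L m D (b * m) φ (by omega) ?_ hDm hφ
      have h6 : ((b : ℕ) + 1) * m ≤ G * m := Nat.mul_le_mul_right m b.2
      rw [add_mul, one_mul] at h6
      omega
    choose v hv0 hv using hker
    have h7 := hm4 φ v hv0 hv
    have h8 : ‖ip φ (Ψ L)‖ ^ 2 ≤ (Real.exp (-(L : ℝ) ^ (1 - δ)) * Real.sqrt (normSq φ)) ^ 2 := by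
      rw [mul_pow, Real.sq_sqrt (normSq_nonneg _), ← Real.exp_nat_mul]
      refine h7.trans (le_of_eq ?_)
      congr 2
      push_cast
      ring
    exact (abs_le_of_sq_le_sq' h8 (by positivity)).2
  · obtain ⟨a, ha0, ha⟩ := Fin'.numer 3 C (by norm_num) hC
    have hC0 : (0 : ℝ) < C := by
      have : 0 < C := by omega
      exact_mod_cast this
    refine ⟨a, 2 * C, ha0, by positivity, ?_⟩
    intro L _ hL T hT1 hT2 D φ hφ hdist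
    obtain ⟨m, hm1, hm2, hm3, hm4⟩ := ha L T hT1 hT2
    by_cases hDm : D ^ (4 * m) < 2 ^ (m * m)
    · exfalso
      obtain ⟨N, rfl⟩ : ∃ N, L = N + 1 := ⟨L - 1, by omega⟩
      obtain ⟨R, E, hR, hg, han⟩ := hψ N (by omega)
      have hφ' : IsPEPS D φ := by convert hφ
      have h5 := torus_bound hRow hTB hPK hD h0 h1 hC hm1 hm2 ((hC2 m hm1).1 N hm2) (hC2 m hm1).2
        hR hg.1 han D φ hφ' hDm
      have hT0 : 0 < T := by linarith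
      exact contra hT0 (normSq_nonneg _) hdist h5 hm3
    · have h6 := hm4 D (pow_cases hm1 hDm)
      have e : ((1 : ℝ) / ((3 : ℕ) : ℝ)) = 1 / 3 := by norm_num
      rw [e] at h6
      exact h6
  · intro δ hδ
    obtain ⟨a, ha0, n₀, hn₀, ha⟩ := hblock δ hδ
    refine ⟨a, ha0, n₀, hn₀, fun n hn L _ hnL => ?_⟩
    obtain ⟨m, G, hm1, h2m, hGm, hm3, hm4⟩ := ha n hn L hnL.le
    exact ⟨m, G, by omega, hGm, by omega, hm3, hm4⟩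

end Pool.Agent.Q234.PL.FO
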