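import Pool.Agent.Q234.PL.Rg

/-!
# The final estimates
-/

set_option autoImplicit false

open scoped BigOperators Matrix
open Finset Pool.Agent.TH235.PP

namespace Pool.Agent.Q234.PL.Fin'

open Pool.Agent.Q234.PL.Rg

/-- the numerical part of both final theorems: `e` is `3` or `2`, the bond dimension satisfies
`2 ^ m ≤ D ^ 4`. -/
theorem numer (e C : ℕ) (he : 1 ≤ e) (hC : 2 ≤ C) : ∃ a : ℝ, 0 < a ∧ ∀ (L : ℕ) (T : ℝ),
    2 * (C : ℝ) ≤ T → T ≤ a * (L : ℝ) ^ e → ∃ m : ℕ, 1 ≤ m ∧ C * m ≤ L ∧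
      2 * (C : ℝ) * (m : ℝ) ^ e ≤ T ∧ ∀ D : ℕ, 2 ^ m ≤ D ^ 4 → Real.exp (a * T ^ (1 / e : ℝ)) ≤ D := by
  have hC0 : (0 : ℝ) < C := by
    have : 0 < C := by omega
    exact_mod_cast this
  have he0 : (0 : ℝ) < e := by
    have : 0 < e := by omega
    exact_mod_cast this
  set a := min (2 * (C : ℝ) / (C : ℝ) ^ e) ((2 * (C : ℝ)) ^ (-(1 / e) : ℝ) * (Real.log 2 / 8)) with ha
  have hl2 : 0 < Real.log 2 := Real.log_pos one_lt_two
  have ha0 : 0 < a := by
    rw [ha]
    exact lt_min (by positivity) (by positivity)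
  refine ⟨a, ha0, fun L T hT1 hT2 => ?_⟩
  have hT0 : 0 < T := by linarith
  set x := (T / (2 * C)) ^ (1 / e : ℝ) with hx
  have hq1 : 1 ≤ T / (2 * C) := by
    rw [le_div_iff₀ (by positivity)]
    linarith
  have hx1 : 1 ≤ x := by
    rw [hx]
    exact Real.one_le_rpow hq1 (by positivity)
  have hxe : x ^ e = T / (2 * C) := by
    rw [hx, ← Real.rpow_natCast, ← Real.rpow_mul (by positivity)]
    rw [one_div, inv_mul_cancel₀ he0.ne', Real.rpow_one]
  set m := ⌊x⌋₊ with hm
  have hmx : (m : ℝ) ≤ x := Nat.floor_le (by linarith)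
  have hm1 : 1 ≤ m := by
    rw [hm]
    exact Nat.le_floor (by exact_mod_cast hx1)
  have hm2 : x < m + 1 := Nat.lt_floor_add_one x
  have hm3 : x / 2 ≤ m := by
    have : (1 : ℝ) ≤ m := by exact_mod_cast hm1
    linarith
  have hxL : x ≤ L / C := by
    have h1 : x ^ e ≤ (L / C : ℝ) ^ e := by
      rw [hxe, div_pow, div_le_div_iff₀ (by positivity) (by positivity)]
      have h2 : a ≤ 2 * (C : ℝ) / (C : ℝ) ^ e := min_le_left _ _
      have h3 : T ≤ 2 * (C : ℝ) / (C : ℝ) ^ e * (L : ℝ) ^ e :=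
        hT2.trans (mul_le_mul_of_nonneg_right h2 (by positivity))
      have h4 : T * (C : ℝ) ^ e ≤ 2 * (C : ℝ) / (C : ℝ) ^ e * (L : ℝ) ^ e * (C : ℝ) ^ e :=
        mul_le_mul_of_nonneg_right h3 (by positivity)
      refine h4.trans (le_of_eq ?_)
      field_simp
    exact le_of_pow_le_pow_left₀ (by omega) (by positivity) h1
  refine ⟨m, hm1, ?_, ?_, ?_⟩
  · have h1 : (m : ℝ) ≤ L / C := hmx.trans hxL
    rw [le_div_iff₀ hC0] at h1
    have h2 : ((C * m : ℕ) : ℝ) ≤ L := by
      push_cast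
      linarith
    exact_mod_cast h2
  · have h1 : (m : ℝ) ^ e ≤ x ^ e := pow_le_pow_left₀ (by positivity) hmx e
    rw [hxe, le_div_iff₀ (by positivity)] at h1
    linarith
  · intro D hD
    have hDpos : 0 < D := by
      rcases Nat.eq_zero_or_pos D with h | h
      · rw [h] at hD
        have : 0 < 2 ^ m := by positivity
        simp at hD
      · exact h
    have hDr : (0 : ℝ) < D := by exact_mod_cast hDpos
    have h1 : (2 : ℝ) ^ m ≤ (D : ℝ) ^ 4 := by exact_mod_cast hD
    have h2 : (m : ℝ) * Real.log 2 ≤ 4 * Real.log D := by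
      have := Real.log_le_log (by positivity) h1
      rwa [Real.log_pow, Real.log_pow] at this
    have h3 : a * T ^ (1 / e : ℝ) ≤ Real.log D := by
      have h4 : a ≤ (2 * (C : ℝ)) ^ (-(1 / e) : ℝ) * (Real.log 2 / 8) := min_le_right _ _
      have h5 : a * T ^ (1 / e : ℝ) ≤ (2 * (C : ℝ)) ^ (-(1 / e) : ℝ) * (Real.log 2 / 8) * T ^ (1 / e : ℝ) :=
        mul_le_mul_of_nonneg_right h4 (by positivity)
      have h6 : (2 * (C : ℝ)) ^ (-(1 / e) : ℝ) * T ^ (1 / e : ℝ) = x := by
        rw [hx, Real.div_rpow hT0.le (by positivity), Real.rpow_neg (by positivity)]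
        field_simp
      have h7 : (2 * (C : ℝ)) ^ (-(1 / e) : ℝ) * (Real.log 2 / 8) * T ^ (1 / e : ℝ) = x * Real.log 2 / 8 := by
        rw [← h6]; ring
      rw [h7] at h5
      nlinarith
    calc Real.exp (a * T ^ (1 / e : ℝ)) ≤ Real.exp (Real.log D) := Real.exp_le_exp.2 h3
      _ = D := Real.exp_log hDr

/-- from the quadratic form bound to eigenvalues -/
theorem gapped_of_ground {n : Type} [Fintype n] (H : Matrix n n ℂ) (hH : H.IsHermitian) (E Δ : ℝ)
    (hΔ : 0 < Δ) (Ψ : n → ℂ) (h : IsGround H E Δ Ψ) : IsGappedGround H Δ Ψ := by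
  obtain ⟨h1, h2, h3⟩ := h
  refine ⟨E, h2, ?_, ?_⟩
  · intro φ hφ
    have h4 := h3 φ
    rw [hφ, ip_smul_right, ip_self] at h4
    have h5 : ((E : ℂ) * (normSq φ : ℂ)).re = E * normSq φ := by
      rw [← Complex.ofReal_mul, Complex.ofReal_re]
    rw [h5] at h4
    have h6 : normSq φ - ‖ip Ψ φ‖ ^ 2 ≤ 0 := by
      by_contra h7
      push Not at h7
      have := mul_pos hΔ h7
      linarith
    refine ⟨ip Ψ φ, ?_⟩
    -- the difference has norm zero
    set c := ip Ψ φ with hc
    have h7 : ip Ψ (φ + (-c) • Ψ) = 0 := by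
      rw [ip_add_right, ip_smul_right, ip_self, h1, ← hc]
      push_cast
      ring
    have h8 : normSq φ = normSq (c • Ψ) + normSq (φ + (-c) • Ψ) := by
      have h9 : ip (c • Ψ) (φ + (-c) • Ψ) = 0 := by rw [ip_smul_left, h7, mul_zero]
      have := normSq_add_of_ip _ _ h9
      rw [← this]
      congr 1
      rw [neg_smul]
      abel
    have h9 : normSq (c • Ψ) = ‖c‖ ^ 2 := by
      have e : (normSq (c • Ψ) : ℂ) = ((‖c‖ ^ 2 : ℝ) : ℂ) := by
        rw [← ip_self, ip_smul_left, ip_smul_right, ip_self, h1, Complex.ofReal_one, mul_one,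
          ← Complex.normSq_eq_conj_mul_self, Complex.normSq_eq_norm_sq]
      exact_mod_cast e
    have h10 : normSq (φ + (-c) • Ψ) ≤ 0 := by linarith
    have h11 : normSq (φ + (-c) • Ψ) = 0 := le_antisymm h10 (normSq_nonneg _)
    unfold normSq at h11
    rw [Finset.sum_eq_zero_iff_of_nonneg (fun _ _ => by positivity)] at h11
    funext s
    have h12 := h11 s (Finset.mem_univ _)
    have h13 : (φ + (-c) • Ψ) s = 0 := by
      have := pow_eq_zero_iff (two_ne_zero) |>.1 h12
      exact norm_eq_zero.1 this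
    simp only [Pi.add_apply, Pi.smul_apply, smul_eq_mul] at h13 ⊢
    linear_combination h13
  · intro E' φ hφ0 hφ
    by_cases hE : E' = E
    · exact Or.inl hE
    · right
      have h4 : ip Ψ φ = 0 := by
        have e1 : ip Ψ (H *ᵥ φ) = (E' : ℂ) * ip Ψ φ := by rw [hφ, ip_smul_right]
        have e2 : ip Ψ (H *ᵥ φ) = (E : ℂ) * ip Ψ φ := by
          have := ip_mulVec H Ψ φ
          rw [hH.eq] at this
          rw [← this, h2, ip_smul_left, Complex.conj_ofReal]
        have e3 : ((E' : ℂ) - E) * ip Ψ φ = 0 := by rw [sub_mul, ← e1, ← e2, sub_self]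
        rcases mul_eq_zero.1 e3 with h | h
        · exfalso
          apply hE
          have : (E' : ℂ) = E := sub_eq_zero.1 h
          exact_mod_cast this
        · exact h
      have h5 := h3 φ
      rw [h4, norm_zero, hφ, ip_smul_right, ip_self, ← Complex.ofReal_mul, Complex.ofReal_re] at h5
      have h6 : 0 < normSq φ := by
        rcases (normSq_nonneg φ).lt_or_eq with h | h
        · exact h
        · exfalso
          apply hφ0
          unfold normSq at h
          have h' := h.symm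
          rw [Finset.sum_eq_zero_iff_of_nonneg (fun _ _ => by positivity)] at h'
          funext s
          exact norm_eq_zero.1 (pow_eq_zero_iff (two_ne_zero) |>.1 (h' s (Finset.mem_univ _)))
      have h7 : (E + Δ) * normSq φ ≤ E' * normSq φ := by nlinarith
      exact le_of_mul_le_mul_right h7 h6

end Pool.Agent.Q234.PL.Fin'
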