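import Pool.Agent.Q234.PL.Defs

/-!
# Project PL: every PEPS near the ground state has a large bond dimension

The statements of the jobs, with complete proofs in the docstrings. The relations were checked
numerically (`L = 2, 3, 4, 6`). `K = N + 1` is the number of the sites of the ring.
-/

set_option autoImplicit false

open scoped BigOperators Matrix
open Finset Pool.Agent.TH235.PP

namespace Pool.Agent.Q234.PL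

/-- JW. PROOF. `Zo` and the string `sg_j = ∏_{i<j} Z_i` are diagonal with real entries `±1`, `Xo j` is
a real symmetric permutation matrix, `Xo j * Xo j = 1`, the `Xo` commute; `Xo j * Zo i = Zo i * Xo j` for
`i ≠ j`, `Xo j * Zo j = -(Zo j * Xo j)` (the sign of the flipped spin changes). Hence `Xo j` commutes with
`sg_j` and `sg_i` for `i < j`, and anticommutes with `sg_i` for `i > j` and with `Po`. So `Ao j` is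
Hermitian of square one, for `i < j`: `Ao i * Ao j = sg_i X_i sg_j X_j = - sg_i sg_j X_i X_j` and
`Ao j * Ao i = sg_j X_j sg_i X_i = sg_i sg_j X_i X_j`. `Ao j * Zo j = -(Zo j * Ao j)`, and `Ao j`
commutes with `Zo i` for `i ≠ j`. So `Bo j = i A_j Z_j` is Hermitian (`(i A Z)ᴴ = -i Z A = i A Z`), its
square is `-(A Z A Z) = 1`; for `i ≠ j`: `B_i B_j = - A_i Z_i A_j Z_j = -A_i A_j Z_i Z_j` is
antisymmetric, `A_i B_j = i A_i A_j Z_j = - i A_j A_i Z_j = -i A_j Z_j A_i = - B_j A_i`; `i = j`: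
`A_j B_j = i Z_j`, `B_j A_j = i A_j Z_j A_j = - i Z_j`. `Po` is real diagonal with entries `±1`, it
anticommutes with `Xo j`, so with `Ao j` and `Bo j`. It is convenient to compute the entries:
`(Xo j * D) s t`, `(D * Xo j) s t` for diagonal `D`. -/
def JW : Prop := ∀ N : ℕ,
  IsMaj (Sum.elim (Ao (N := N)) (Bo (N := N))) ∧ (Po (N := N)).IsHermitian ∧ Po (N := N) * Po = 1 ∧
    (∀ j : Fin (N + 1), Po * Ao j = -(Ao j * Po)) ∧ ∀ j : Fin (N + 1), Po * Bo j = -(Bo j * Po)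

/-- RingId. The ring Hamiltonian is a quadratic form on each parity sector.
PROOF. (1) `- Z_j = i A_j B_j` (`A_j B_j = i Z_j`). (2) For `j < N` (no wrap; `x + 1` is the successor):
`X_j X_(j+1) = i A_(j+1) B_j`: `A_j A_(j+1) = sg_j X_j sg_(j+1) X_(j+1) = X_j Z_j X_(j+1)` since
`sg_(j+1) = sg_j Z_j`, so `i A_(j+1) B_j = i A_(j+1) i A_j Z_j = A_j A_(j+1) Z_j = X_j X_(j+1)`. So
`- lam X_j X_(j+1) = i (-lam) A_(j+1) B_j`. (3) `X_N X_0 = - i P A_0 B_N` for `N ≥ 1`: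
`A_0 = X_0`, `B_N = i sg_N X_N Z_N`, `P = sg_N Z_N`, `X_0 sg_N = - sg_N X_0` (as `0 < N`), so
`- i P A_0 B_N = P X_0 sg_N X_N Z_N = - sg_N Z_N sg_N X_0 X_N Z_N = - Z_N X_N Z_N X_0 = X_N X_0`. So
`- lam X_N X_0 = i lam P A_0 B_N = i lam A_0 B_N P` (`P` commutes with `A_0 B_N`). (4)
`(1 - lam • shiftM N ε) j l` is `1` for `j = l` (if `N ≥ 1`), `-lam` for `j = l + 1 ≠ 0`, `- lam ε` for
`j = 0, l = N`, else `0` (for `N ≥ 1` these cases are disjoint; for `N = 1` there are the entries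
`(1,0)` and `(0,1)`). As `P (1 + P) = 1 + P`, `P (1 - P) = -(1 - P)`, the two sides agree. -/
def RingId : Prop := ∀ (N : ℕ) (lam : ℝ), 1 ≤ N →
  ringH lam N = (1 / 2 : ℂ) • (qf (1 - lam • shiftM N (-1)) * (1 + Po)) +
    (1 / 2 : ℂ) • (qf (1 - lam • shiftM N 1) * (1 - Po))

/-- Vacuum. PROOF. Let `e_j` be an orthonormal basis of real eigenvectors of the symmetric matrix `Q`,
`Q e_j = q_j e_j`, `q_j ≥ q > 0`; `f_j = U e_j` is orthonormal as well, `U Q = ∑ q_j f_j e_jᵀ`. For real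
vectors put `A(f) = ∑ f_i A_i`, `B(e) = ∑ e_i B_i`; then `A(f) A(g) + A(g) A(f) = 2 (f·g)`, the same for
`B`, and `A(f) B(e) = - B(e) A(f)`. `qfo A B (U Q) = ∑_j q_j T_j`, `T_j = i A(f_j) B(e_j)`. The `T_j` are
Hermitian, of square one and commute. `P_j = (1 - T_j) / 2` are commuting orthogonal projections.
`Π = ∏_j P_j` is an orthogonal projection of trace one: `tr (∏_{j ∈ S} P_j) = 2^(K - |S|)` by induction,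
because `tr (Π_S T_j) = 0` for `j ∉ S`: `A(f_j)` commutes with the `T_i`, `i ≠ j`, and anticommutes with
`T_j`, so `tr (Π_S T_j) = tr (A(f_j) Π_S T_j A(f_j)) = - tr (Π_S T_j)`. So `Π φ = ⟨Ψ, φ⟩ Ψ` for a unit
vector `Ψ` (a Hermitian idempotent of trace one). `T_j Ψ = - Ψ`, thus `H Ψ = - ∑ q_j Ψ = - tr Q Ψ`, and
multiplying `i A(f_j) B(e_j) Ψ = - Ψ` by `A(f_j)`: `(A(f_j) + i B(e_j)) Ψ = 0`; by linearity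
`(A(U v) + i B(v)) Ψ = 0` for all real `v`. Finally `H + tr Q = ∑ q_j (1 + T_j) = 2 ∑ q_j (1 - P_j)`
and `∑ (1 - P_j) ≥ 1 - ∏ P_j` for commuting orthogonal projections (induction:
`1 - P P' = (1 - P) + P (1 - P') ≤ (1 - P) + (1 - P')`), so
`⟨φ, (H + tr Q) φ⟩ ≥ 2 q (‖φ‖² - |⟨Ψ, φ⟩|²)`. -/
def Vacuum : Prop := ∀ (n : Type) [Fintype n] [DecidableEq n] (K : ℕ) (A B : Fin K → Matrix n n ℂ),
  Fintype.card n = 2 ^ K → IsMaj (Sum.elim A B) → ∀ (U Q : Matrix (Fin K) (Fin K) ℝ) (q : ℝ),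
  Uᵀ * U = 1 → Qᵀ = Q → 0 < q → (∀ v, q * (v ⬝ᵥ v) ≤ v ⬝ᵥ (Q *ᵥ v)) →
  ∃ Ψ : n → ℂ, IsGround (qfo A B (U * Q)) (-Q.trace) (2 * q) Ψ ∧
    ∀ v : Fin K → ℝ, (∑ j, (((U *ᵥ v) j : ℝ) : ℂ) • A j +
      Complex.I • ∑ j, ((v j : ℝ) : ℂ) • B j) *ᵥ Ψ = 0

/-- AlSum. PROOF. (1) `al (n + 1) = centralBinom n / (4^n (2 n + 2)) > 0`. (2) With
`w_n = centralBinom n / 4^n`: `w_n - w_(n+1) = al (n + 1)` (`w_(n+1) = w_n (2n+1)/(2n+2)`,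
`Nat.succ_mul_centralBinom_succ`), so the partial sums telescope: `∑_{n<k} al (n+1) = 1 - w_k ≤ 1`.
(3) `∑_{i+j=n} ac i ac j` is `1, -1, 0, 0, ...`: `al (n + 1) = catalan n / (2 4^n)`, and for `n ≥ 2`
the sum is `-2 al n + ∑_{i+j=n, i,j≥1} al i al j`, where the last sum is
`∑_{i+j=n-2} catalan i catalan j / (4 4^(n-2)) = catalan (n-1) / 4^(n-1) = 2 al n` (Catalan recursion,
`catalan_succ` or `catalan_succ'`). -/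
def AlSum : Prop := (∀ n, 0 < al (n + 1)) ∧ (∀ k, ∑ n ∈ range k, al (n + 1) ≤ 1) ∧
  ∀ n, ∑ p ∈ antidiagonal n, ac p.1 * ac p.2 = if n = 0 then 1 else if n = 1 then -1 else 0

/-- Root. PROOF. `S = shiftM N ε` is orthogonal for `ε = ±1` (it permutes the basis up to signs),
`Sᵀ = S⁻¹`, `S^(N+1) = ε`. `R = ∑_n ac n lam^n S^n` converges absolutely (`|ac n| ≤ 1`, `0 ≤ lam < 1`;
use a normed algebra structure on matrices, or entrywise series). `sq`: Cauchy product and AlSum: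
`R R = ∑_n lam^n S^n ∑_{i+j=n} ac i ac j = 1 - lam S`. `normal`: `R` and `Rᵀ = ∑ ac n lam^n (Sᵀ)^n` commute
because `S` and `Sᵀ = S⁻¹` do. `upper`: `‖R v‖ ≤ ∑ |ac n| lam^n ‖S^n v‖ ≤ (1 + ∑ al (n+1)) ‖v‖ ≤ 2 ‖v‖`.
`lower`: `‖R R v‖ = ‖v - lam S v‖ ≥ (1 - lam) ‖v‖`, so `R` is injective, hence invertible. Given `w`, let
`v = R⁻¹ w` be written as `w = R v`. `‖v‖² = ⟨R⁻¹ w, R⁻¹ w⟩ = ⟨w, (R⁻¹)ᵀ R⁻¹ w⟩ ≤ ‖w‖ ‖(R⁻¹)ᵀ (R⁻¹ w)‖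
= ‖w‖ ‖R⁻¹ R⁻¹ w‖ ≤ ‖w‖² / (1 - lam)`, as `R⁻¹` is normal (`‖Tᵀ u‖ = ‖T u‖`) and
`‖(R R)⁻¹ w‖ ≤ ‖w‖ / (1 - lam)`. So `(1 - lam) ‖v‖² ≤ ‖R v‖²`. `entry`: `(S^n) i j` is `0` unless
`n ≡ i - j mod N + 1`, and of absolute value one then; for `j ≤ i` the term `n = i - j` is
`ac (i-j) lam^(i-j)` (no wrap, sign `+`), all others have `n ≥ N + 1`; for `i < j` all have
`n ≥ N + 1 - (j - i)`; and `∑_{n ≥ k} |ac n| lam^n ≤ lam^k` for `k ≥ 1`. -/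
def Root : Prop := ∀ (N : ℕ) (ε lam : ℝ), ε = 1 ∨ ε = -1 → 0 ≤ lam → lam < 1 → ∃ R, RootOf N ε lam R

/-- ExVac. PROOF from JW, Vacuum, Root: take `R` of Root; it is invertible by `lower`. Put
`U = R * (Rᵀ)⁻¹`, `Q = R * Rᵀ`. By `normal` all of `R, Rᵀ, R⁻¹, (Rᵀ)⁻¹` commute, `Uᵀ U = R⁻¹ Rᵀ R (Rᵀ)⁻¹
= 1`, `U Q = R R = 1 - lam S`, `v·Q v = ‖Rᵀ v‖² = ‖R v‖² ≥ (1 - lam) ‖v‖²`. Apply Vacuum to `Ao, Bo`
(`card (Cf N) = 2^(N+1)`), `v = Rᵀ w`: `U v = R w`. -/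
def ExVac : Prop := ∀ (N : ℕ) (ε lam : ℝ), ε = 1 ∨ ε = -1 → 0 ≤ lam → lam < 1 →
  ∃ R E Ψ, RootOf N ε lam R ∧ IsGround (qf (1 - lam • shiftM N ε)) E (2 * (1 - lam)) Ψ ∧
    ∀ w, annih R w *ᵥ Ψ = 0

/-- Parity. PROOF (`h : ExVac`, `hJ : JW`). Write `M_lam = 1 - lam • S`, `H_lam = qf M_lam`. (a) `Po` commutes
with `H_lam` (it anticommutes with `A_j` and `B_l`), so `Po Ψ` is an eigenvector for `E`, a unit vector;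
IsGround for `φ = Po Ψ` gives `|⟨Ψ, Po Ψ⟩| ≥ 1`, so `Po Ψ = c Ψ` with `c = ±1` (`Po` Hermitian, `Po² = 1`).
(b) `lam = 0`: `H_0 = i ∑ A_j B_j = - ∑ Z_j`; let `e` be the vector `1` at the configuration `0` and `0`
elsewhere: `H_0 e = -(N+1) e` and `⟨φ, H_0 φ⟩ ≥ -(N+1) ‖φ‖²` for all `φ`. So `E = ⟨Ψ, H_0 Ψ⟩ ≥ -(N+1)`,
and IsGround for `φ = e` gives `E + 2 (1 - |⟨Ψ, e⟩|²) ≤ -(N+1)`, hence `|⟨Ψ, e⟩| = 1`, `Ψ` is a multiple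
of `e`, `Po Ψ = Ψ`. (c) Let `0 ≤ lam, lam' ≤ lam₁ < 1` with `|lam - lam'| (N + 1) < 2 (1 - lam₁)` and let
`Ψ, Ψ'` be ground states for `lam, lam'` (they exist by `h`) with different parities; then
`⟨Ψ, Ψ'⟩ = 0` and, as `H_lam' - H_lam = (lam - lam') qf S` and `‖qf S‖ ≤ N + 1` (a sum of `N + 1`
operators of norm one): `E' = ⟨Ψ', H_lam' Ψ'⟩ ≥ ⟨Ψ', H_lam Ψ'⟩ - |lam - lam'| (N+1) ≥ E + 2 (1 - lam) -
|lam - lam'| (N + 1) > E`, and in the same way `E > E'`, a contradiction. (Two ground states of the same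
`lam` are proportional by (a)-type reasoning, so the parity depends on `lam` only; this is also (c) for
`lam = lam'`.) (d) Go from `0` to `lam` in finitely many steps of length `< (1 - lam) / (N + 1)`. -/
def Parity : Prop := ∀ (N : ℕ) (ε lam E : ℝ) (Ψ : Cf N → ℂ), ε = 1 ∨ ε = -1 → 0 ≤ lam → lam < 1 →
  IsGround (qf (1 - lam • shiftM N ε)) E (2 * (1 - lam)) Ψ → Po *ᵥ Ψ = Ψ

/-- Compare. The vacuum energy with `ε = 1` is at least the one with `ε = -1`. PROOF from JW, RingId: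
as in RingId, `qf (1 - lam • shiftM N ε) = - ∑ Z_j - lam ∑_{j<N} X_j X_(j+1) - i lam ε A_0 B_N` and
`- i A_0 B_N = P X_N X_0` (from `X_N X_0 = - i P A_0 B_N`). So on vectors with `Po φ = φ`:
`⟨φ, qf (1 - lam • shiftM N ε) φ⟩ = ⟨φ, (- ∑ Z_j - lam ∑_{j<N} X_j X_(j+1) + lam ε X_N X_0) φ⟩`. Let
`φ = Ψ`, `ε = 1`, and let `χ s = |Ψ s|` (entrywise); `Po χ = χ` since `Po` is diagonal (`Po Ψ = Ψ` means
`Ψ s = 0` where the sign is `-1`), `‖χ‖ = 1`. The `Z` terms of `Ψ` and `χ` agree, and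
`|⟨Ψ, X_i X_j Ψ⟩| ≤ ⟨χ, X_i X_j χ⟩` because `X_i X_j` is a permutation matrix. Therefore
`E = ⟨Ψ, qf(..1) Ψ⟩ ≥ ⟨χ, qf(..(-1)) χ⟩ ≥ E'`, the last step by IsGround (Cauchy-Schwarz:
`|⟨Ψ', χ⟩| ≤ 1`). -/
def Compare : Prop := ∀ (N : ℕ) (lam E E' : ℝ) (Ψ Ψ' : Cf N → ℂ), 1 ≤ N → 0 ≤ lam → lam < 1 →
  IsGround (qf (1 - lam • shiftM N 1)) E (2 * (1 - lam)) Ψ → Po *ᵥ Ψ = Ψ →
  IsGround (qf (1 - lam • shiftM N (-1))) E' (2 * (1 - lam)) Ψ' → E' ≤ E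

/-- Ring. PROOF from JW, RingId, ExVac, Parity, Compare. Take `R, E, Ψ` from ExVac with `ε = -1` and
`E₁, Ψ₁` with `ε = 1`; `Po Ψ = Ψ`, `Po Ψ₁ = Ψ₁`, `E ≤ E₁`. RingId gives `ringH Ψ = qf(-1) Ψ = E Ψ`. For any
`φ` let `φ_± = (φ ± Po φ) / 2`; `‖φ‖² = ‖φ_+‖² + ‖φ_-‖²`, and as everything commutes with `Po`,
`⟨φ, ringH φ⟩ = ⟨φ_+, qf(-1) φ_+⟩ + ⟨φ_-, qf(1) φ_-⟩ ≥ E ‖φ_+‖² + 2 (1 - lam) (‖φ_+‖² - |⟨Ψ, φ_+⟩|²) +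
E₁ ‖φ_-‖² + 2 (1 - lam) ‖φ_-‖²` since `⟨Ψ₁, φ_-⟩ = 0`; and `⟨Ψ, φ_+⟩ = ⟨Ψ, φ⟩`, `E₁ ≥ E`. -/
def Ring : Prop := ∀ (N : ℕ) (lam : ℝ), 1 ≤ N → 0 ≤ lam → lam < 1 →
  ∃ R E Ψ, RootOf N (-1) lam R ∧ IsGround (ringH lam N) E (2 * (1 - lam)) Ψ ∧ ∀ w, annih R w *ᵥ Ψ = 0

/-- Hankel. PROOF. `al (n + 1) = (2/π) ∫_0^(π/2) sin^(2n) θ cos² θ dθ` (Wallis: `∫ sin^(2n) = (π/2) w_n`,
`w_n = centralBinom n / 4^n`, `w_n - w_(n+1) = al (n+1)`; Mathlib has `integral_sin_pow_even` on `[0, π]`,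
one may integrate over `[0, π]` with the factor `1/π`). So the right side is
`(2/π) ∫_0^(π/2) q(sin² θ)² cos² θ dθ`, `q(x) = ∑_l z_l x^l`. Let `V_0 = 1`, `V_1 = 1 - 4x`,
`V_(j+1) = (2 - 4x) V_j - V_(j-1)`; then `V_j(sin² θ) cos θ = cos ((2j+1) θ)` (addition theorem,
`cos 2θ = 1 - 2 sin² θ`), `deg V_j = j` with the leading coefficient `(-4)^j ≠ 0`, and the sum of the
absolute values of the coefficients is at most `7^j`. Expand `q = ∑_{j<m} d_j V_j`; since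
`∫_0^(π/2) cos((2j+1)θ) cos((2k+1)θ) dθ = (π/4) δ_jk`, the right side is `(1/2) ∑ d_j²`, and
`(∑ z_l²)^(1/2) ≤ ∑ |z_l| ≤ ∑ |d_j| 7^j ≤ (∑ d_j²)^(1/2) (∑_{j<m} 49^j)^(1/2) ≤ 7^m (∑ d_j²)^(1/2)`. -/
def Hankel : Prop := ∀ (m : ℕ) (z : Fin m → ℝ),
  (1 / 2) * (1 / 49) ^ m * ∑ l, z l ^ 2 ≤ ∑ l : Fin m, ∑ k : Fin m, al (l + k + 1) * z l * z k

/-- Star. PROOF from Hankel, AlSum. Let `x, y` be supported on the block `[0, m)`, `z = Rᵀ x + R y`,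
`h = hh m lam`, `ω = m lam^(N+1-2m)`. Let `g_(m+l) = - y_(m-1-l)` for `l < m`, `0` elsewhere
(`2 m ≤ N + 1`). `⟨g, z⟩ = ⟨R g, x⟩ + ⟨Rᵀ g, y⟩`. `⟨R g, x⟩ = ∑_{i<m≤j<2m} x_i R_ij g_j`, where
`|R_ij| ≤ lam^(N+1-(j-i)) ≤ lam^(N+1-2m)` (entry, `i < j`), so `|⟨R g, x⟩| ≤ ω ‖x‖ ‖y‖`.
`⟨Rᵀ g, y⟩ = ∑_{j<m≤i<2m} g_i R_ij y_j`; with `i = m + l`, `j = m - 1 - k`: `i - j = l + k + 1` and
`R_ij = - al (l+k+1) lam^(l+k+1)` up to `lam^(N+1)`, so `⟨Rᵀ g, y⟩ ≥ ∑ al (l+k+1) lam^(l+k+1) u_l u_k -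
ω ‖y‖²` with `u_l = y_(m-1-l)`, and by Hankel for `z_l = lam^l u_l` the sum is
`≥ lam (1/2) 49^(-m) ∑ lam^(2l) u_l² ≥ h ‖y‖²`. As `|⟨g, z⟩| ≤ ‖y‖ ‖z‖`:
`h ‖y‖ ≤ ‖z‖ + ω (‖x‖ + ‖y‖)`. By `lower` and `normal`, with `β = 1 / (1 - lam) ≥ 1`:
`‖x‖ ≤ β ‖Rᵀ x‖ ≤ β (‖z‖ + 2 ‖y‖)` (`(1-lam)² ≤ 1-lam`). So `h ‖y‖ ≤ ‖z‖ + ω β ‖z‖ + 3 ω β ‖y‖`, and
`3 ω β ≤ h / 2` by assumption, thus `‖y‖ ≤ (2/h) (1 + h/6) ‖z‖ ≤ (3/h) ‖z‖` (`h ≤ 1/2`), `‖x‖ ≤ (7 β / h)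
‖z‖`, `‖x‖² + ‖y‖² ≤ 58 β² / h² ‖z‖² ≤ (10 β / h)² ‖z‖²`, and `kap = 10 β / h`. -/
def Star : Prop := ∀ (N m : ℕ) (lam : ℝ) (R : Matrix (Fin (N + 1)) (Fin (N + 1)) ℝ),
  0 < lam → lam < 1 → 1 ≤ m → 2 * m ≤ N + 1 → 6 * m * lam ^ (N + 1 - 2 * m) ≤ hh m lam * (1 - lam) →
  RootOf N (-1) lam R → ∀ x y : Fin (N + 1) → ℝ, (∀ i : Fin (N + 1), m ≤ (i : ℕ) → x i = 0 ∧ y i = 0) →
    x ⬝ᵥ x + y ⬝ᵥ y ≤ kap m lam ^ 2 * ((Rᵀ *ᵥ x + R *ᵥ y) ⬝ᵥ (Rᵀ *ᵥ x + R *ᵥ y))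

/-- Dual. Solvability with a bound. PROOF. Let `T w = ((R w)|_[0,m), (Rᵀ w)|_[0,m))`, its transpose is
`(x, y) ↦ Rᵀ x + R y` for `x, y` supported on the block; by hypothesis `‖(x, y)‖² ≤ κ² ‖Tᵀ (x, y)‖²`.
Hence `T Tᵀ` is injective, so bijective (finite dimension); put `w = Tᵀ ξ`, `T Tᵀ ξ = (p, r)`.
`‖w‖² = ⟨ξ, T Tᵀ ξ⟩ ≤ ‖ξ‖ ‖(p, r)‖ ≤ κ ‖w‖ ‖(p, r)‖`, so `‖w‖ ≤ κ ‖(p, r)‖`. -/
def Dual : Prop := ∀ (K m : ℕ) (κ : ℝ) (R : Matrix (Fin K) (Fin K) ℝ), 0 ≤ κ →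
  (∀ x y : Fin K → ℝ, (∀ i : Fin K, m ≤ (i : ℕ) → x i = 0 ∧ y i = 0) →
    x ⬝ᵥ x + y ⬝ᵥ y ≤ κ ^ 2 * ((Rᵀ *ᵥ x + R *ᵥ y) ⬝ᵥ (Rᵀ *ᵥ x + R *ᵥ y))) →
  ∀ p r : Fin K → ℝ, (∀ i : Fin K, m ≤ (i : ℕ) → p i = 0 ∧ r i = 0) →
    ∃ w : Fin K → ℝ, (∀ i : Fin K, (i : ℕ) < m → (R *ᵥ w) i = p i ∧ (Rᵀ *ᵥ w) i = r i) ∧
      w ⬝ᵥ w ≤ κ ^ 2 * (p ⬝ᵥ p + r ⬝ᵥ r)

/-- GNS. PROOF by induction on `K` (all `n, γ` fixed, initial segments of `γ`): claim `C(k)`: for all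
`c : (Fin k → Bool) → ℂ`, `‖c‖ ≤ (1 + 2 κ)^k ‖O(c) Ψ‖`, `O(c) = ∑ c_s word_s(γ_0, ..., γ_(k-1))`
(norms: square roots of `∑ ‖c_s‖²` and `normSq`). `C(0)`: `O(c) = c • 1`, `‖Ψ‖ = 1`. Step: split
`c = (c⁰, c¹)` according to `s_k`: `O(c) = O₁ + O₂ γ_k`, `O₁ = O(c⁰)`, `O₂ = O(c¹)` (words in `γ_j, j < k`).
For `O₂` let `O₂' = ∑ (-1)^|s| c¹_s word_s`. Let `b, ζ` belong to `k`. Since `b` anticommutes with the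
`γ_j, j < k`: `b word_s = (-1)^|s| word_s b`. So `b O₁ Ψ = O₁' b Ψ = 0` and `b O₂ γ_k Ψ = O₂' b γ_k Ψ =
O₂' (2 ζ - γ_k b) Ψ = 2 ζ O₂' Ψ`. Hence `2 ‖O₂' Ψ‖ = ‖b O(c) Ψ‖ ≤ 2 κ ‖O(c) Ψ‖`. Next
`γ_k O₂' = O₂ γ_k` (`γ_k` anticommutes with the `γ_j`), so `‖O₂ γ_k Ψ‖ = ‖γ_k O₂' Ψ‖ = ‖O₂' Ψ‖ ≤
κ ‖O(c) Ψ‖` (`γ_k` is unitary), and `‖O₁ Ψ‖ ≤ (1 + κ) ‖O(c) Ψ‖`. By `C(k)` for `c⁰` and for
`(-1)^|s| c¹_s`: `‖c‖ ≤ ‖c⁰‖ + ‖c¹‖ ≤ (1+2κ)^k ((1 + κ) + κ) ‖O(c) Ψ‖`. -/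
def GNS : Prop := ∀ (n : Type) [Fintype n] [DecidableEq n] (K : ℕ) (γ : Fin K → Matrix n n ℂ)
  (Ψ : n → ℂ) (κ : ℝ), IsMaj γ → normSq Ψ = 1 → 0 ≤ κ →
  (∀ k : Fin K, ∃ (b : Matrix n n ℂ) (ζ : ℂ), b *ᵥ Ψ = 0 ∧ ‖ζ‖ = 1 ∧ (∀ j < k, b * γ j = -(γ j * b)) ∧
    b * γ k + γ k * b = (2 * ζ) • (1 : Matrix n n ℂ) ∧ ∀ φ, normSq (b *ᵥ φ) ≤ (2 * κ) ^ 2 * normSq φ) →
  ∀ c : (Fin K → Bool) → ℂ,
    ∑ s, ‖c s‖ ^ 2 ≤ (1 + 2 * κ) ^ (2 * K) * normSq ((∑ s, c s • word γ s) *ᵥ Ψ)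

/-- Block. From the lower bound for words to a lower bound for block vectors. PROOF. Only
`n = Cf N`; for `W : Matrix (Fin m → Fin 2) (Fin m → Fin 2) ℂ` let `ι W : Matrix (Cf N) (Cf N) ℂ` be
`W ⊗ 1`: `(ι W φ) s = ∑_q W (s|_m, q) φ (paste q s)`. Each `Ao j`, `Bo j` with `j < m` is `ι` of a matrix
(it acts on the sites `≤ j` only: `(Ao j φ) s = (∏_{i<j} sgn (s i)) φ (flip j s)`), and `ι` is an injective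
algebra homomorphism (`m ≤ N + 1`). So `c ↦ ∑ c_s word_s = ι (Θ c)` with a linear map
`Θ : ℂ^(2^(2m)) → Matrix (2^m) (2^m)`, injective by hypothesis (`hc`), hence surjective (dimensions `4^m`).
Given `v`, fix a block configuration `p₀` and let `W a b = if a = p₀ then v b else 0`, `W = Θ c`. Then
`(ι W Ψ) s = [s|_m = p₀] ∑_q v q Ψ (paste q s)` and `2^m normSq (ι W Ψ) = ∑_t ‖∑_q v q Ψ (paste q t)‖²`
(the inner sum does not depend on `t|_m`). For the norm: `‖v‖ = ‖W v̄‖ / ‖v‖ ≤ ‖W‖ ≤ ∑ |c_s| ≤ 2^m ‖c‖`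
(words are unitary; there are `2^(2m)` of them; for instance `normSq (ι W φ) ≤ (∑ |c_s|)² normSq φ` with
`φ t = conj (v (t|_m))` at the configurations with `t = 0` off the block). So
`‖v‖² ≤ 4^m ‖c‖² ≤ 4^m G normSq (ι W Ψ) = 2^m G ∑_t ‖∑_q v q Ψ (paste q t)‖²`. -/
def Block : Prop := ∀ (N m : ℕ) (γ : Fin (2 * m) → Matrix (Cf N) (Cf N) ℂ) (Ψ : Cf N → ℂ) (G : ℝ)
  (hm : m ≤ N + 1),
  (∀ j : Fin m, γ ⟨2 * j, by omega⟩ = Ao ⟨j, by omega⟩ ∧ γ ⟨2 * j + 1, by omega⟩ = Bo ⟨j, by omega⟩) →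
  0 ≤ G → (∀ c : (Fin (2 * m) → Bool) → ℂ, ∑ s, ‖c s‖ ^ 2 ≤ G * normSq ((∑ s, c s • word γ s) *ᵥ Ψ)) →
  ∀ v : (Fin m → Fin 2) → ℂ,
    ∑ p, ‖v p‖ ^ 2 ≤ 2 ^ m * G * ∑ t : Cf N, ‖∑ p, v p * Ψ (paste p t)‖ ^ 2

/-- Row. PROOF from JW, Star (with Hankel, AlSum), Dual, GNS, Block. Let `κ = 2 kap m lam`. For `k = 2j`
(`γ_k = A_j`) take `w` of Dual with `p = e_j`, `r = 0`, `b = annih R w`, `ζ = 1`; for `k = 2j+1`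
(`γ_k = B_j`): `p = 0`, `r = e_j`, `ζ = i`. By JW `b A_i + A_i b = 2 (R w)_i`, `b B_i + B_i b = 2 i (Rᵀ w)_i`;
so `b` anticommutes with all the other block operators. `‖b φ‖ ≤ (‖R w‖ + ‖Rᵀ w‖) ‖φ‖ = 2 ‖R w‖ ‖φ‖ ≤
4 ‖w‖ ‖φ‖ ≤ 4 kap ‖φ‖ = 2 κ ‖φ‖` (`(∑ f_j A_j)² = ∑ f_j²`, the sum is Hermitian). GNS gives
`G = (1 + 2κ)^(4m) = (1 + 4 kap)^(4m)`, Block the claim. -/
def Row : Prop := ∀ (N m : ℕ) (lam : ℝ) (R : Matrix (Fin (N + 1)) (Fin (N + 1)) ℝ) (Ψ : Cf N → ℂ),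
  0 < lam → lam < 1 → 1 ≤ m → 2 * m ≤ N + 1 → 6 * m * lam ^ (N + 1 - 2 * m) ≤ hh m lam * (1 - lam) →
  RootOf N (-1) lam R → normSq Ψ = 1 → (∀ w, annih R w *ᵥ Ψ = 0) → ∀ v : (Fin m → Fin 2) → ℂ,
    ∑ p, ‖v p‖ ^ 2 ≤ 2 ^ m * (1 + 4 * kap m lam) ^ (4 * m) * ∑ t : Cf N, ‖∑ p, v p * Ψ (paste p t)‖ ^ 2

/-- TensorBound. PROOF by induction on `k`: `T_k v (b) = ∑_a (∏_y K y (b y) (a y)) v a`. Split off the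
last factor: for fixed `b_k` ... precisely, write `a = (a', a_k)`, `b = (b', b_k)`;
`T v (b', b_k) = ∑_{a_k} K_k (b_k, a_k) (T' v(·, a_k)) (b')`. For fixed `b'` the hypothesis for `K_k` and
the vector `a_k ↦ (T' v(·, a_k)) (b')` gives `g_k ∑_{a_k} |T' v(·,a_k) (b')|² ≤ ∑_{b_k} |T v (b', b_k)|²`; sum
over `b'` and use the induction hypothesis for each `a_k`. -/
def TensorBound : Prop := ∀ (k : ℕ) (α β : Type) [Fintype α] [Fintype β] (K : Fin k → β → α → ℂ)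
  (g : Fin k → ℝ), (∀ y, 0 ≤ g y) →
  (∀ y (v : α → ℂ), g y * ∑ a, ‖v a‖ ^ 2 ≤ ∑ b, ‖∑ a, K y b a * v a‖ ^ 2) →
  ∀ v : (Fin k → α) → ℂ,
    (∏ y, g y) * ∑ a, ‖v a‖ ^ 2 ≤ ∑ b : Fin k → β, ‖∑ a, (∏ y, K y (b y) (a y)) * v a‖ ^ 2

/-- TorusBlock. PROOF from TensorBound. Rewrite torus configurations `t` as families of rows
`t_y = fun x => t (x, y)`, `y : Fin (N+1)`. `rowProd Ψ (tpaste p t) = ∏_{y<m} Ψ (paste (p (·, y)) t_y) *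
∏_{y≥m} Ψ (t_y)`. Use TensorBound with `k = m`, `α = Fin m → Fin 2`, `β = Cf N`,
`K y b a = Ψ (paste a b)`, `g y = g` for the rows `< m`; the rows `≥ m` give the factor
`(∑ ‖Ψ t‖²)^(N+1-m) = 1`. -/
def TorusBlock : Prop := ∀ (N m : ℕ) (Ψ : Cf N → ℂ) (g : ℝ), m ≤ N + 1 → 0 ≤ g → normSq Ψ = 1 →
  (∀ v : (Fin m → Fin 2) → ℂ, g * ∑ p, ‖v p‖ ^ 2 ≤ ∑ t : Cf N, ‖∑ p, v p * Ψ (paste p t)‖ ^ 2) →
  ∀ v : (Fin m × Fin m → Fin 2) → ℂ,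
    g ^ m * ∑ p, ‖v p‖ ^ 2 ≤ ∑ t : Site (N + 1) → Fin 2, ‖∑ p, v p * rowProd Ψ (tpaste p t)‖ ^ 2

/-- ProdGap. PROOF by induction on `k`. `H_k = ∑_y H^(y)`, where `H^(y)` acts on the `y`-th variable:
`(H^(y) φ) s = ∑_a H (s y) a φ (update s y a)`. Step from `k` to `k + 1` (two factors `H₁` on `ℂ^α`, `H₂` on
`ℂ^β`): for `φ : α × β → ℂ` put `χ b = ⟨Ψ₁, φ(·, b)⟩` and `φ' = φ - Ψ₁ ⊗ χ`. Summing IsGround of `H₁`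
over `b`: `⟨φ, (H₁ - E₁) ⊗ 1 φ⟩ ≥ Δ (‖φ‖² - ‖χ‖²)`. `1 ⊗ (H₂ - E₂) ≥ 0`, and
`⟨φ, 1 ⊗ (H₂ - E₂) φ⟩ = ⟨χ, (H₂ - E₂) χ⟩ + ⟨φ', 1 ⊗ (H₂ - E₂) φ'⟩ ≥ Δ (‖χ‖² - |⟨Ψ₂, χ⟩|²)` (no cross
terms as `⟨Ψ₁, φ'(·, b)⟩ = 0` for all `b`; Hermitian `H₂`). Add up; `⟨Ψ₂, χ⟩ = ⟨Ψ₁ ⊗ Ψ₂, φ⟩`. -/
def ProdGap : Prop := ∀ (k : ℕ) (α : Type) [Fintype α] [DecidableEq α] (H : Matrix α α ℂ) (E Δ : ℝ)
  (Ψ : α → ℂ), H.IsHermitian → 0 ≤ Δ → IsGround H E Δ Ψ →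
  IsGround (∑ y : Fin k, (fun s t => if (∀ z, z ≠ y → s z = t z) then H (s y) (t y) else 0 :
    Matrix (Fin k → α) (Fin k → α) ℂ)) (k * E) Δ (fun s => ∏ y, Ψ (s y))

/-- TorusHam. PROOF from ProdGap. For `N ≥ 1` the torus Hamiltonian `ham (ising lam) (N + 1)` is the sum
over the rows `y` of `ringH lam N` acting on the row `fun x => s (x, y)`: the term at `u = (x, y)` is
`- Z_u - lam X_u X_(u + (1,0))` (for `N ≥ 1` the four sites of the box at `u` are different, and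
`term h u s t ≠ 0` forces `s = t` off `{u, u + (1,0)}` with either `s = t` or both spins flipped). Carry
ProdGap over along the equivalence `(Site (N+1) → Fin 2) ≃ (Fin (N+1) → Cf N)`. Then
`IsGround H E Δ Ψ → IsGappedGround H Δ Ψ` for Hermitian... (direct: if `H φ = E φ` then the inequality
gives `Δ (‖φ‖² - |⟨Ψ, φ⟩|²) ≤ 0`, so `φ` is a multiple of `Ψ`; if `H φ = E' φ`, `φ ≠ 0`, `E' ≠ E`, then
`⟨Ψ, φ⟩ = 0` by `⟨Ψ, H φ⟩ = ⟨H Ψ, φ⟩` (`H` Hermitian), so `E' ≥ E + Δ`). -/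
def TorusHam : Prop := ∀ (N : ℕ) (lam E Δ : ℝ) (Ψ : Cf N → ℂ), 1 ≤ N → 0 < Δ →
  IsGround (ringH lam N) E Δ Ψ →
  IsGappedGround (ham (ising lam) (N + 1)) Δ (rowProd Ψ) ∧ normSq (rowProd Ψ) = 1

/-- PepsKernel. PROOF. Let `K = Fin D`, `P = [0,m)²` the block (`m < L`). For labels `(h, v)` of all edges
the product over the sites splits into the product over the sites of the block, which depends on `p` and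
on the labels of the edges which touch the block, and the product over the other sites, which depends on
`t` and on the labels of the edges which touch the complement. `4 m` edges touch both (`h (-1, y)`,
`h (m-1, y)`, `v (x, -1)`, `v (x, m-1)`, `x, y < m`; `m < L` makes them different). Fix the labels of these `4m`
edges, `β : Fin (4m) → Fin D`, and sum over the other labels: the sum factorises,
`φ (tpaste p t) = ∑_β F_β(p) G_β(t)`. The `D^(4m)` vectors `F_β` of the space `ℂ^(2^(m²))` do not span its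
dual if `D^(4m) < 2^(m²)`: there is `v ≠ 0` with `∑_p v p F_β p = 0` for all `β`. (General lemma for any
network of tensors `T_x (s x) (ℓ|_(N x))` with labels `ℓ : edges → K`: the edges which touch both a
site of `P` and a site outside `P` are the only ones that count.) -/
def PepsKernel : Prop := ∀ (L m D : ℕ) [NeZero L] (φ : (Site L → Fin 2) → ℂ), m < L →
  D ^ (4 * m) < 2 ^ (m * m) → IsPEPS D φ →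
  ∃ v : (Fin m × Fin m → Fin 2) → ℂ, v ≠ 0 ∧ ∀ t, ∑ p, v p * φ (tpaste p t) = 0

/-- MpsKernel. PROOF. The same with two boundary edges. -/
def MpsKernel : Prop := ∀ (N m D : ℕ) (φ : Cf N → ℂ), 1 ≤ m → m < N + 1 → D ^ 2 < 2 ^ m → IsMPS D φ →
  ∃ v : (Fin m → Fin 2) → ℂ, v ≠ 0 ∧ ∀ t, ∑ p, v p * φ (paste p t) = 0

/-- Dist. PROOF. `θ = φ - Ψ`: `∑_p v p θ (paste p t) = - ∑_p v p Ψ (paste p t)`, so by Cauchy-Schwarz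
`g ∑ ‖v p‖² ≤ ∑_t |∑_p v p θ (paste p t)|² ≤ ∑ ‖v p‖² ∑_t ∑_p ‖θ (paste p t)‖²` and
`∑_t ∑_p ‖θ (paste p t)‖² = 2^m normSq θ`: `(p, t) ↦ paste p t` takes every value `2^m` times (`m` is the
number of the sites of the block; the values of `t` on the block are free). The same on the torus. -/
def Dist : Prop :=
  (∀ (N m : ℕ) (φ Ψ : Cf N → ℂ) (g : ℝ) (v : (Fin m → Fin 2) → ℂ), m ≤ N + 1 → v ≠ 0 →
    (∀ t, ∑ p, v p * φ (paste p t) = 0) →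
    g * ∑ p, ‖v p‖ ^ 2 ≤ ∑ t : Cf N, ‖∑ p, v p * Ψ (paste p t)‖ ^ 2 →
    g ≤ 2 ^ m * normSq (φ - Ψ)) ∧
  ∀ (L m : ℕ) [NeZero L] (φ Ψ : (Site L → Fin 2) → ℂ) (g : ℝ) (v : (Fin m × Fin m → Fin 2) → ℂ), m ≤ L →
    v ≠ 0 → (∀ t, ∑ p, v p * φ (tpaste p t) = 0) →
    g * ∑ p, ‖v p‖ ^ 2 ≤ ∑ t : Site L → Fin 2, ‖∑ p, v p * Ψ (tpaste p t)‖ ^ 2 →
    g ≤ 2 ^ (m * m) * normSq (φ - Ψ)

/-- Num. PROOF. `hh m lam = lam^(2m-1) / (2 49^m)`. (1) `6 m lam^(N+1-2m) ≤ hh m lam (1 - lam)` follows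
from `lam^(N+1) ≤ lam^(4m) 49^(-m) (1 - lam) / (12 m)`, i.e. `(N+1) log(1/lam) ≥ 4 m log (1/lam) +
m log 49 + log (12 m) - log (1 - lam)`, true if `N + 1 ≥ C m`, `m ≥ 1`. (2) `1 + 4 kap ≤ a^m` with
`a = a(lam)`, so `2^m (1 + 4 kap)^(4m) 2^m ≤ exp (2 C m²)`. -/
def Num : Prop := ∀ lam : ℝ, 0 < lam → lam < 1 → ∃ C : ℕ, 2 ≤ C ∧ ∀ m : ℕ, 1 ≤ m →
  (∀ N : ℕ, C * m ≤ N + 1 → 6 * m * lam ^ (N + 1 - 2 * m) ≤ hh m lam * (1 - lam)) ∧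
  4 ^ m * (1 + 4 * kap m lam) ^ (4 * m) ≤ Real.exp (2 * C * m ^ 2)

/-- Final (torus), from Ring, Row, TorusBlock, TorusHam, PepsKernel, Dist, Num. PROOF. Let `Ψ_L` be
`rowProd` of the ground state of Ring (`L = N + 1 ≥ 2`). Let `m ≥ 1`, `C m ≤ L`, `D^(4m) < 2^(m²)` and `φ` a
PEPS of bond dimension `D`. Row: the hypothesis of TorusBlock holds with
`g = (2^m (1 + 4 kap)^(4m))⁻¹`, so by PepsKernel and Dist `g^m ≤ 2^(m²) normSq (φ - Ψ)`, i.e.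
`normSq (φ - Ψ) ≥ (4^m (1 + 4 kap)^(4m))^(-m) ≥ exp (-2 C m³)`. Given `T ≥ T₀` and `T ≤ a L³`, let `m` be the
integer part of `(T / (2C))^(1/3)`: `C m³ ≤ T / 2 < T`, so a PEPS with `sqrt (normSq (φ - Ψ)) ≤ exp (-T)`
must have `D^(4m) ≥ 2^(m²)`, `D ≥ 2^(m/4) ≥ exp (a T^(1/3))`. Part (3): `T = c log L`. -/
def FinalTorus : Prop := ∀ lam : ℝ, 0 < lam → lam < 1 →
  ∃ Ψ : ∀ L : ℕ, (Site L → Fin 2) → ℂ,
    (∀ (L : ℕ) [NeZero L], 2 ≤ L → normSq (Ψ L) = 1 ∧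
      IsGappedGround (ham (ising lam) L) (2 * (1 - lam)) (Ψ L)) ∧
    ∃ a T₀ : ℝ, 0 < a ∧ 0 < T₀ ∧ ∀ (L : ℕ) [NeZero L], 2 ≤ L → ∀ T : ℝ, T₀ ≤ T → T ≤ a * L ^ 3 →
      ∀ (D : ℕ) (φ : (Site L → Fin 2) → ℂ), IsPEPS D φ → Real.sqrt (normSq (φ - Ψ L)) ≤ Real.exp (-T) →
        Real.exp (a * T ^ (1 / 3 : ℝ)) ≤ D

/-- Final (ring). PROOF: the same with MpsKernel: `normSq (φ - Ψ) ≥ (4^m (1 + 4 kap)^(4m))⁻¹ ≥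
exp (-2 C m²)` if `D² < 2^m`. -/
def FinalRing : Prop := ∀ lam : ℝ, 0 < lam → lam < 1 →
  ∃ Ψ : ∀ N : ℕ, Cf N → ℂ,
    (∀ N : ℕ, 1 ≤ N → normSq (Ψ N) = 1 ∧ IsGappedGround (ringH lam N) (2 * (1 - lam)) (Ψ N)) ∧
    ∃ a T₀ : ℝ, 0 < a ∧ 0 < T₀ ∧ ∀ N : ℕ, 1 ≤ N → ∀ T : ℝ, T₀ ≤ T → T ≤ a * (N + 1) ^ 2 →
      ∀ (D : ℕ) (φ : Cf N → ℂ), IsMPS D φ → Real.sqrt (normSq (φ - Ψ N)) ≤ Real.exp (-T) →
        Real.exp (a * T ^ (1 / 2 : ℝ)) ≤ D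

end Pool.Agent.Q234.PL
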